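import Pool.Agent.Lib.MP_29b1bb_gt.Basic

/-!
# LM-OneD: a sharpened Chebyshev inequality for convex functions on `[0,1]`

Subtracting constants we may assume `K 0 = 0 = φ 0` (the assertion only involves the covariance
`∫ Kφ - ∫K ∫φ`, `∫ K - K 0`, `∫ φ - φ 0`; `bet m` is a probability measure). By convexity
`q g = K g / g` and `r g = φ g / g` are monotone on `(0,1]` (`ConvexOn.secant_mono` or directly) and
`≥ 0`. For every finite measure `ν` on `(0,1]` and monotone bounded `q, r` one has Chebyshev's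
inequality `ν(1) ∫ q r ∂ν ≥ (∫ q ∂ν) (∫ r ∂ν)` (integrate `(q x - q y)(r x - r y) ≥ 0` over `ν.prod ν`).
With weights: `e₁ = ∫ g ∂bet m = m/(m+1)`, `e₂ = ∫ g² ∂bet m = m/(m+2)` (`integral_bet`).
(1) `e₂ * ∫ g² q r ≥ (∫ g² q)(∫ g² r)` (weight `g²`).
(2) `e₁ * ∫ g * g q ≥ (∫ g * g)(∫ g q)`, i.e. `e₁ * ∫ g² q ≥ e₂ * ∫ K` (weight `g`, functions `g` and `q`);
    the same for `r`.
So `∫ K φ = ∫ g² q r ≥ (e₂ / e₁²) (∫ K)(∫ φ)`, and `e₂ / e₁² = (m+1)²/(m(m+2)) = 1 + 1/(m(m+2))`.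
Measurability: `K` and `φ` are monotone on `[0,1]` (convex with minimum at `0`), e.g.
`MonotoneOn` gives `AEMeasurable` with respect to `volume.restrict (Icc 0 1)`
(`aemeasurable_restrict_of_monotoneOn`), hence with respect to `bet m`.
-/

set_option autoImplicit false

open MeasureTheory Set

namespace Pool.Agent.Lib.MP_29b1bb_gt

/-- almost everywhere measurable and bounded on `(0,1]` -/
private def BM (m : ℕ) (f : ℝ → ℝ) : Prop :=
  AEStronglyMeasurable f (bet m) ∧ ∃ M : ℝ, ∀ g ∈ Ioc (0 : ℝ) 1, |f g| ≤ M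

private theorem bet_finite (m : ℕ) (hm : 0 < m) : IsFiniteMeasure (bet m) := by
  have := instProbBet m hm
  infer_instance

private theorem BM.integrable {m : ℕ} (hm : 0 < m) {f : ℝ → ℝ} (hf : BM m f) :
    Integrable f (bet m) := by
  have := bet_finite m hm
  obtain ⟨h1, M, hM⟩ := hf
  refine Integrable.of_bound (C := M) h1 ?_
  filter_upwards [bet_ae_mem m] with g hg
  simpa using hM g hg

private theorem BM.mul {m : ℕ} {f h : ℝ → ℝ} (hf : BM m f) (hh : BM m h) :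
    BM m (fun g => f g * h g) := by
  obtain ⟨h1, M, hM⟩ := hf
  obtain ⟨h2, M', hM'⟩ := hh
  refine ⟨h1.mul h2, M * M', fun g hg => ?_⟩
  rw [abs_mul]
  exact mul_le_mul (hM g hg) (hM' g hg) (abs_nonneg _) ((abs_nonneg _).trans (hM g hg))

private theorem bm_pow (m k : ℕ) : BM m (fun g => g ^ k) := by
  refine ⟨(by fun_prop : Measurable fun g : ℝ => g ^ k).aestronglyMeasurable, 1, fun g hg => ?_⟩
  rw [abs_pow, abs_of_pos hg.1]
  exact pow_le_one₀ hg.1.le hg.2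

private theorem bm_of_mono (m : ℕ) {q : ℝ → ℝ} (hq : MonotoneOn q (Ioc 0 1))
    (h0 : ∀ g ∈ Ioc (0 : ℝ) 1, 0 ≤ q g) : BM m q := by
  refine ⟨?_, q 1, fun g hg => ?_⟩
  · have h1 : AEMeasurable q (volume.restrict (Ioc (0 : ℝ) 1)) :=
      aemeasurable_restrict_of_monotoneOn measurableSet_Ioc hq
    have h2 : AEMeasurable q (bet m) :=
      h1.mono_ac (withDensity_absolutelyContinuous _ _)
    exact h2.aestronglyMeasurable
  · rw [abs_of_nonneg (h0 g hg)]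
    exact hq hg ⟨zero_lt_one, le_rfl⟩ hg.2

/-- weighted Chebyshev inequality -/
private theorem cheb {m : ℕ} (hm : 0 < m) {w q r : ℝ → ℝ} (hw : BM m w) (hq : BM m q)
    (hr : BM m r) (hw0 : ∀ g ∈ Ioc (0 : ℝ) 1, 0 ≤ w g) (hqm : MonotoneOn q (Ioc 0 1))
    (hrm : MonotoneOn r (Ioc 0 1)) :
    (∫ g, w g * q g ∂bet m) * (∫ g, w g * r g ∂bet m) ≤
      (∫ g, w g ∂bet m) * (∫ g, w g * (q g * r g) ∂bet m) := by
  have := bet_finite m hm
  have i1 := hw.integrable hm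
  have i2 := (hw.mul hq).integrable hm
  have i3 := (hw.mul hr).integrable hm
  have i4 := (hw.mul (hq.mul hr)).integrable hm
  have key : 0 ≤ ∫ z : ℝ × ℝ, (w z.1 * w z.2) * ((q z.1 - q z.2) * (r z.1 - r z.2))
      ∂((bet m).prod (bet m)) := by
    refine integral_nonneg_of_ae ?_
    have h1 : ∀ᵐ z ∂((bet m).prod (bet m)), z.1 ∈ Ioc (0 : ℝ) 1 :=
      Measure.quasiMeasurePreserving_fst.ae (bet_ae_mem m)
    have h2 : ∀ᵐ z ∂((bet m).prod (bet m)), z.2 ∈ Ioc (0 : ℝ) 1 :=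
      Measure.quasiMeasurePreserving_snd.ae (bet_ae_mem m)
    filter_upwards [h1, h2] with z hz1 hz2
    simp only [Pi.zero_apply]
    refine mul_nonneg (mul_nonneg (hw0 _ hz1) (hw0 _ hz2)) ?_
    rcases le_total z.1 z.2 with h | h
    · exact mul_nonneg_of_nonpos_of_nonpos (by linarith [hqm hz1 hz2 h])
        (by linarith [hrm hz1 hz2 h])
    · exact mul_nonneg (by linarith [hqm hz2 hz1 h]) (by linarith [hrm hz2 hz1 h])
  have e1 : ∀ z : ℝ × ℝ, (w z.1 * w z.2) * ((q z.1 - q z.2) * (r z.1 - r z.2)) =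
      (w z.1 * (q z.1 * r z.1)) * w z.2 + w z.1 * (w z.2 * (q z.2 * r z.2)) -
        (w z.1 * q z.1) * (w z.2 * r z.2) - (w z.1 * r z.1) * (w z.2 * q z.2) := by
    intro z; ring
  simp_rw [e1] at key
  have j1 : Integrable (fun z : ℝ × ℝ => (w z.1 * (q z.1 * r z.1)) * w z.2)
      ((bet m).prod (bet m)) := i4.mul_prod i1
  have j2 : Integrable (fun z : ℝ × ℝ => w z.1 * (w z.2 * (q z.2 * r z.2)))
      ((bet m).prod (bet m)) := i1.mul_prod i4
  have j3 : Integrable (fun z : ℝ × ℝ => (w z.1 * q z.1) * (w z.2 * r z.2))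
      ((bet m).prod (bet m)) := i2.mul_prod i3
  have j4 : Integrable (fun z : ℝ × ℝ => (w z.1 * r z.1) * (w z.2 * q z.2))
      ((bet m).prod (bet m)) := i3.mul_prod i2
  have j12 : Integrable (fun z : ℝ × ℝ => (w z.1 * (q z.1 * r z.1)) * w z.2 +
      w z.1 * (w z.2 * (q z.2 * r z.2))) ((bet m).prod (bet m)) := j1.add j2
  have j123 : Integrable (fun z : ℝ × ℝ => (w z.1 * (q z.1 * r z.1)) * w z.2 +
      w z.1 * (w z.2 * (q z.2 * r z.2)) - (w z.1 * q z.1) * (w z.2 * r z.2))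
      ((bet m).prod (bet m)) := j12.sub j3
  rw [integral_sub j123 j4, integral_sub j12 j3, integral_add j1 j2,
    integral_prod_mul (fun x => w x * (q x * r x)) w,
    integral_prod_mul w (fun x => w x * (q x * r x)),
    integral_prod_mul (fun x => w x * q x) (fun x => w x * r x),
    integral_prod_mul (fun x => w x * r x) (fun x => w x * q x)] at key
  linarith

private theorem moment (m : ℕ) (hm : 0 < m) (k : ℕ) :
    ∫ g, g ^ k ∂bet m = (m : ℝ) / (m + k) := by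
  rw [integral_bet]
  have e1 : ∀ g : ℝ, ((m : ℝ) * g ^ (m - 1)) * g ^ k = (m : ℝ) * g ^ (m - 1 + k) := by
    intro g; rw [pow_add]; ring
  simp_rw [e1]
  rw [intervalIntegral.integral_const_mul, integral_pow]
  have h1 : ((m - 1 + k : ℕ) : ℝ) + 1 = (m : ℝ) + k := by
    push_cast [Nat.cast_sub (show 1 ≤ m from hm)]
    ring
  rw [h1]
  simp
  ring

/-- the normalised case -/
private theorem oneD_aux (m : ℕ) (hm : 0 < m) (K φ : ℝ → ℝ) (hK : ConvexOn ℝ (Icc 0 1) K)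
    (hφ : ConvexOn ℝ (Icc 0 1) φ) (hK0 : ∀ g ∈ Icc (0 : ℝ) 1, 0 ≤ K g)
    (hφ0 : ∀ g ∈ Icc (0 : ℝ) 1, 0 ≤ φ g) (hKz : K 0 = 0) (hφz : φ 0 = 0) :
    (1 + 1 / ((m : ℝ) * (m + 2))) * ((∫ g, K g ∂bet m) * (∫ g, φ g ∂bet m)) ≤
      ∫ g, K g * φ g ∂bet m := by
  have := bet_finite m hm
  have hmR : (0 : ℝ) < m := by exact_mod_cast hm
  have hmono : ∀ F : ℝ → ℝ, ConvexOn ℝ (Icc 0 1) F → F 0 = 0 →
      MonotoneOn (fun g => F g / g) (Ioc 0 1) := by
    intro F hF hF0 x hx y hy hxy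
    have h := hF.secant_mono (a := 0) (x := x) (y := y) ⟨le_rfl, zero_le_one⟩
      ⟨hx.1.le, hx.2⟩ ⟨hy.1.le, hy.2⟩ hx.1.ne' hy.1.ne' hxy
    simpa [hF0] using h
  have hqm := hmono K hK hKz
  have hrm := hmono φ hφ hφz
  have hq0 : ∀ g ∈ Ioc (0 : ℝ) 1, 0 ≤ K g / g := fun g hg =>
    div_nonneg (hK0 g ⟨hg.1.le, hg.2⟩) hg.1.le
  have hr0 : ∀ g ∈ Ioc (0 : ℝ) 1, 0 ≤ φ g / g := fun g hg =>
    div_nonneg (hφ0 g ⟨hg.1.le, hg.2⟩) hg.1.le
  have bq := bm_of_mono m hqm hq0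
  have br := bm_of_mono m hrm hr0
  have c1 := cheb hm (bm_pow m 2) bq br (fun g hg => pow_nonneg hg.1.le 2) hqm hrm
  have hidm : MonotoneOn (fun g : ℝ => g ^ 1) (Ioc 0 1) := by
    intro x _ y _ hxy
    simpa using hxy
  have c2 := cheb hm (bm_pow m 1) (bm_pow m 1) bq (fun g hg => pow_nonneg hg.1.le 1) hidm hqm
  have c3 := cheb hm (bm_pow m 1) (bm_pow m 1) br (fun g hg => pow_nonneg hg.1.le 1) hidm hrm
  have f1 : ∫ g, g ^ 2 * (K g / g * (φ g / g)) ∂bet m = ∫ g, K g * φ g ∂bet m := by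
    refine integral_congr_ae ?_
    filter_upwards [bet_ae_mem m] with g hg
    have := hg.1.ne'
    field_simp
  have f2 : ∫ g, g ^ 1 * (K g / g) ∂bet m = ∫ g, K g ∂bet m := by
    refine integral_congr_ae ?_
    filter_upwards [bet_ae_mem m] with g hg
    have := hg.1.ne'
    field_simp
  have f3 : ∫ g, g ^ 1 * (φ g / g) ∂bet m = ∫ g, φ g ∂bet m := by
    refine integral_congr_ae ?_
    filter_upwards [bet_ae_mem m] with g hg
    have := hg.1.ne'
    field_simp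
  have f4 : ∫ g, g ^ 1 * (g ^ 1 * (K g / g)) ∂bet m = ∫ g, g ^ 2 * (K g / g) ∂bet m := by
    refine integral_congr_ae ?_
    filter_upwards with g
    ring
  have f5 : ∫ g, g ^ 1 * (g ^ 1 * (φ g / g)) ∂bet m = ∫ g, g ^ 2 * (φ g / g) ∂bet m := by
    refine integral_congr_ae ?_
    filter_upwards with g
    ring
  have f6 : ∫ g, (g : ℝ) ^ 1 * g ^ 1 ∂bet m = ∫ g, g ^ 2 ∂bet m := by
    refine integral_congr_ae ?_
    filter_upwards with g
    ring
  rw [f1, moment m hm 2] at c1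
  rw [f2, f4, f6, moment m hm 1, moment m hm 2] at c2
  rw [f3, f5, f6, moment m hm 1, moment m hm 2] at c3
  obtain ⟨A, hA⟩ : ∃ A, A = ∫ g, K g ∂bet m := ⟨_, rfl⟩
  obtain ⟨B, hB⟩ : ∃ B, B = ∫ g, φ g ∂bet m := ⟨_, rfl⟩
  obtain ⟨A2, hA2⟩ : ∃ A2, A2 = ∫ g, g ^ 2 * (K g / g) ∂bet m := ⟨_, rfl⟩
  obtain ⟨B2, hB2⟩ : ∃ B2, B2 = ∫ g, g ^ 2 * (φ g / g) ∂bet m := ⟨_, rfl⟩
  obtain ⟨Z, hZ⟩ : ∃ Z, Z = ∫ g, K g * φ g ∂bet m := ⟨_, rfl⟩
  rw [← hA2, ← hB2, ← hZ] at c1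
  rw [← hA, ← hA2] at c2
  rw [← hB, ← hB2] at c3
  rw [← hA, ← hB, ← hZ]
  have hA0 : 0 ≤ A := by
    rw [hA]
    refine integral_nonneg_of_ae ?_
    filter_upwards [bet_ae_mem m] with g hg
    exact hK0 g ⟨hg.1.le, hg.2⟩
  have hB0 : 0 ≤ B := by
    rw [hB]
    refine integral_nonneg_of_ae ?_
    filter_upwards [bet_ae_mem m] with g hg
    exact hφ0 g ⟨hg.1.le, hg.2⟩
  push_cast at c1 c2 c3
  have d2 : (m + 1) / (m + 2) * A ≤ A2 := by
    have h1 : (m : ℝ) / (m + 2) * A * ((m + 1) / m) ≤ (m : ℝ) / (m + 1) * A2 * ((m + 1) / m) := by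
      gcongr
    have h2 : (m : ℝ) / (m + 2) * A * ((m + 1) / m) = (m + 1) / (m + 2) * A := by
      field_simp
    have h3 : (m : ℝ) / (m + 1) * A2 * ((m + 1) / m) = A2 := by
      field_simp
    rw [h2, h3] at h1
    exact h1
  have d3 : (m + 1) / (m + 2) * B ≤ B2 := by
    have h1 : (m : ℝ) / (m + 2) * B * ((m + 1) / m) ≤ (m : ℝ) / (m + 1) * B2 * ((m + 1) / m) := by
      gcongr
    have h2 : (m : ℝ) / (m + 2) * B * ((m + 1) / m) = (m + 1) / (m + 2) * B := by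
      field_simp
    have h3 : (m : ℝ) / (m + 1) * B2 * ((m + 1) / m) = B2 := by
      field_simp
    rw [h2, h3] at h1
    exact h1
  have d1 : ((m + 1) / (m + 2) * A) * ((m + 1) / (m + 2) * B) ≤ (m : ℝ) / (m + 2) * Z :=
    (mul_le_mul d2 d3 (by positivity) ((by positivity : (0:ℝ) ≤ (m + 1) / (m + 2) * A).trans d2)).trans c1
  have h1 : ((m + 1) / (m + 2) * A) * ((m + 1) / (m + 2) * B) * (((m : ℝ) + 2) / m) ≤
      (m : ℝ) / (m + 2) * Z * ((m + 2) / m) := by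
    gcongr
  have h2 : (m : ℝ) / (m + 2) * Z * ((m + 2) / m) = Z := by field_simp
  have h3 : ((m + 1) / (m + 2) * A) * ((m + 1) / (m + 2) * B) * (((m : ℝ) + 2) / m) =
      (1 + 1 / ((m : ℝ) * (m + 2))) * (A * B) := by
    field_simp
    ring
  rw [h2, h3] at h1
  exact h1

theorem oneD (m : ℕ) (hm : 0 < m) (K φ : ℝ → ℝ) (hK : ConvexOn ℝ (Icc 0 1) K)
    (hφ : ConvexOn ℝ (Icc 0 1) φ) (hK0 : ∀ g ∈ Icc (0 : ℝ) 1, K 0 ≤ K g)
    (hφ0 : ∀ g ∈ Icc (0 : ℝ) 1, φ 0 ≤ φ g) :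
    (∫ g, K g ∂bet m) * (∫ g, φ g ∂bet m) +
      (1 / ((m : ℝ) * (m + 2))) * ((∫ g, K g ∂bet m) - K 0) * ((∫ g, φ g ∂bet m) - φ 0) ≤
      ∫ g, K g * φ g ∂bet m := by
  have := instProbBet m hm
  have hK' : ConvexOn ℝ (Icc 0 1) (fun g => K g - K 0) := by
    exact (hK.add_const (-K 0)).congr fun g _ => by simp [sub_eq_add_neg]
  have hφ' : ConvexOn ℝ (Icc 0 1) (fun g => φ g - φ 0) := by
    exact (hφ.add_const (-φ 0)).congr fun g _ => by simp [sub_eq_add_neg]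
  have haux := oneD_aux m hm (fun g => K g - K 0) (fun g => φ g - φ 0) hK' hφ'
    (fun g hg => by linarith [hK0 g hg]) (fun g hg => by linarith [hφ0 g hg])
    (by simp) (by simp)
  have hbm : ∀ F : ℝ → ℝ, ConvexOn ℝ (Icc 0 1) F → (∀ g ∈ Icc (0 : ℝ) 1, F 0 ≤ F g) →
      BM m (fun g => F g - F 0) := by
    intro F hF hF0
    have hm1 : MonotoneOn (fun g => F g - F 0) (Ioc 0 1) := by
      intro x hx y hy hxy
      simp only
      have h := hF.secant_mono (a := 0) (x := x) (y := y) ⟨le_rfl, zero_le_one⟩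
        ⟨hx.1.le, hx.2⟩ ⟨hy.1.le, hy.2⟩ hx.1.ne' hy.1.ne' hxy
      simp only [sub_zero] at h
      have h1 : F x - F 0 = x * ((F x - F 0) / x) := by
        have := hx.1.ne'; field_simp
      have h2 : F y - F 0 = y * ((F y - F 0) / y) := by
        have := hy.1.ne'; field_simp
      rw [h1, h2]
      have h3 : 0 ≤ (F y - F 0) / y :=
        div_nonneg (by linarith [hF0 y ⟨hy.1.le, hy.2⟩]) hy.1.le
      exact mul_le_mul hxy h (div_nonneg (by linarith [hF0 x ⟨hx.1.le, hx.2⟩]) hx.1.le) hy.1.le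
    exact bm_of_mono m hm1 fun g hg => by linarith [hF0 g ⟨hg.1.le, hg.2⟩]
  have bK := hbm K hK hK0
  have bφ := hbm φ hφ hφ0
  have iK := bK.integrable hm
  have iφ := bφ.integrable hm
  have iKφ := (bK.mul bφ).integrable hm
  have iK' : Integrable K (bet m) := by
    have := iK.add (integrable_const (K 0))
    refine this.congr (Filter.Eventually.of_forall fun g => ?_)
    simp
  have iφ' : Integrable φ (bet m) := by
    have := iφ.add (integrable_const (φ 0))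
    refine this.congr (Filter.Eventually.of_forall fun g => ?_)
    simp
  have e1 : ∫ g, (K g - K 0) ∂bet m = (∫ g, K g ∂bet m) - K 0 := by
    rw [integral_sub iK' (integrable_const _)]
    simp
  have e2 : ∫ g, (φ g - φ 0) ∂bet m = (∫ g, φ g ∂bet m) - φ 0 := by
    rw [integral_sub iφ' (integrable_const _)]
    simp
  have e3 : ∫ g, K g * φ g ∂bet m = (∫ g, (K g - K 0) * (φ g - φ 0) ∂bet m) +
      φ 0 * (∫ g, (K g - K 0) ∂bet m) + K 0 * (∫ g, φ g ∂bet m) := by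
    have j1 : Integrable (fun g => φ 0 * (K g - K 0)) (bet m) := iK.const_mul _
    have j2 : Integrable (fun g => (K g - K 0) * (φ g - φ 0) + φ 0 * (K g - K 0)) (bet m) :=
      iKφ.add j1
    have j3 : Integrable (fun g => K 0 * φ g) (bet m) := iφ'.const_mul _
    rw [← integral_const_mul, ← integral_const_mul, ← integral_add iKφ j1,
      ← integral_add j2 j3]
    refine integral_congr_ae (Filter.Eventually.of_forall fun g => ?_)
    simp only
    ring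
  rw [e1, e2] at haux
  rw [e3, e1]
  nlinarith [haux]

end Pool.Agent.Lib.MP_29b1bb_gt
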