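import Pool.Agent.Lib.MP_29b1bb_gt.Basic

/-!
# LM-Mem: loss of memory

`gam_mem`: if `X` has law `gam (N+1)`, then (almost surely) there is exactly one index `i` where
`X` is minimal (each with probability `1/(N+1)`), `(N+1) * min X` is exponential, and the other
coordinates minus the minimum are independent exponential.

Proof. For a measurable set `A` (or a measurable `ψ ≥ 0`): the sets
`R i = {x | ∀ k ≠ i, x i < x k}` are disjoint and cover everything up to ties, which are null
(`gam` is absolutely continuous; or: `{x | x i = x k}` is null since `expo` has no atoms, use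
`measurePreserving_piFinSuccAbove` / Fubini). For fixed `i` use
`(MeasureTheory.measurePreserving_piFinSuccAbove (fun _ => expo) i)`: `gam (N+1)` is the image of
`expo.prod (gam N)` under `(s, z) ↦ i.insertNth s z`. So
`gam (N+1) (A ∩ R i) = ∫⁻ s, gam N {z | (∀ k, s < z k) ∧ i.insertNth s z ∈ A} ∂expo`.
Memoryless property: for `s ≥ 0`, `expo.restrict (Ioi s) = ofReal (exp (-s)) • expo.map (· + s)`
(`expo_restrict_Ioi`, proved by comparing `withDensity`), hence
`(gam N).restrict (pi univ (fun _ => Ioi s)) = ofReal (exp (-(N * s))) • (gam N).map (fun y k => y k + s)`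
(`Measure.restrict_pi_pi`, `Measure.pi_map_pi` or a π-system argument `Measure.pi_eq` on boxes).
Therefore the integrand is `ofReal (exp (-(N s))) * gam N {y | (fun _ => s) + emb i y ∈ A}`
(note `i.insertNth s (fun k => y k + s) = (fun _ => s) + emb i y`), and
`∫⁻ s, ofReal (exp (-(N s))) * g s ∂expo = ∫⁻ s in Ioi 0, ofReal (exp (-((N+1) s))) * g s
 = ofReal (1/(N+1)) * ∫⁻ t, g (t/(N+1)) ∂expo` (substitution `t = (N+1) s`, e.g.
`lintegral_comp_mul_left_Ioi`-type lemma or `Measure.map_div..`, or
`Real.volume_preserving...`/`Real.map_volume_mul_left`).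
-/

set_option autoImplicit false

open MeasureTheory Set

namespace Pool.Agent.Lib.MP_29b1bb_gt

private theorem Mem_lintegral_expo (g : ℝ → ENNReal) :
    ∫⁻ x, g x ∂expo = ∫⁻ x, (Ioi (0 : ℝ)).indicator (fun x => ENNReal.ofReal (Real.exp (-x)) * g x) x := by
  unfold expo
  rw [lintegral_withDensity_eq_lintegral_mul_non_measurable, lintegral_indicator measurableSet_Ioi]
  · rfl
  · fun_prop
  · exact Filter.Eventually.of_forall fun x => ENNReal.ofReal_lt_top

private theorem Mem_expo_apply (B : Set ℝ) (hB : MeasurableSet B) :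
    expo B = ∫⁻ x, (B ∩ Ioi (0 : ℝ)).indicator (fun x => ENNReal.ofReal (Real.exp (-x))) x := by
  unfold expo
  rw [withDensity_apply _ hB, Measure.restrict_restrict hB,
    lintegral_indicator (hB.inter measurableSet_Ioi)]

private instance Mem_noAtoms : NullSingletonClass expo := by
  constructor
  intro x
  have h1 : (volume.restrict (Ioi (0 : ℝ))) {x} = 0 := by
    refine le_antisymm ?_ zero_le
    exact (Measure.restrict_apply_le _ _).trans (by simp)
  exact (withDensity_absolutelyContinuous (volume.restrict (Ioi (0 : ℝ)))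
    (fun x => ENNReal.ofReal (Real.exp (-x)))) h1

private theorem Mem_expo_restrict (s : ℝ) (hs : 0 ≤ s) (A : Set ℝ) (hA : MeasurableSet A) :
    expo (A ∩ Ioi s) = ENNReal.ofReal (Real.exp (-s)) * expo ((fun x => x + s) ⁻¹' A) := by
  have hm : Measurable fun x : ℝ => x + s := measurable_id.add_const s
  rw [Mem_expo_apply _ (hA.inter measurableSet_Ioi), Mem_expo_apply _ (hm hA),
    ← lintegral_const_mul' _ _ ENNReal.ofReal_ne_top]
  rw [← lintegral_add_right_eq_self
    (fun x => (A ∩ Ioi s ∩ Ioi (0 : ℝ)).indicator (fun x => ENNReal.ofReal (Real.exp (-x))) x) s]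
  refine lintegral_congr fun x => ?_
  by_cases hx : x ∈ (fun x => x + s) ⁻¹' A ∩ Ioi (0 : ℝ)
  · have hx1 : x + s ∈ A := hx.1
    have hx2 : 0 < x := hx.2
    rw [indicator_of_mem hx, indicator_of_mem]
    · rw [← ENNReal.ofReal_mul (Real.exp_pos _).le, ← Real.exp_add]
      congr 2
      ring
    · refine ⟨⟨hx1, ?_⟩, ?_⟩
      · exact lt_add_of_pos_left s hx2
      · exact add_pos_of_pos_of_nonneg hx2 hs
  · rw [indicator_of_notMem hx, indicator_of_notMem, mul_zero]
    rintro ⟨⟨h1, h2⟩, _⟩
    refine hx ⟨h1, ?_⟩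
    have h3 : s < x + s := h2
    exact pos_of_lt_add_left h3

private theorem Mem_gam_restrict (N : ℕ) (s : ℝ) (hs : 0 ≤ s) :
    (gam N).restrict (Set.univ.pi fun _ => Ioi s) =
      ENNReal.ofReal (Real.exp (-(N * s))) • (gam N).map (fun (y : Fin N → ℝ) k => y k + s) := by
  have hm : Measurable fun (y : Fin N → ℝ) (k : Fin N) => y k + s :=
    measurable_pi_lambda _ fun k => Measurable.add_const (f := fun y : Fin N → ℝ => y k)
      (measurable_pi_apply k) s
  unfold gam
  rw [Measure.restrict_pi_pi]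
  refine Measure.pi_eq fun t ht => ?_
  rw [Measure.smul_apply, Measure.map_apply hm (MeasurableSet.univ_pi ht)]
  have h1 : (fun (y : Fin N → ℝ) (k : Fin N) => y k + s) ⁻¹' (Set.univ.pi t) =
      Set.univ.pi fun k => (fun x => x + s) ⁻¹' (t k) := by
    ext y
    simp only [mem_preimage, mem_pi, mem_univ, true_implies]
  rw [h1, Measure.pi_pi]
  have h2 : ∀ k : Fin N, (expo.restrict (Ioi s)) (t k) =
      ENNReal.ofReal (Real.exp (-s)) * expo ((fun x => x + s) ⁻¹' (t k)) := by
    intro k
    rw [Measure.restrict_apply (ht k), Mem_expo_restrict s hs _ (ht k)]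
  rw [Finset.prod_congr rfl (fun k _ => h2 k), Finset.prod_mul_distrib, Finset.prod_const,
    Finset.card_univ, Fintype.card_fin, smul_eq_mul]
  congr 1
  rw [← ENNReal.ofReal_pow (Real.exp_pos _).le, ← Real.exp_nat_mul]
  congr 2
  ring

private theorem Mem_tie {N : ℕ} (i : Fin (N + 1)) (j : Fin N) :
    gam (N + 1) {x | x i = x (i.succAbove j)} = 0 := by
  have hmp := measurePreserving_piFinSuccAbove (fun _ : Fin (N + 1) => expo) i
  have hS : MeasurableSet {q : ℝ × (Fin N → ℝ) | q.1 = q.2 j} :=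
    measurableSet_eq_fun measurable_fst ((measurable_pi_apply j).comp measurable_snd)
  have h1 : {x : Fin (N + 1) → ℝ | x i = x (i.succAbove j)} =
      (MeasurableEquiv.piFinSuccAbove (fun _ => ℝ) i) ⁻¹' {q : ℝ × (Fin N → ℝ) | q.1 = q.2 j} := by
    ext x
    rfl
  rw [h1]
  unfold gam
  rw [hmp.measure_preimage hS.nullMeasurableSet, Measure.measure_prod_null hS]
  refine Filter.Eventually.of_forall fun s => ?_
  change (Measure.pi fun _ : Fin N => expo) (Prod.mk s ⁻¹' {q : ℝ × (Fin N → ℝ) | q.1 = q.2 j}) = 0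
  have h2 : Prod.mk s ⁻¹' {q : ℝ × (Fin N → ℝ) | q.1 = q.2 j} = {f | f j = s} := by
    ext f
    exact eq_comm
  rw [h2]
  exact Measure.pi_hyperplane (fun _ : Fin N => expo) j s

private theorem Mem_insert {N : ℕ} (i : Fin (N + 1)) (s : ℝ) (y : Fin N → ℝ) :
    (i.insertNth s (fun k => y k + s) : Fin (N + 1) → ℝ) = (fun _ => s) + emb i y := by
  funext k
  refine Fin.succAboveCases i ?_ (fun j => ?_) k
  · rw [Pi.add_apply, emb_apply_same]
    simp
  · rw [Pi.add_apply, emb_apply_succAbove]
    simp [add_comm]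

private theorem Mem_subst (N : ℕ) (g : ℝ → ENNReal) (hg : Measurable g) :
    ∫⁻ s, ENNReal.ofReal (Real.exp (-(N * s))) * g s ∂expo =
      ENNReal.ofReal (1 / ((N : ℝ) + 1)) * ∫⁻ t, g (t / ((N : ℝ) + 1)) ∂expo := by
  have ha : (0 : ℝ) < (N : ℝ) + 1 := by positivity
  rw [Mem_lintegral_expo, Mem_lintegral_expo]
  have hF : Measurable fun t : ℝ => (Ioi (0 : ℝ)).indicator
      (fun x => ENNReal.ofReal (Real.exp (-x)) * g (x / ((N : ℝ) + 1))) t := by
    refine Measurable.indicator ?_ measurableSet_Ioi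
    exact (by fun_prop : Measurable fun x : ℝ => ENNReal.ofReal (Real.exp (-x))).mul
      (hg.comp (measurable_id.div_const _))
  have hmap := Real.map_volume_mul_left ha.ne'
  have h1 : ∫⁻ t, (Ioi (0 : ℝ)).indicator
      (fun x => ENNReal.ofReal (Real.exp (-x)) * g (x / ((N : ℝ) + 1))) t
        ∂(Measure.map (((N : ℝ) + 1) * ·) volume) =
      ∫⁻ s, (Ioi (0 : ℝ)).indicator
        (fun x => ENNReal.ofReal (Real.exp (-x)) * g (x / ((N : ℝ) + 1))) (((N : ℝ) + 1) * s) :=
    lintegral_map hF (measurable_const_mul _)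
  rw [hmap, lintegral_smul_measure] at h1
  rw [show (1 / ((N : ℝ) + 1)) = |((N : ℝ) + 1)⁻¹| by
    rw [abs_of_pos (by positivity), one_div]]
  rw [← smul_eq_mul, h1]
  refine lintegral_congr fun s => ?_
  by_cases hs : s ∈ Ioi (0 : ℝ)
  · have hs' : ((N : ℝ) + 1) * s ∈ Ioi (0 : ℝ) := mul_pos ha hs
    rw [indicator_of_mem hs, indicator_of_mem hs', mul_div_cancel_left₀ _ ha.ne', ← mul_assoc,
      ← ENNReal.ofReal_mul (Real.exp_pos _).le, ← Real.exp_add]
    congr 3
    ring
  · have hs' : ((N : ℝ) + 1) * s ∉ Ioi (0 : ℝ) := by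
      intro h
      exact hs ((mul_pos_iff_of_pos_left ha).mp h)
    rw [indicator_of_notMem hs, indicator_of_notMem hs']

private theorem Mem_region {N : ℕ} (i : Fin (N + 1)) (A : Set (Fin (N + 1) → ℝ))
    (hA : MeasurableSet A) :
    gam (N + 1) (A ∩ {x | ∀ j : Fin N, x i < x (i.succAbove j)}) =
      ENNReal.ofReal (1 / ((N : ℝ) + 1)) * ((expo.prod (gam N)).map
        (fun q : ℝ × (Fin N → ℝ) => (fun _ => q.1 / ((N : ℝ) + 1)) + emb i q.2)) A := by
  have hR : MeasurableSet {x : Fin (N + 1) → ℝ | ∀ j : Fin N, x i < x (i.succAbove j)} := by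
    have : {x : Fin (N + 1) → ℝ | ∀ j : Fin N, x i < x (i.succAbove j)} =
        ⋂ j : Fin N, {x | x i < x (i.succAbove j)} := by
      ext x
      simp only [mem_ofPred_eq, mem_iInter]
    rw [this]
    exact MeasurableSet.iInter fun j =>
      measurableSet_lt (measurable_pi_apply _) (measurable_pi_apply _)
  have hmap : Measurable (fun q : ℝ × (Fin N → ℝ) =>
      ((fun _ => q.1 / ((N : ℝ) + 1)) + emb i q.2 : Fin (N + 1) → ℝ)) := by
    refine Measurable.add ?_ ((measurable_emb i).comp measurable_snd)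
    exact measurable_pi_lambda _ fun _ => measurable_fst.div_const _
  have hmap1 : Measurable (fun q : ℝ × (Fin N → ℝ) =>
      ((fun _ => q.1) + emb i q.2 : Fin (N + 1) → ℝ)) := by
    refine Measurable.add ?_ ((measurable_emb i).comp measurable_snd)
    exact measurable_pi_lambda _ fun _ => measurable_fst
  have hmp := (measurePreserving_piFinSuccAbove (fun _ : Fin (N + 1) => expo) i).symm
  set g : ℝ → ENNReal := fun s => gam N {y | ((fun _ => s) + emb i y : Fin (N + 1) → ℝ) ∈ A}
    with hg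
  have hgm : Measurable g := by
    have h := measurable_measure_prodMk_left (ν := gam N) (hmap1 hA)
    exact h
  have hleft : gam (N + 1) (A ∩ {x | ∀ j : Fin N, x i < x (i.succAbove j)}) =
      ∫⁻ s, ENNReal.ofReal (Real.exp (-(N * s))) * g s ∂expo := by
    have h1 : gam (N + 1) (A ∩ {x | ∀ j : Fin N, x i < x (i.succAbove j)}) =
        (expo.prod (gam N)) ((MeasurableEquiv.piFinSuccAbove (fun _ => ℝ) i).symm ⁻¹'
          (A ∩ {x | ∀ j : Fin N, x i < x (i.succAbove j)})) := by
      have h2 := hmp.measure_preimage (hA.inter hR).nullMeasurableSet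
      unfold gam
      rw [← h2]
    rw [h1, Measure.prod_apply ((MeasurableEquiv.measurable _) (hA.inter hR))]
    refine lintegral_congr_ae ?_
    filter_upwards [expo_ae_pos] with s hs
    have h3 : Prod.mk s ⁻¹' ((MeasurableEquiv.piFinSuccAbove (fun _ => ℝ) i).symm ⁻¹'
          (A ∩ {x | ∀ j : Fin N, x i < x (i.succAbove j)})) =
        {z : Fin N → ℝ | (i.insertNth s z : Fin (N + 1) → ℝ) ∈ A} ∩
          (Set.univ.pi fun _ => Ioi s) := by
      ext z
      have h4 : (MeasurableEquiv.piFinSuccAbove (fun _ : Fin (N + 1) => ℝ) i).symm (s, z) =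
          i.insertNth s z := rfl
      simp only [mem_preimage, mem_inter_iff, mem_ofPred_eq, mem_pi, mem_univ, true_implies,
        mem_Ioi, h4, Fin.insertNth_apply_same, Fin.insertNth_apply_succAbove]
    have hins : Measurable fun z : Fin N → ℝ => (i.insertNth s z : Fin (N + 1) → ℝ) := by
      have h5 : (fun z : Fin N → ℝ => (i.insertNth s z : Fin (N + 1) → ℝ)) =
          fun z => (MeasurableEquiv.piFinSuccAbove (fun _ : Fin (N + 1) => ℝ) i).symm (s, z) := rfl
      rw [h5]
      exact (MeasurableEquiv.measurable _).comp measurable_prodMk_left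
    have hpre : MeasurableSet {z : Fin N → ℝ | (i.insertNth s z : Fin (N + 1) → ℝ) ∈ A} := hins hA
    rw [h3, ← Measure.restrict_apply hpre, Mem_gam_restrict N s hs.le, Measure.smul_apply,
      smul_eq_mul]
    congr 1
    have hm : Measurable fun (y : Fin N → ℝ) (k : Fin N) => y k + s :=
      measurable_pi_lambda _ fun k => Measurable.add_const (f := fun y : Fin N → ℝ => y k)
      (measurable_pi_apply k) s
    rw [Measure.map_apply hm hpre, hg]
    congr 1
    ext y
    simp only [mem_preimage, mem_ofPred_eq, Mem_insert]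
  have hright : ((expo.prod (gam N)).map
        (fun q : ℝ × (Fin N → ℝ) => (fun _ => q.1 / ((N : ℝ) + 1)) + emb i q.2)) A =
      ∫⁻ t, g (t / ((N : ℝ) + 1)) ∂expo := by
    rw [Measure.map_apply hmap hA, Measure.prod_apply (hmap hA)]
    rfl
  rw [hleft, hright, Mem_subst N g hgm]

theorem gam_mem (N : ℕ) :
    gam (N + 1) = ENNReal.ofReal (1 / ((N : ℝ) + 1)) •
      ∑ i : Fin (N + 1), (expo.prod (gam N)).map
        (fun q : ℝ × (Fin N → ℝ) => (fun _ => q.1 / ((N : ℝ) + 1)) + emb i q.2) := by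
  ext A hA
  rw [Measure.smul_apply, Measure.finsetSum_apply, smul_eq_mul, Finset.mul_sum]
  rw [Finset.sum_congr rfl (fun i _ => (Mem_region i A hA).symm)]
  set R : Fin (N + 1) → Set (Fin (N + 1) → ℝ) :=
    fun i => {x | ∀ j : Fin N, x i < x (i.succAbove j)} with hRdef
  have hR : ∀ i, MeasurableSet (R i) := by
    intro i
    have : R i = ⋂ j : Fin N, {x | x i < x (i.succAbove j)} := by
      ext x
      simp only [hRdef, mem_ofPred_eq, mem_iInter]
    rw [this]
    exact MeasurableSet.iInter fun j =>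
      measurableSet_lt (measurable_pi_apply _) (measurable_pi_apply _)
  have hlt : ∀ i k : Fin (N + 1), ∀ x ∈ R i, k ≠ i → x i < x k := by
    intro i k x hx hk
    obtain ⟨j, rfl⟩ := Fin.exists_succAbove_eq hk
    exact hx j
  have hdisj : Pairwise (Function.onFun Disjoint fun i => A ∩ R i) := by
    intro i k hik
    rw [Function.onFun, Set.disjoint_left]
    rintro x ⟨_, h1⟩ ⟨_, h2⟩
    exact absurd (hlt i k x h1 hik.symm) (not_lt.mpr (hlt k i x h2 hik).le)
  have hsum : gam (N + 1) (⋃ i, A ∩ R i) = ∑ i, gam (N + 1) (A ∩ R i) := by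
    rw [measure_iUnion hdisj (fun i => hA.inter (hR i)), tsum_fintype]
  rw [← hsum]
  refine measure_congr ?_
  have hties : ∀ᵐ x ∂(gam (N + 1)), ∀ (i : Fin (N + 1)) (j : Fin N), x i ≠ x (i.succAbove j) := by
    rw [ae_all_iff]
    intro i
    rw [ae_all_iff]
    intro j
    rw [ae_iff]
    simp only [ne_eq, not_not]
    exact Mem_tie i j
  filter_upwards [hties] with x hx
  apply propext
  change x ∈ A ↔ x ∈ ⋃ i, A ∩ R i
  constructor
  · intro hxA
    obtain ⟨i, _, hi⟩ := Finset.exists_min_image (Finset.univ : Finset (Fin (N + 1))) x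
      ⟨0, Finset.mem_univ _⟩
    refine mem_iUnion.mpr ⟨i, hxA, fun j => ?_⟩
    exact lt_of_le_of_ne (hi _ (Finset.mem_univ _)) (hx i j)
  · intro h
    obtain ⟨i, hi⟩ := mem_iUnion.mp h
    exact hi.1

end Pool.Agent.Lib.MP_29b1bb_gt
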