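import Pool.Agent.Lib.MP_29b1bb_gt.Gam
import Pool.Agent.Lib.MP_29b1bb_gt.Mem

/-!
# LM-SigC: the uniform law on a simplex, cones over the facets with apex the barycentre

`sig_cone`: map `gam_mem` by `nrm (N+1)`; for `s > 0`, `Y > 0`:
`nrm (N+1) ((fun _ => s/(N+1)) + emb i Y) = (1 - g) • bar (N+1) + g • emb i (nrm N Y)`,
`g = |Y| / (s + |Y|)` (the sum of the coordinates of the left vector is `s + |Y|`, `sum_emb`).
Then `law_pair`.
`integral_cone`: `integral_map`, `integral_smul_measure`, `integral_finsetSum_measure`,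
`integral_prod`; everything is bounded almost everywhere (`comb_mem`, `bar_mem`, `emb_mem`).
-/

set_option autoImplicit false

open MeasureTheory Set

namespace Pool.Agent.Lib.MP_29b1bb_gt

theorem measurable_cone_bar (N : ℕ) (i : Fin (N + 1)) :
    Measurable (fun q : ℝ × (Fin N → ℝ) => (1 - q.1) • bar (N + 1) + q.1 • emb i q.2) := by
  have h : Continuous (fun q : ℝ × (Fin N → ℝ) =>
      (1 - q.1) • bar (N + 1) + q.1 • emb i q.2) := by
    have h1 : Continuous (fun q : ℝ × (Fin N → ℝ) => emb i q.2) :=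
      (continuous_emb i).comp continuous_snd
    fun_prop
  exact h.measurable

theorem measurable_shift_emb (N : ℕ) (i : Fin (N + 1)) :
    Measurable (fun q : ℝ × (Fin N → ℝ) =>
      (fun _ : Fin (N + 1) => q.1 / ((N : ℝ) + 1)) + emb i q.2) := by
  have h1 : Measurable (fun q : ℝ × (Fin N → ℝ) => emb i q.2) :=
    (measurable_emb i).comp measurable_snd
  refine Measurable.add ?_ h1
  refine measurable_pi_lambda _ fun _ => ?_
  exact measurable_fst.div_const _

theorem measurable_pair_map (N : ℕ) : Measurable (fun q : ℝ × (Fin N → ℝ) =>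
      ((∑ k, q.2 k) / (q.1 + ∑ k, q.2 k), nrm N q.2)) := by
  have h0 : Measurable (fun q : ℝ × (Fin N → ℝ) => ∑ k, q.2 k) :=
    Finset.measurable_sum _ fun k _ => (measurable_pi_apply k).comp measurable_snd
  exact (h0.div (measurable_fst.add h0)).prodMk ((measurable_nrm N).comp measurable_snd)

theorem expo_gam_ae_pos (N : ℕ) :
    ∀ᵐ q ∂(expo.prod (gam N)), 0 < q.1 ∧ ∀ i, 0 < q.2 i := by
  have h1 : ∀ᵐ q ∂(expo.prod (gam N)), 0 < q.1 :=
    Measure.quasiMeasurePreserving_fst.ae expo_ae_pos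
  have h2 : ∀ᵐ q ∂(expo.prod (gam N)), ∀ i, 0 < q.2 i :=
    Measure.quasiMeasurePreserving_snd.ae (gam_ae_pos N)
  filter_upwards [h1, h2] with q a b using ⟨a, b⟩

theorem sig_cone (N : ℕ) (hN : 0 < N) :
    sig (N + 1) = ENNReal.ofReal (1 / ((N : ℝ) + 1)) •
      ∑ i : Fin (N + 1), ((bet N).prod (sig N)).map (fun q : ℝ × (Fin N → ℝ) =>
        (1 - q.1) • bar (N + 1) + q.1 • emb i q.2) := by
  have hne : Nonempty (Fin N) := ⟨⟨0, hN⟩⟩
  have key : ∀ i : Fin (N + 1), ((expo.prod (gam N)).map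
        (fun q : ℝ × (Fin N → ℝ) => (fun _ => q.1 / ((N : ℝ) + 1)) + emb i q.2)).map (nrm (N + 1)) =
      ((bet N).prod (sig N)).map (fun q : ℝ × (Fin N → ℝ) =>
        (1 - q.1) • bar (N + 1) + q.1 • emb i q.2) := by
    intro i
    rw [Measure.map_map (measurable_nrm _) (measurable_shift_emb N i), ← law_pair N hN,
      Measure.map_map (measurable_cone_bar N i) (measurable_pair_map N)]
    refine Measure.map_congr ?_
    filter_upwards [expo_gam_ae_pos N] with q hq
    obtain ⟨hs, hY⟩ := hq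
    have hS : 0 < ∑ k, q.2 k := Finset.sum_pos (fun i _ => hY i) Finset.univ_nonempty
    have hN1 : ((N : ℝ) + 1) ≠ 0 := by positivity
    have hsum : ∑ k : Fin (N + 1), (((fun _ : Fin (N + 1) => q.1 / ((N : ℝ) + 1)) : Fin (N + 1) → ℝ)
        + emb i q.2) k = q.1 + ∑ k, q.2 k := by
      simp only [Pi.add_apply]
      rw [Finset.sum_add_distrib, sum_emb]
      simp only [Finset.sum_const, Finset.card_univ, Fintype.card_fin, nsmul_eq_mul]
      push_cast
      field_simp
    have hT : 0 < q.1 + ∑ k, q.2 k := by linarith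
    funext k
    simp only [Function.comp_apply, nrm]
    rw [hsum]
    simp only [Pi.add_apply, Pi.smul_apply, smul_eq_mul, bar]
    push_cast
    refine Fin.succAboveCases i ?_ (fun j => ?_) k
    · simp only [emb_apply_same]
      field_simp
      ring
    · simp only [emb_apply_succAbove, nrm]
      field_simp
      ring
  have h : sig (N + 1) = (gam (N + 1)).map (nrm (N + 1)) := rfl
  rw [h, gam_mem N, Measure.map_smul]
  congr 1
  ext B hB
  rw [Measure.map_apply (measurable_nrm _) hB, Measure.finsetSum_apply, Measure.finsetSum_apply]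
  refine Finset.sum_congr rfl fun i _ => ?_
  rw [← key i, Measure.map_apply (measurable_nrm _) hB]

theorem integral_cone (N : ℕ) (hN : 0 < N) (φ : (Fin (N + 1) → ℝ) → ℝ)
    (hφ : Measurable φ) (M : ℝ) (hM : ∀ x ∈ stdSimplex ℝ (Fin (N + 1)), |φ x| ≤ M) :
    ∫ x, φ x ∂sig (N + 1) = (1 / ((N : ℝ) + 1)) *
      ∑ i : Fin (N + 1), ∫ g, ∫ y, φ ((1 - g) • bar (N + 1) + g • emb i y) ∂sig N ∂bet N := by
  have := instProbBet N hN
  have hmem : ∀ i : Fin (N + 1), ∀ᵐ q ∂((bet N).prod (sig N)),
      (1 - q.1) • bar (N + 1) + q.1 • emb i q.2 ∈ stdSimplex ℝ (Fin (N + 1)) := by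
    intro i
    have h1 : ∀ᵐ q ∂((bet N).prod (sig N)), q.1 ∈ Ioc (0 : ℝ) 1 :=
      Measure.quasiMeasurePreserving_fst.ae (bet_ae_mem N)
    have h2 : ∀ᵐ q ∂((bet N).prod (sig N)), q.2 ∈ stdSimplex ℝ (Fin N) :=
      Measure.quasiMeasurePreserving_snd.ae (sig_ae_mem N hN)
    filter_upwards [h1, h2] with q a b
    exact comb_mem (bar_mem (Nat.succ_pos N)) (emb_mem i b) a.1.le a.2
  have hint : ∀ i : Fin (N + 1), Integrable
      (fun q : ℝ × (Fin N → ℝ) => φ ((1 - q.1) • bar (N + 1) + q.1 • emb i q.2))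
      ((bet N).prod (sig N)) := by
    intro i
    refine Integrable.of_bound (C := M)
      (hφ.comp (measurable_cone_bar N i)).aestronglyMeasurable ?_
    filter_upwards [hmem i] with q hq
    simpa using hM _ hq
  rw [sig_cone N hN, integral_smul_measure]
  rw [integral_finsetSum_measure]
  · rw [smul_eq_mul, ENNReal.toReal_ofReal (by positivity)]
    congr 1
    refine Finset.sum_congr rfl fun i _ => ?_
    rw [integral_map (measurable_cone_bar N i).aemeasurable hφ.aestronglyMeasurable,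
      integral_prod _ (hint i)]
  · intro i _
    rw [integrable_map_measure hφ.aestronglyMeasurable (measurable_cone_bar N i).aemeasurable]
    exact hint i

end Pool.Agent.Lib.MP_29b1bb_gt
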