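import Pool.Agent.Lib.MP_29b1bb_gt.Sym
import Pool.Agent.Lib.MP_29b1bb_gt.SigC
import Pool.Agent.Lib.MP_29b1bb_gt.OneD

/-!
# LM-Assoc: symmetric convex functions on the simplex are positively correlated

Induction on `N`. `N = 1`: the simplex is one point `bar 1`, and `1 / (1² - 1) = 0` in Lean.
Step `N → N+1` (`N > 0`): for symmetric `φ` `integral_cone` and `symConv_slice_eq` give
`∫ φ ∂sig (N+1) = ∫ g, ∫ y, φ ((1-g) • bar + g • emb 0 y) ∂sig N ∂bet N`. For fixed `g` the slices
`κ_g, f_g` are `SymConv N` (`symConv_slice`), so by the induction hypothesis (both brackets are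
nonnegative by `symConv_bar_le`, `1/(N²-1) ≥ 0`) `∫ κ_g f_g ≥ (∫ κ_g)(∫ f_g) = K g * φ g`, where
`K g = ∫ κ_g`, `φ g = ∫ f_g` are convex on `[0,1]` with minimal value at `0`
(`symConv_radial`; `K 0 = κ (bar (N+1))`). Now `oneD` with `m = N`: `N (N+2) = (N+1)² - 1`.
-/

set_option autoImplicit false

open MeasureTheory Set

namespace Pool.Agent.Lib.MP_29b1bb_gt

/-- the cone formula for a symmetric function -/
private theorem as_cone {N : ℕ} (hN : 0 < N) {φ : (Fin (N + 1) → ℝ) → ℝ}
    (h : SymConv (N + 1) φ) :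
    ∫ x, φ x ∂sig (N + 1) =
      ∫ g, (∫ y, φ ((1 - g) • bar (N + 1) + g • emb 0 y) ∂sig N) ∂bet N := by
  obtain ⟨M, hM⟩ := h.bdd
  rw [integral_cone N hN φ h.meas M hM]
  have h1 : ∀ i : Fin (N + 1), ∫ g, ∫ y, φ ((1 - g) • bar (N + 1) + g • emb i y) ∂sig N ∂bet N =
      ∫ g, (∫ y, φ ((1 - g) • bar (N + 1) + g • emb 0 y) ∂sig N) ∂bet N := by
    intro i
    refine integral_congr_ae ?_
    filter_upwards [bet_ae_mem N] with g hg
    refine integral_congr_ae ?_
    filter_upwards [sig_ae_mem N hN] with y hy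
    exact symConv_slice_eq hN h ⟨hg.1.le, hg.2⟩ i hy
  rw [Finset.sum_congr rfl fun i _ => h1 i, Finset.sum_const, Finset.card_univ, Fintype.card_fin,
    nsmul_eq_mul]
  have h2 : ((N + 1 : ℕ) : ℝ) = (N : ℝ) + 1 := by push_cast; ring
  have h3 : (N : ℝ) + 1 ≠ 0 := by positivity
  rw [h2, ← mul_assoc, one_div, inv_mul_cancel₀ h3, one_mul]

theorem assoc_sym (N : ℕ) (hN : 0 < N) (f κ : (Fin N → ℝ) → ℝ) (hf : SymConv N f)
    (hκ : SymConv N κ) :
    (∫ y, κ y ∂sig N) * (∫ y, f y ∂sig N) +
      (1 / ((N : ℝ) ^ 2 - 1)) * ((∫ y, κ y ∂sig N) - κ (bar N)) * ((∫ y, f y ∂sig N) - f (bar N)) ≤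
      ∫ y, κ y * f y ∂sig N := by
  induction N with
  | zero => exact absurd hN (lt_irrefl 0)
  | succ N ih =>
    rcases Nat.eq_zero_or_pos N with h0 | hN'
    · subst h0
      -- one point
      have hpt : ∀ φ : (Fin (0 + 1) → ℝ) → ℝ, ∫ y, φ y ∂sig (0 + 1) = φ (bar (0 + 1)) := by
        intro φ
        have h1 : ∀ᵐ y ∂sig (0 + 1), φ y = φ (bar (0 + 1)) := by
          filter_upwards [sig_ae_mem (0 + 1) hN] with y hy
          congr 1
          funext k
          have h2 : y 0 = 1 := by
            have := hy.2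
            simpa using this
          have h3 : k = 0 := Fin.eq_zero k
          rw [h3, h2]
          simp [bar]
        rw [integral_congr_ae h1, integral_const]
        simp
      rw [hpt, hpt, hpt]
      simp
    · -- slices
      have hcone1 := as_cone hN' hf
      have hcone2 := as_cone hN' hκ
      have hslf : ∀ g ∈ Icc (0 : ℝ) 1, SymConv N (fun y => f ((1 - g) • bar (N + 1) + g • emb 0 y)) :=
        fun g hg => symConv_slice hN' hf hg 0
      have hslk : ∀ g ∈ Icc (0 : ℝ) 1, SymConv N (fun y => κ ((1 - g) • bar (N + 1) + g • emb 0 y)) :=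
        fun g hg => symConv_slice hN' hκ hg 0
      set K : ℝ → ℝ := fun g => ∫ y, κ ((1 - g) • bar (N + 1) + g • emb 0 y) ∂sig N with hK
      set F : ℝ → ℝ := fun g => ∫ y, f ((1 - g) • bar (N + 1) + g • emb 0 y) ∂sig N with hF
      obtain ⟨hKc, hKm⟩ := symConv_radial hN' hκ
      obtain ⟨hFc, hFm⟩ := symConv_radial hN' hf
      have hK0 : K 0 = κ (bar (N + 1)) := by
        simp only [hK, sub_zero, one_smul, zero_smul, add_zero]
        rw [integral_const]
        simp
      have hF0 : F 0 = f (bar (N + 1)) := by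
        simp only [hF, sub_zero, one_smul, zero_smul, add_zero]
        rw [integral_const]
        simp
      have h1 := oneD N hN' K F hKc hFc (fun g hg => by rw [hK0]; exact hKm g hg)
        (fun g hg => by rw [hF0]; exact hFm g hg)
      -- the product
      obtain ⟨Mf, hMf⟩ := hf.bdd
      obtain ⟨Mk, hMk⟩ := hκ.bdd
      have hMk0 : 0 ≤ Mk := (abs_nonneg _).trans (hMk _ (bar_mem (Nat.succ_pos N)))
      have hprodb : ∀ x ∈ stdSimplex ℝ (Fin (N + 1)), |κ x * f x| ≤ Mk * Mf := by
        intro x hx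
        rw [abs_mul]
        exact mul_le_mul (hMk x hx) (hMf x hx) (abs_nonneg _) hMk0
      have hprodm : Measurable fun x => κ x * f x := hκ.meas.mul hf.meas
      have hcone3 : ∫ x, κ x * f x ∂sig (N + 1) = ∫ g, (∫ y, κ ((1 - g) • bar (N + 1) + g • emb 0 y) *
          f ((1 - g) • bar (N + 1) + g • emb 0 y) ∂sig N) ∂bet N := by
        rw [integral_cone N hN' _ hprodm (Mk * Mf) hprodb]
        have h1 : ∀ i : Fin (N + 1), ∫ g, ∫ y, κ ((1 - g) • bar (N + 1) + g • emb i y) *
            f ((1 - g) • bar (N + 1) + g • emb i y) ∂sig N ∂bet N =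
            ∫ g, (∫ y, κ ((1 - g) • bar (N + 1) + g • emb 0 y) *
              f ((1 - g) • bar (N + 1) + g • emb 0 y) ∂sig N) ∂bet N := by
          intro i
          refine integral_congr_ae ?_
          filter_upwards [bet_ae_mem N] with g hg
          refine integral_congr_ae ?_
          filter_upwards [sig_ae_mem N hN'] with y hy
          rw [symConv_slice_eq hN' hf ⟨hg.1.le, hg.2⟩ i hy,
            symConv_slice_eq hN' hκ ⟨hg.1.le, hg.2⟩ i hy]
        rw [Finset.sum_congr rfl fun i _ => h1 i, Finset.sum_const, Finset.card_univ,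
          Fintype.card_fin, nsmul_eq_mul]
        have h2 : ((N + 1 : ℕ) : ℝ) = (N : ℝ) + 1 := by push_cast; ring
        have h3 : (N : ℝ) + 1 ≠ 0 := by positivity
        rw [h2, ← mul_assoc, one_div, inv_mul_cancel₀ h3, one_mul]
      -- the induction hypothesis on the slices
      have hstep : ∀ g ∈ Icc (0 : ℝ) 1, K g * F g ≤ ∫ y, κ ((1 - g) • bar (N + 1) + g • emb 0 y) *
          f ((1 - g) • bar (N + 1) + g • emb 0 y) ∂sig N := by
        intro g hg
        have i1 := ih hN' _ _ (hslf g hg) (hslk g hg)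
        refine le_trans ?_ i1
        have hle : ∀ φ : (Fin N → ℝ) → ℝ, SymConv N φ → 0 ≤ (∫ y, φ y ∂sig N) - φ (bar N) := by
          intro φ hφ
          obtain ⟨M, hM⟩ := hφ.bdd
          have e1 : φ (bar N) = ∫ _y, φ (bar N) ∂sig N := by
            rw [integral_const]
            simp
          rw [sub_nonneg, e1]
          refine integral_mono_ae (integrable_const _) (integrable_sig hN' hφ.meas hM) ?_
          filter_upwards [sig_ae_mem N hN'] with y hy
          exact symConv_bar_le hN' hφ y hy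
        have e2 := hle _ (hslf g hg)
        have e3 := hle _ (hslk g hg)
        have e4 : (0 : ℝ) ≤ 1 / ((N : ℝ) ^ 2 - 1) := by
          have : (1 : ℝ) ≤ N := by exact_mod_cast hN'
          have h2 : (0 : ℝ) ≤ (N : ℝ) ^ 2 - 1 := by nlinarith
          positivity
        have e5 := mul_nonneg (mul_nonneg e4 e3) e2
        exact le_add_of_nonneg_right e5
      have := instProbBet N hN'
      -- measurability of the inner integrals
      have hmap : Measurable (fun q : ℝ × (Fin N → ℝ) =>
          (1 - q.1) • bar (N + 1) + q.1 • emb 0 q.2) := by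
        refine Measurable.add ?_ ?_
        · exact (measurable_const.sub measurable_fst).smul_const _
        · exact measurable_fst.smul ((measurable_emb 0).comp measurable_snd)
      have hmeas : ∀ φ : (Fin (N + 1) → ℝ) → ℝ, Measurable φ → StronglyMeasurable
          (fun g : ℝ => ∫ y, φ ((1 - g) • bar (N + 1) + g • emb 0 y) ∂sig N) := by
        intro φ hφ
        exact StronglyMeasurable.integral_prod_right' (ν := sig N)
          (f := fun q : ℝ × (Fin N → ℝ) => φ ((1 - q.1) • bar (N + 1) + q.1 • emb 0 q.2))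
          (hφ.comp hmap).stronglyMeasurable
      have hbdd : ∀ (φ : (Fin (N + 1) → ℝ) → ℝ) (M : ℝ),
          (∀ x ∈ stdSimplex ℝ (Fin (N + 1)), |φ x| ≤ M) → ∀ g ∈ Icc (0 : ℝ) 1,
          ‖∫ y, φ ((1 - g) • bar (N + 1) + g • emb 0 y) ∂sig N‖ ≤ M := by
        intro φ M hM g hg
        have h1 : ∀ᵐ y ∂sig N, ‖φ ((1 - g) • bar (N + 1) + g • emb 0 y)‖ ≤ M := by
          filter_upwards [sig_ae_mem N hN'] with y hy
          exact hM _ (comb_mem (bar_mem (Nat.succ_pos N)) (emb_mem 0 hy) hg.1 hg.2)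
        refine (norm_integral_le_of_norm_le_const h1).trans ?_
        simp
      have hKi : ∀ g ∈ Icc (0 : ℝ) 1, ‖K g‖ ≤ Mk := hbdd κ Mk hMk
      have hFi : ∀ g ∈ Icc (0 : ℝ) 1, ‖F g‖ ≤ Mf := hbdd f Mf hMf
      have hKFint : Integrable (fun g => K g * F g) (bet N) := by
        refine Integrable.of_bound (C := Mk * Mf)
          ((hmeas κ hκ.meas).mul (hmeas f hf.meas)).aestronglyMeasurable ?_
        filter_upwards [bet_ae_mem N] with g hg
        have hg' : g ∈ Icc (0 : ℝ) 1 := ⟨hg.1.le, hg.2⟩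
        rw [norm_mul]
        exact mul_le_mul (hKi g hg') (hFi g hg') (norm_nonneg _) hMk0
      have hPint : Integrable (fun g => ∫ y, κ ((1 - g) • bar (N + 1) + g • emb 0 y) *
          f ((1 - g) • bar (N + 1) + g • emb 0 y) ∂sig N) (bet N) := by
        refine Integrable.of_bound (C := Mk * Mf) (hmeas _ hprodm).aestronglyMeasurable ?_
        filter_upwards [bet_ae_mem N] with g hg
        exact hbdd _ _ hprodb g ⟨hg.1.le, hg.2⟩
      have hmono : ∫ g, K g * F g ∂bet N ≤ ∫ x, κ x * f x ∂sig (N + 1) := by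
        rw [hcone3]
        refine integral_mono_ae hKFint hPint ?_
        filter_upwards [bet_ae_mem N] with g hg
        exact hstep g ⟨hg.1.le, hg.2⟩
      refine le_trans ?_ hmono
      rw [hcone1, hcone2, ← hK0, ← hF0]
      have hcoef : (1 : ℝ) / (((N + 1 : ℕ) : ℝ) ^ 2 - 1) = 1 / ((N : ℝ) * (N + 2)) := by
        congr 1
        push_cast
        ring
      rw [hcoef]
      exact h1

end Pool.Agent.Lib.MP_29b1bb_gt
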