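import Pool.Agent.Lib.MP_29b1bb_gt.Assoc

/-!
# LM-AssocN: only one of the two functions has to be symmetric

Apply `assoc_sym` to `κ' x = (1/N!) ∑_π κ (x ∘ π)`. The integrals of `κ' f` and `κ'` are those of
`κ f` and `κ` (`integral_sig_perm`, symmetry of `f`), `κ' (bar N) = κ (bar N)`.
-/

set_option autoImplicit false

open MeasureTheory Set

namespace Pool.Agent.Lib.MP_29b1bb_gt

private theorem an_mem {N : ℕ} (π : Equiv.Perm (Fin N)) {x : Fin N → ℝ}
    (hx : x ∈ stdSimplex ℝ (Fin N)) : x ∘ π ∈ stdSimplex ℝ (Fin N) := by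
  refine ⟨fun i => hx.1 _, ?_⟩
  rw [← hx.2]
  exact Equiv.sum_comp π x

private theorem an_meas {N : ℕ} (π : Equiv.Perm (Fin N)) :
    Measurable (fun x : Fin N → ℝ => x ∘ π) :=
  measurable_pi_lambda _ fun i => measurable_pi_apply (π i)

theorem assoc_nonsym (N : ℕ) (hN : 0 < N) (f κ : (Fin N → ℝ) → ℝ) (hf : SymConv N f)
    (hκ : Measurable κ) (hκc : ConvexOn ℝ (stdSimplex ℝ (Fin N)) κ) (M : ℝ)
    (hκb : ∀ x ∈ stdSimplex ℝ (Fin N), |κ x| ≤ M) :
    (∫ y, κ y ∂sig N) * (∫ y, f y ∂sig N) +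
      (1 / ((N : ℝ) ^ 2 - 1)) * ((∫ y, κ y ∂sig N) - κ (bar N)) * ((∫ y, f y ∂sig N) - f (bar N)) ≤
      ∫ y, κ y * f y ∂sig N := by
  set n : ℝ := (Fintype.card (Equiv.Perm (Fin N)) : ℝ) with hn
  have hn0 : 0 < n := by
    rw [hn]
    exact_mod_cast Fintype.card_pos
  have hcn : ∀ c : ℝ, ∑ _π : Equiv.Perm (Fin N), c = n * c := by
    intro c
    rw [Finset.sum_const, Finset.card_univ, nsmul_eq_mul]
  have hκπ : ∀ π : Equiv.Perm (Fin N), Measurable fun x : Fin N → ℝ => κ (x ∘ π) := fun π =>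
    hκ.comp (an_meas π)
  set κ' : (Fin N → ℝ) → ℝ := fun x => n⁻¹ * ∑ π : Equiv.Perm (Fin N), κ (x ∘ π) with hκ'
  have hsym : SymConv N κ' := by
    refine ⟨?_, ⟨convex_stdSimplex ℝ (Fin N), ?_⟩, ?_, M, ?_⟩
    · exact (Finset.measurable_sum _ fun π _ => hκπ π).const_mul _
    · intro x hx y hy a b ha hb hab
      simp only [hκ', smul_eq_mul]
      have h1 : ∀ π : Equiv.Perm (Fin N), κ ((a • x + b • y) ∘ π) ≤
          a * κ (x ∘ π) + b * κ (y ∘ π) := fun π =>
        hκc.2 (an_mem π hx) (an_mem π hy) ha hb hab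
      calc n⁻¹ * ∑ π : Equiv.Perm (Fin N), κ ((a • x + b • y) ∘ π)
          ≤ n⁻¹ * ∑ π : Equiv.Perm (Fin N), (a * κ (x ∘ π) + b * κ (y ∘ π)) := by
            refine mul_le_mul_of_nonneg_left (Finset.sum_le_sum fun π _ => h1 π) ?_
            positivity
        _ = a * (n⁻¹ * ∑ π : Equiv.Perm (Fin N), κ (x ∘ π)) +
            b * (n⁻¹ * ∑ π : Equiv.Perm (Fin N), κ (y ∘ π)) := by
            rw [Finset.sum_add_distrib, ← Finset.mul_sum, ← Finset.mul_sum]
            ring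
    · intro π₀ x _
      simp only [hκ']
      congr 1
      exact Equiv.sum_comp (Equiv.mulLeft π₀) (fun π : Equiv.Perm (Fin N) => κ (x ∘ π))
    · intro x hx
      simp only [hκ']
      rw [abs_mul, abs_of_pos (inv_pos.2 hn0)]
      have h1 : |∑ π : Equiv.Perm (Fin N), κ (x ∘ π)| ≤ n * M := by
        rw [← hcn M]
        exact (Finset.abs_sum_le_sum_abs _ _).trans
          (Finset.sum_le_sum fun π _ => hκb _ (an_mem π hx))
      calc n⁻¹ * |∑ π : Equiv.Perm (Fin N), κ (x ∘ π)| ≤ n⁻¹ * (n * M) :=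
            mul_le_mul_of_nonneg_left h1 (inv_pos.2 hn0).le
        _ = M := by rw [← mul_assoc, inv_mul_cancel₀ hn0.ne', one_mul]
  have hM0 : 0 ≤ M := (abs_nonneg _).trans (hκb _ (bar_mem hN))
  have hint : ∀ π : Equiv.Perm (Fin N), Integrable (fun x => κ (x ∘ π)) (sig N) := fun π =>
    integrable_sig hN (hκπ π) fun x hx => hκb _ (an_mem π hx)
  obtain ⟨Mf, hMf⟩ := hf.bdd
  have hint2 : ∀ π : Equiv.Perm (Fin N), Integrable (fun x => κ (x ∘ π) * f x) (sig N) := fun π =>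
    integrable_sig hN ((hκπ π).mul hf.meas) (M := M * Mf) fun x hx => by
      rw [abs_mul]
      exact mul_le_mul (hκb _ (an_mem π hx)) (hMf x hx) (abs_nonneg _) hM0
  -- the integrals
  have e1 : ∫ y, κ' y ∂sig N = ∫ y, κ y ∂sig N := by
    simp only [hκ']
    rw [integral_const_mul, integral_finsetSum _ fun π _ => hint π]
    simp only [integral_sig_perm N _ κ hκ]
    rw [hcn, ← mul_assoc, inv_mul_cancel₀ hn0.ne', one_mul]
  have e2 : κ' (bar N) = κ (bar N) := by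
    simp only [hκ']
    have h1 : ∀ π : Equiv.Perm (Fin N), κ (bar N ∘ π) = κ (bar N) := fun π => rfl
    rw [Finset.sum_congr rfl fun π _ => h1 π, hcn, ← mul_assoc, inv_mul_cancel₀ hn0.ne', one_mul]
  have e3 : ∫ y, κ' y * f y ∂sig N = ∫ y, κ y * f y ∂sig N := by
    have h1 : ∀ y, κ' y * f y = n⁻¹ * ∑ π : Equiv.Perm (Fin N), κ (y ∘ π) * f y := by
      intro y
      simp only [hκ']
      rw [mul_assoc, Finset.sum_mul]
    simp only [h1]
    rw [integral_const_mul, integral_finsetSum _ fun π _ => hint2 π]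
    have h2 : ∀ π : Equiv.Perm (Fin N), ∫ y, κ (y ∘ π) * f y ∂sig N = ∫ y, κ y * f y ∂sig N := by
      intro π
      rw [← integral_sig_perm N π (fun y => κ y * f y) (hκ.mul hf.meas)]
      refine integral_congr_ae ?_
      filter_upwards [sig_ae_mem N hN] with y hy
      rw [hf.symm π y hy]
    rw [Finset.sum_congr rfl fun π _ => h2 π, hcn, ← mul_assoc, inv_mul_cancel₀ hn0.ne', one_mul]
  have h := assoc_sym N hN f κ' hf hsym
  rw [e1, e2, e3] at h
  exact h

end Pool.Agent.Lib.MP_29b1bb_gt
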