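import Mathlib

set_option autoImplicit false

open MeasureTheory Set

namespace Pool.Agent.Lib.MP_29b1bb_gt

/-- The exponential law with parameter one. -/
noncomputable def expo : Measure ℝ :=
  (volume.restrict (Ioi (0 : ℝ))).withDensity (fun x => ENNReal.ofReal (Real.exp (-x)))

/-- The law of `m` independent exponential variables. -/
noncomputable def gam (m : ℕ) : Measure (Fin m → ℝ) := Measure.pi fun _ => expo

/-- Division by the coordinate sum. -/
noncomputable def nrm (m : ℕ) (x : Fin m → ℝ) : Fin m → ℝ := fun i => x i / ∑ k, x k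

/-- The uniform law on the standard simplex with `m` vertices. -/
noncomputable def sig (m : ℕ) : Measure (Fin m → ℝ) := (gam m).map (nrm m)

/-- The law on `(0,1]` with density `m g^(m-1)`. -/
noncomputable def bet (m : ℕ) : Measure ℝ :=
  (volume.restrict (Ioc (0 : ℝ) 1)).withDensity (fun g => ENNReal.ofReal ((m : ℝ) * g ^ (m - 1)))

/-- The barycentre of the standard simplex with `m` vertices. -/
noncomputable def bar (m : ℕ) : Fin m → ℝ := fun _ => (m : ℝ)⁻¹

/-- Insertion of a zero coordinate at place `i`. -/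
noncomputable def emb {m : ℕ} (i : Fin (m + 1)) (y : Fin m → ℝ) : Fin (m + 1) → ℝ :=
  i.insertNth (0 : ℝ) y

/-- The expected absolute determinant with first row `x` and the other rows uniform in the
standard simplex. -/
noncomputable def fdet (d : ℕ) (x : Fin (d + 1) → ℝ) : ℝ :=
  ∫ Y : Fin d → (Fin (d + 1) → ℝ), |Matrix.det (Matrix.of (Fin.cons x Y : Fin (d + 1) → Fin (d + 1) → ℝ))|
    ∂(Measure.pi fun _ => sig (d + 1))

/-- The restricted expectation of the absolute determinant. -/
noncomputable def Gdet (d : ℕ) (C : Set (Fin (d + 1) → ℝ)) : ℝ :=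
  ∫ Y in Set.pi Set.univ (fun _ : Fin (d + 1) => C), |Matrix.det (Matrix.of Y)|
    ∂(Measure.pi fun _ : Fin (d + 1) => sig (d + 1))

/-- The excess of the gauge (centre `bar`) of `C` over one, on the facet number `j`. -/
noncomputable def kap {d : ℕ} (C : Set (Fin (d + 1) → ℝ)) (j : Fin (d + 1)) (y : Fin d → ℝ) : ℝ :=
  open Classical in
  if y ∈ stdSimplex ℝ (Fin d) then
    sInf {s : ℝ | 0 ≤ s ∧ (1 / (1 + s)) • emb j y + (s / (1 + s)) • bar (d + 1) ∈ C}
  else 0

end Pool.Agent.Lib.MP_29b1bb_gt
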