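import Mathlib
import Pool.Agent.Lib.MP_29b1bb_gt.Defs

set_option autoImplicit false

open MeasureTheory Set

namespace Pool.Agent.Lib.MP_29b1bb_gt

instance instProbExpo : IsProbabilityMeasure expo := by
  constructor
  unfold expo
  rw [withDensity_apply _ MeasurableSet.univ, Measure.restrict_univ]
  rw [← ofReal_integral_eq_lintegral_ofReal]
  · rw [integral_exp_neg_Ioi_zero]; simp
  · exact integrableOn_exp_neg_Ioi 0 |>.congr_fun (fun x _ => rfl) measurableSet_Ioi
  · exact Filter.Eventually.of_forall fun x => (Real.exp_pos _).le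

instance instProbGam (m : ℕ) : IsProbabilityMeasure (gam m) := by
  unfold gam; infer_instance

theorem measurable_nrm (m : ℕ) : Measurable (nrm m) := by
  unfold nrm
  refine measurable_pi_lambda _ fun i => ?_
  exact (measurable_pi_apply i).div (Finset.measurable_sum _ fun k _ => measurable_pi_apply k)

instance instProbSig (m : ℕ) : IsProbabilityMeasure (sig m) := by
  unfold sig
  exact Measure.isProbabilityMeasure_map (measurable_nrm m).aemeasurable

theorem expo_ae_pos : ∀ᵐ x ∂expo, 0 < x := by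
  unfold expo
  have h : ∀ᵐ x ∂(volume.restrict (Ioi (0 : ℝ))), 0 < x := by
    filter_upwards [ae_restrict_mem measurableSet_Ioi] with x hx using hx
  exact (withDensity_absolutelyContinuous _ _).ae_le h

theorem gam_ae_pos (m : ℕ) : ∀ᵐ x ∂(gam m), ∀ i, 0 < x i := by
  rw [ae_all_iff]
  intro i
  unfold gam
  exact (Measure.quasiMeasurePreserving_eval (fun _ : Fin m => expo) i).ae expo_ae_pos

theorem sig_ae_mem (m : ℕ) (hm : 0 < m) : ∀ᵐ x ∂(sig m), x ∈ stdSimplex ℝ (Fin m) := by
  unfold sig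
  have hcl : MeasurableSet (stdSimplex ℝ (Fin m)) := (isClosed_stdSimplex ℝ (Fin m)).measurableSet
  rw [ae_map_iff (measurable_nrm m).aemeasurable (p := fun x => x ∈ stdSimplex ℝ (Fin m)) hcl]
  filter_upwards [gam_ae_pos m] with x hx
  have : Nonempty (Fin m) := ⟨⟨0, hm⟩⟩
  have hs : 0 < ∑ k, x k := Finset.sum_pos (fun i _ => hx i) Finset.univ_nonempty
  refine ⟨fun i => ?_, ?_⟩
  · exact (div_pos (hx i) hs).le
  · simp only [nrm]
    rw [← Finset.sum_div]
    exact div_self hs.ne'

theorem bet_ae_mem (m : ℕ) : ∀ᵐ g ∂(bet m), g ∈ Ioc (0 : ℝ) 1 := by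
  unfold bet
  exact (withDensity_absolutelyContinuous _ _).ae_le (ae_restrict_mem measurableSet_Ioc)

/-- Integration against `bet`. -/
theorem integral_bet (m : ℕ) (φ : ℝ → ℝ) :
    ∫ g, φ g ∂bet m = ∫ g in (0 : ℝ)..1, ((m : ℝ) * g ^ (m - 1)) * φ g := by
  unfold bet
  rw [intervalIntegral.integral_of_le zero_le_one]
  rw [integral_withDensity_eq_integral_toReal_smul]
  · refine setIntegral_congr_fun measurableSet_Ioc fun g hg => ?_
    simp only [smul_eq_mul]
    rw [ENNReal.toReal_ofReal]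
    have := hg.1
    positivity
  · fun_prop
  · exact Filter.Eventually.of_forall fun x => ENNReal.ofReal_lt_top

theorem lintegral_bet (m : ℕ) (φ : ℝ → ENNReal) :
    ∫⁻ g, φ g ∂bet m = ∫⁻ g in Ioc (0 : ℝ) 1, ENNReal.ofReal ((m : ℝ) * g ^ (m - 1)) * φ g := by
  unfold bet
  rw [lintegral_withDensity_eq_lintegral_mul_non_measurable]
  · rfl
  · fun_prop
  · exact Filter.Eventually.of_forall fun x => ENNReal.ofReal_lt_top

theorem bet_Iic (m : ℕ) (hm : 0 < m) (t : ℝ) (ht : 0 ≤ t) (ht1 : t ≤ 1) :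
    bet m (Iic t) = ENNReal.ofReal (t ^ m) := by
  unfold bet
  rw [withDensity_apply _ measurableSet_Iic, Measure.restrict_restrict measurableSet_Iic]
  have h1 : Iic t ∩ Ioc (0 : ℝ) 1 = Ioc 0 t := by
    ext x
    simp only [mem_inter_iff, mem_Iic, mem_Ioc]
    constructor
    · rintro ⟨a, b, c⟩; exact ⟨b, a⟩
    · rintro ⟨a, b⟩; exact ⟨b, a, b.trans ht1⟩
  rw [h1, ← ofReal_integral_eq_lintegral_ofReal]
  · congr 1
    rw [← intervalIntegral.integral_of_le ht]
    rw [intervalIntegral.integral_const_mul, integral_pow]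
    obtain ⟨k, rfl⟩ : ∃ k, m = k + 1 := ⟨m - 1, by omega⟩
    simp only [Nat.add_sub_cancel]
    have : ((k : ℝ) + 1) ≠ 0 := by positivity
    push_cast
    field_simp
    ring
  · have : Continuous fun g : ℝ => (m : ℝ) * g ^ (m - 1) := by fun_prop
    exact (this.integrableOn_Icc).mono_set Ioc_subset_Icc_self
  · filter_upwards [ae_restrict_mem measurableSet_Ioc] with x hx
    have := hx.1
    simp only [Pi.zero_apply]
    positivity

theorem instProbBet (m : ℕ) (hm : 0 < m) : IsProbabilityMeasure (bet m) := by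
  constructor
  have h := bet_Iic m hm 1 zero_le_one le_rfl
  have h2 : bet m univ = bet m (Iic 1) := by
    refine measure_congr ?_
    filter_upwards [bet_ae_mem m] with x hx
    apply propext
    constructor
    · intro _; exact hx.2
    · intro _; trivial
  rw [h2, h]; simp

theorem emb_apply_same {m : ℕ} (i : Fin (m + 1)) (y : Fin m → ℝ) : emb i y i = 0 := by
  unfold emb; simp

theorem emb_apply_succAbove {m : ℕ} (i : Fin (m + 1)) (y : Fin m → ℝ) (k : Fin m) :
    emb i y (i.succAbove k) = y k := by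
  unfold emb; simp

theorem continuous_emb {m : ℕ} (i : Fin (m + 1)) :
    Continuous (emb i : (Fin m → ℝ) → (Fin (m + 1) → ℝ)) := by
  refine continuous_pi fun k => ?_
  refine Fin.succAboveCases i ?_ (fun j => ?_) k
  · simp only [emb_apply_same]; exact continuous_const
  · simp only [emb_apply_succAbove]; exact continuous_apply j

theorem measurable_emb {m : ℕ} (i : Fin (m + 1)) :
    Measurable (emb i : (Fin m → ℝ) → (Fin (m + 1) → ℝ)) := (continuous_emb i).measurable

theorem sum_emb {m : ℕ} (i : Fin (m + 1)) (y : Fin m → ℝ) : ∑ k, emb i y k = ∑ k, y k := by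
  rw [Fin.sum_univ_succAbove _ i]
  simp only [emb_apply_same, emb_apply_succAbove, zero_add]

theorem emb_add {m : ℕ} (i : Fin (m + 1)) (x y : Fin m → ℝ) :
    emb i (x + y) = emb i x + emb i y := by
  funext k
  refine Fin.succAboveCases i ?_ (fun j => ?_) k
  · simp [emb_apply_same]
  · simp [emb_apply_succAbove]

theorem emb_smul {m : ℕ} (i : Fin (m + 1)) (a : ℝ) (x : Fin m → ℝ) :
    emb i (a • x) = a • emb i x := by
  funext k
  refine Fin.succAboveCases i ?_ (fun j => ?_) k
  · simp [emb_apply_same]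
  · simp [emb_apply_succAbove]

theorem emb_mem {m : ℕ} (i : Fin (m + 1)) {y : Fin m → ℝ} (hy : y ∈ stdSimplex ℝ (Fin m)) :
    emb i y ∈ stdSimplex ℝ (Fin (m + 1)) := by
  refine ⟨fun k => ?_, ?_⟩
  · refine Fin.succAboveCases i ?_ (fun j => ?_) k
    · simp [emb_apply_same]
    · simp only [emb_apply_succAbove]; exact hy.1 j
  · rw [sum_emb]; exact hy.2

theorem bar_mem {m : ℕ} (hm : 0 < m) : bar m ∈ stdSimplex ℝ (Fin m) := by
  refine ⟨fun k => ?_, ?_⟩
  · simp only [bar]; positivity
  · simp only [bar, Finset.sum_const, Finset.card_univ, Fintype.card_fin, nsmul_eq_mul]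
    have : (m : ℝ) ≠ 0 := by positivity
    field_simp

theorem comb_mem {n : ℕ} {x y : Fin n → ℝ} (hx : x ∈ stdSimplex ℝ (Fin n))
    (hy : y ∈ stdSimplex ℝ (Fin n)) {g : ℝ} (h0 : 0 ≤ g) (h1 : g ≤ 1) :
    (1 - g) • x + g • y ∈ stdSimplex ℝ (Fin n) :=
  (convex_stdSimplex ℝ (Fin n)) hx hy (by linarith) h0 (by ring)

/-- Bounded measurable functions on the simplex are integrable. -/
theorem integrable_sig {n : ℕ} (hn : 0 < n) {φ : (Fin n → ℝ) → ℝ} (hφ : Measurable φ) {M : ℝ}
    (hM : ∀ x ∈ stdSimplex ℝ (Fin n), |φ x| ≤ M) : Integrable φ (sig n) := by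
  refine Integrable.of_bound (C := M) hφ.aestronglyMeasurable ?_
  filter_upwards [sig_ae_mem n hn] with x hx
  simpa using hM x hx

end Pool.Agent.Lib.MP_29b1bb_gt
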