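import Pool.Agent.Lib.MP_29b1bb_gt.FDet

/-!
# LM-Bonf: the inequalities of Bonferroni

Let `μ = Measure.pi fun _ => sig (d+1)` on `Fin (d+1) → (Fin (d+1) → ℝ)`, `D Y = |det Y|`, `A = Cᶜ`,
`I_i Y = 1` if `Y i ∈ A`, else `0`. Pointwise
`1 - ∑ I_i ≤ 1_{all Y i ∈ C} ≤ 1 - ∑ I_i + ∑_{i<j} I_i I_j` (with `k` the number of `i` with `Y i ∈ A`:
`k = 0`: `1`; `k ≥ 1`: `1 - k ≤ 0 ≤ 1 - k + k(k-1)/2 = (k-1)(k-2)/2`). Multiply by `D Y`, integrate
(everything is bounded almost surely: `0 ≤ D ≤ 1` by `abs_det_le_one`).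
`∫ I_i D = ∫ I_0 D` (swap the rows `0` and `i`: `abs_det_rows`, `Measure.pi` is invariant,
`measurePreserving_piCongrLeft`), `∫ I_0 D = ∫ x in A, fdet d x ∂sig (d+1)` by Fubini
(`measurePreserving_piFinSuccAbove (fun _ => sig (d+1)) 0`, `Fin.cons`). `∫ I_i I_j D ≤ ∫ I_i I_j =
(sig (d+1)).real A ^ 2` (independence; `Measure.pi_pi` for the box with `A` at the places `i, j` and
`univ` elsewhere). The number of pairs is `d(d+1)/2`.
(It may be convenient to write `∑_{i<j}` as `(1/2) ∑_{i ≠ j}`.)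
-/

set_option autoImplicit false

open MeasureTheory Set

namespace Pool.Agent.Lib.MP_29b1bb_gt

/-- the law of the rows -/
private noncomputable def bmu (d : ℕ) : Measure (Fin (d + 1) → (Fin (d + 1) → ℝ)) :=
  Measure.pi fun _ : Fin (d + 1) => sig (d + 1)

private instance bmu_prob (d : ℕ) : IsProbabilityMeasure (bmu d) := by
  unfold bmu; infer_instance

/-- the absolute determinant -/
private noncomputable def bD (d : ℕ) (Y : Fin (d + 1) → (Fin (d + 1) → ℝ)) : ℝ :=
  |Matrix.det (Matrix.of Y)|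

private theorem bD_nonneg {d : ℕ} (Y : Fin (d + 1) → (Fin (d + 1) → ℝ)) : 0 ≤ bD d Y :=
  abs_nonneg _

private theorem bD_int (d : ℕ) : Integrable (bD d) (bmu d) :=
  integrable_abs_det (d + 1) (Nat.succ_pos d)

private theorem bD_le (d : ℕ) : ∀ᵐ Y ∂(bmu d), bD d Y ≤ 1 := by
  filter_upwards [ae_rows_mem (d + 1) (d + 1) (Nat.succ_pos d)] with Y hY
  exact abs_det_le_one hY

/-- row `i` is in `A` -/
private def bS (d : ℕ) (A : Set (Fin (d + 1) → ℝ)) (i : Fin (d + 1)) :
    Set (Fin (d + 1) → (Fin (d + 1) → ℝ)) := {Y | Y i ∈ A}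

private theorem bS_meas {d : ℕ} {A : Set (Fin (d + 1) → ℝ)} (hA : MeasurableSet A)
    (i : Fin (d + 1)) : MeasurableSet (bS d A i) :=
  (measurable_pi_apply i) hA

private theorem Gdet_eq (d : ℕ) (C : Set (Fin (d + 1) → ℝ)) (hC : MeasurableSet C) :
    Gdet d C = ∫ Y, (Set.pi Set.univ (fun _ : Fin (d + 1) => C)).indicator (bD d) Y ∂(bmu d) := by
  rw [integral_indicator (MeasurableSet.univ_pi fun _ => hC)]
  rfl

private theorem Gdet_univ_eq (d : ℕ) : Gdet d univ = ∫ Y, bD d Y ∂(bmu d) := by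
  unfold Gdet
  rw [Set.pi_univ, Measure.restrict_univ]
  rfl

private theorem bswap {d : ℕ} (A : Set (Fin (d + 1) → ℝ)) (i : Fin (d + 1)) :
    ∫ Y, (bS d A i).indicator (bD d) Y ∂(bmu d) =
      ∫ Y, (bS d A 0).indicator (bD d) Y ∂(bmu d) := by
  set π : Equiv.Perm (Fin (d + 1)) := Equiv.swap 0 i with hπ
  have hmp := measurePreserving_piCongrLeft (α := fun _ : Fin (d + 1) => (Fin (d + 1) → ℝ))
    (fun _ => sig (d + 1)) π
  have hT : ∀ (Y : Fin (d + 1) → (Fin (d + 1) → ℝ)) (k : Fin (d + 1)),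
      MeasurableEquiv.piCongrLeft (fun _ : Fin (d + 1) => (Fin (d + 1) → ℝ)) π Y k = Y (π k) := by
    intro Y k
    have h1 : k = π (π k) := by rw [hπ, Equiv.swap_apply_self]
    conv_lhs => rw [h1]
    exact Equiv.piCongrLeft_apply_apply (fun _ : Fin (d + 1) => (Fin (d + 1) → ℝ)) π Y (π k)
  have hfun : ∀ Y : Fin (d + 1) → (Fin (d + 1) → ℝ),
      (bS d A 0).indicator (bD d)
        (MeasurableEquiv.piCongrLeft (fun _ : Fin (d + 1) => (Fin (d + 1) → ℝ)) π Y) =
      (bS d A i).indicator (bD d) Y := by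
    intro Y
    have hD : bD d (MeasurableEquiv.piCongrLeft (fun _ : Fin (d + 1) => (Fin (d + 1) → ℝ)) π Y) =
        bD d Y := by
      have h1 : MeasurableEquiv.piCongrLeft (fun _ : Fin (d + 1) => (Fin (d + 1) → ℝ)) π Y =
          fun k => Y (π k) := funext (hT Y)
      rw [h1]
      exact abs_det_rows π Y
    by_cases h : Y i ∈ A
    · have h1 : Y ∈ bS d A i := h
      have h2 : MeasurableEquiv.piCongrLeft (fun _ : Fin (d + 1) => (Fin (d + 1) → ℝ)) π Y ∈
          bS d A 0 := by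
        change MeasurableEquiv.piCongrLeft (fun _ : Fin (d + 1) => (Fin (d + 1) → ℝ)) π Y 0 ∈ A
        rw [hT, hπ, Equiv.swap_apply_left]
        exact h
      rw [indicator_of_mem h1, indicator_of_mem h2, hD]
    · have h1 : Y ∉ bS d A i := h
      have h2 : MeasurableEquiv.piCongrLeft (fun _ : Fin (d + 1) => (Fin (d + 1) → ℝ)) π Y ∉
          bS d A 0 := by
        change ¬ MeasurableEquiv.piCongrLeft (fun _ : Fin (d + 1) => (Fin (d + 1) → ℝ)) π Y 0 ∈ A
        rw [hT, hπ, Equiv.swap_apply_left]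
        exact h
      rw [indicator_of_notMem h1, indicator_of_notMem h2]
  have h := hmp.integral_comp
    (MeasurableEquiv.piCongrLeft (fun _ : Fin (d + 1) => (Fin (d + 1) → ℝ)) π).measurableEmbedding
    ((bS d A 0).indicator (bD d))
  simp only [hfun] at h
  exact h

private theorem bfub {d : ℕ} {A : Set (Fin (d + 1) → ℝ)} (hA : MeasurableSet A) :
    ∫ Y, (bS d A 0).indicator (bD d) Y ∂(bmu d) = ∫ x in A, fdet d x ∂sig (d + 1) := by
  have hmp := measurePreserving_piFinSuccAbove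
    (α := fun _ : Fin (d + 1) => (Fin (d + 1) → ℝ)) (fun _ => sig (d + 1)) 0
  set e := MeasurableEquiv.piFinSuccAbove (fun _ : Fin (d + 1) => (Fin (d + 1) → ℝ)) 0 with he
  have hsymm := hmp.symm e
  have hint : Integrable ((bS d A 0).indicator (bD d)) (bmu d) :=
    (bD_int d).indicator (bS_meas hA 0)
  have h1 := hsymm.integral_comp e.symm.measurableEmbedding ((bS d A 0).indicator (bD d))
  have h2 : Integrable (fun x => (bS d A 0).indicator (bD d) (e.symm x))
      ((sig (d + 1)).prod (Measure.pi fun _ : Fin d => sig (d + 1))) :=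
    hsymm.integrable_comp_of_integrable hint
  have h3 : ∫ Y, (bS d A 0).indicator (bD d) Y ∂(bmu d) =
      ∫ x, (bS d A 0).indicator (bD d) (e.symm x)
        ∂((sig (d + 1)).prod (Measure.pi fun _ : Fin d => sig (d + 1))) := h1.symm
  rw [h3, integral_prod _ h2, ← integral_indicator hA]
  refine integral_congr_ae (Filter.Eventually.of_forall fun x => ?_)
  have hes : ∀ Z : Fin d → (Fin (d + 1) → ℝ), e.symm (x, Z) =
      (Fin.cons x Z : Fin (d + 1) → (Fin (d + 1) → ℝ)) := by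
    intro Z
    rw [he]
    simp [MeasurableEquiv.piFinSuccAbove, Fin.insertNthEquiv, Fin.insertNth_zero']
  simp only [hes]
  by_cases hx : x ∈ A
  · rw [indicator_of_mem hx]
    unfold fdet
    refine integral_congr_ae (Filter.Eventually.of_forall fun Z => ?_)
    have : (Fin.cons x Z : Fin (d + 1) → (Fin (d + 1) → ℝ)) ∈ bS d A 0 := hx
    simp only
    rw [indicator_of_mem this]
    rfl
  · rw [indicator_of_notMem hx]
    have h0 : ∀ Z : Fin d → (Fin (d + 1) → ℝ), (bS d A 0).indicator (bD d)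
        (Fin.cons x Z : Fin (d + 1) → (Fin (d + 1) → ℝ)) = 0 := by
      intro Z
      have : (Fin.cons x Z : Fin (d + 1) → (Fin (d + 1) → ℝ)) ∉ bS d A 0 := hx
      exact indicator_of_notMem this _
    simp only [h0, integral_zero]

private theorem bint_row {d : ℕ} {A : Set (Fin (d + 1) → ℝ)} (hA : MeasurableSet A)
    (i : Fin (d + 1)) :
    ∫ Y, (bS d A i).indicator (bD d) Y ∂(bmu d) = ∫ x in A, fdet d x ∂sig (d + 1) := by
  rw [bswap, bfub hA]

private theorem bpair {d : ℕ} {A : Set (Fin (d + 1) → ℝ)} (hA : MeasurableSet A)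
    {i j : Fin (d + 1)} (hij : i ≠ j) :
    ∫ Y, (bS d A i ∩ bS d A j).indicator (fun _ => (1 : ℝ)) Y ∂(bmu d) =
      ((sig (d + 1)).real A) ^ 2 := by
  classical
  rw [integral_indicator_const _ ((bS_meas hA i).inter (bS_meas hA j)), smul_eq_mul, mul_one]
  have h1 : bS d A i ∩ bS d A j =
      Set.pi Set.univ (fun k : Fin (d + 1) => if k = i ∨ k = j then A else univ) := by
    ext Y
    simp only [bS, mem_inter_iff, mem_ofPred_eq, mem_pi, mem_univ, true_implies]
    constructor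
    · rintro ⟨h1, h2⟩ k
      split_ifs with h
      · rcases h with rfl | rfl
        · exact h1
        · exact h2
      · exact mem_univ _
    · intro h
      have h1 := h i
      have h2 := h j
      simp only [true_or, or_true, if_true] at h1 h2
      exact ⟨h1, h2⟩
  have h2 : bmu d (bS d A i ∩ bS d A j) = (sig (d + 1) A) ^ 2 := by
    rw [h1]
    unfold bmu
    rw [Measure.pi_pi]
    have h3 : ∀ k : Fin (d + 1), sig (d + 1) (if k = i ∨ k = j then A else univ) =
        if k = i ∨ k = j then sig (d + 1) A else 1 := by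
      intro k
      split_ifs
      · rfl
      · exact measure_univ
    simp only [h3]
    rw [Finset.prod_ite, Finset.prod_const, Finset.prod_const_one, mul_one]
    congr 1
    have h4 : Finset.univ.filter (fun k : Fin (d + 1) => k = i ∨ k = j) = {i, j} := by
      ext k
      simp
    rw [h4, Finset.card_pair hij]
  rw [Measure.real, h2, ENNReal.toReal_pow]
  rfl

open Classical in
/-- number of rows in `A` -/
private noncomputable def bK (d : ℕ) (A : Set (Fin (d + 1) → ℝ))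
    (Y : Fin (d + 1) → (Fin (d + 1) → ℝ)) : ℕ :=
  (Finset.univ.filter fun i => Y i ∈ A).card

private theorem bsum_row {d : ℕ} (A : Set (Fin (d + 1) → ℝ))
    (Y : Fin (d + 1) → (Fin (d + 1) → ℝ)) :
    ∑ i, (bS d A i).indicator (bD d) Y = (bK d A Y : ℝ) * bD d Y := by
  classical
  have h1 : ∀ i, (bS d A i).indicator (bD d) Y = (if Y i ∈ A then (1 : ℝ) else 0) * bD d Y := by
    intro i
    by_cases h : Y i ∈ A
    · have h' : Y ∈ bS d A i := h
      rw [indicator_of_mem h', if_pos h, one_mul]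
    · have h' : Y ∉ bS d A i := h
      rw [indicator_of_notMem h', if_neg h, zero_mul]
  simp only [h1]
  rw [← Finset.sum_mul, Finset.sum_boole]
  rfl

private theorem bK_zero {d : ℕ} (A : Set (Fin (d + 1) → ℝ))
    (Y : Fin (d + 1) → (Fin (d + 1) → ℝ)) : bK d A Y = 0 ↔ ∀ i, Y i ∉ A := by
  classical
  unfold bK
  rw [Finset.card_eq_zero, Finset.filter_eq_empty_iff]
  simp

private theorem bind_all {d : ℕ} (C : Set (Fin (d + 1) → ℝ))
    (Y : Fin (d + 1) → (Fin (d + 1) → ℝ)) :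
    (Set.pi Set.univ (fun _ : Fin (d + 1) => C)).indicator (bD d) Y =
      if bK d Cᶜ Y = 0 then bD d Y else 0 := by
  classical
  have h : Y ∈ Set.pi Set.univ (fun _ : Fin (d + 1) => C) ↔ bK d Cᶜ Y = 0 := by
    rw [bK_zero]
    simp [mem_pi]
  by_cases h' : bK d Cᶜ Y = 0
  · rw [if_pos h', indicator_of_mem (h.2 h')]
  · rw [if_neg h', indicator_of_notMem (fun hh => h' (h.1 hh))]

private theorem bsum_pair {d : ℕ} (A : Set (Fin (d + 1) → ℝ))
    (Y : Fin (d + 1) → (Fin (d + 1) → ℝ)) :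
    ∑ i, ∑ j ∈ Finset.univ.erase i, (bS d A i ∩ bS d A j).indicator (fun _ => (1 : ℝ)) Y =
      (bK d A Y : ℝ) * ((bK d A Y : ℝ) - 1) := by
  classical
  set I : Fin (d + 1) → ℝ := fun i => if Y i ∈ A then 1 else 0 with hI
  have hK : ∑ i, I i = (bK d A Y : ℝ) := by
    rw [hI, Finset.sum_boole]
    rfl
  have h1 : ∀ i j, (bS d A i ∩ bS d A j).indicator (fun _ => (1 : ℝ)) Y = I i * I j := by
    intro i j
    by_cases h : Y i ∈ A
    · by_cases h2 : Y j ∈ A
      · have h' : Y ∈ bS d A i ∩ bS d A j := ⟨h, h2⟩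
        rw [indicator_of_mem h']
        simp [hI, h, h2]
      · have h' : Y ∉ bS d A i ∩ bS d A j := fun hh => h2 hh.2
        rw [indicator_of_notMem h']
        simp [hI, h2]
    · have h' : Y ∉ bS d A i ∩ bS d A j := fun hh => h hh.1
      rw [indicator_of_notMem h']
      simp [hI, h]
  simp only [h1]
  have h2 : ∀ i, ∑ j ∈ Finset.univ.erase i, I i * I j = I i * (bK d A Y : ℝ) - I i := by
    intro i
    rw [Finset.sum_erase_eq_sub (Finset.mem_univ i), ← Finset.mul_sum, hK]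
    have : I i * I i = I i := by
      simp only [hI]
      split_ifs <;> simp
    rw [this]
  simp only [h2]
  rw [Finset.sum_sub_distrib, ← Finset.sum_mul, hK]
  ring

theorem Gdet_nonneg (d : ℕ) (C : Set (Fin (d + 1) → ℝ)) : 0 ≤ Gdet d C := by
  unfold Gdet
  exact integral_nonneg fun _ => abs_nonneg _

private theorem bint_sum {d : ℕ} {A : Set (Fin (d + 1) → ℝ)} (hA : MeasurableSet A) :
    Integrable (fun Y => bD d Y - ∑ i, (bS d A i).indicator (bD d) Y) (bmu d) ∧
      ∫ Y, (bD d Y - ∑ i, (bS d A i).indicator (bD d) Y) ∂(bmu d) =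
        Gdet d univ - ((d : ℝ) + 1) * ∫ x in A, fdet d x ∂sig (d + 1) := by
  have h1 : ∀ i : Fin (d + 1), Integrable (fun Y => (bS d A i).indicator (bD d) Y) (bmu d) :=
    fun i => (bD_int d).indicator (bS_meas hA i)
  have h2 : Integrable (fun Y => ∑ i, (bS d A i).indicator (bD d) Y) (bmu d) :=
    integrable_finsetSum _ fun i _ => h1 i
  refine ⟨(bD_int d).sub h2, ?_⟩
  rw [integral_sub (bD_int d) h2, integral_finsetSum _ fun i _ => h1 i, Gdet_univ_eq]
  simp only [bint_row hA]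
  rw [Finset.sum_const, Finset.card_univ, Fintype.card_fin, nsmul_eq_mul]
  push_cast
  ring

theorem bonf_lower (d : ℕ) (C : Set (Fin (d + 1) → ℝ)) (hC : MeasurableSet C) :
    Gdet d univ - ((d : ℝ) + 1) * ∫ x in Cᶜ, fdet d x ∂sig (d + 1) ≤ Gdet d C := by
  obtain ⟨h1, h2⟩ := bint_sum (d := d) hC.compl
  rw [← h2, Gdet_eq d C hC]
  refine integral_mono h1 ((bD_int d).indicator (MeasurableSet.univ_pi fun _ => hC)) fun Y => ?_
  simp only
  rw [bsum_row, bind_all]
  have hD := bD_nonneg Y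
  split_ifs with h
  · rw [h]
    simp
  · have hK : (1 : ℝ) ≤ bK d Cᶜ Y := by exact_mod_cast Nat.one_le_iff_ne_zero.2 h
    nlinarith

theorem bonf_upper (d : ℕ) (C : Set (Fin (d + 1) → ℝ)) (hC : MeasurableSet C) :
    Gdet d C ≤ Gdet d univ - ((d : ℝ) + 1) * ∫ x in Cᶜ, fdet d x ∂sig (d + 1) +
      ((d : ℝ) * (d + 1) / 2) * ((sig (d + 1)).real Cᶜ) ^ 2 := by
  obtain ⟨h1, h2⟩ := bint_sum (d := d) hC.compl
  have h3 : ∀ i j : Fin (d + 1), Integrable
      (fun Y => (bS d Cᶜ i ∩ bS d Cᶜ j).indicator (fun _ => (1 : ℝ)) Y) (bmu d) := fun i j =>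
    (integrable_const (1 : ℝ)).indicator ((bS_meas hC.compl i).inter (bS_meas hC.compl j))
  have h4 : Integrable (fun Y => ∑ i, ∑ j ∈ Finset.univ.erase i,
      (bS d Cᶜ i ∩ bS d Cᶜ j).indicator (fun _ => (1 : ℝ)) Y) (bmu d) :=
    integrable_finsetSum _ fun i _ => integrable_finsetSum _ fun j _ => h3 i j
  have h5 : ∫ Y, ∑ i, ∑ j ∈ Finset.univ.erase i,
      (bS d Cᶜ i ∩ bS d Cᶜ j).indicator (fun _ => (1 : ℝ)) Y ∂(bmu d) =
      (d : ℝ) * (d + 1) * ((sig (d + 1)).real Cᶜ) ^ 2 := by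
    rw [integral_finsetSum _ fun i _ => integrable_finsetSum _ fun j _ => h3 i j]
    have h6 : ∀ i : Fin (d + 1), ∫ Y, ∑ j ∈ Finset.univ.erase i,
        (bS d Cᶜ i ∩ bS d Cᶜ j).indicator (fun _ => (1 : ℝ)) Y ∂(bmu d) =
        (d : ℝ) * ((sig (d + 1)).real Cᶜ) ^ 2 := by
      intro i
      rw [integral_finsetSum _ fun j _ => h3 i j]
      rw [Finset.sum_congr rfl fun j hj => bpair hC.compl (Finset.ne_of_mem_erase hj).symm]
      rw [Finset.sum_const, Finset.card_erase_of_mem (Finset.mem_univ i), Finset.card_univ,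
        Fintype.card_fin, nsmul_eq_mul]
      simp
    simp only [h6]
    rw [Finset.sum_const, Finset.card_univ, Fintype.card_fin, nsmul_eq_mul]
    push_cast
    ring
  have h7 : ∫ Y, ((bD d Y - ∑ i, (bS d Cᶜ i).indicator (bD d) Y) + (1 / 2) *
      ∑ i, ∑ j ∈ Finset.univ.erase i,
        (bS d Cᶜ i ∩ bS d Cᶜ j).indicator (fun _ => (1 : ℝ)) Y) ∂(bmu d) =
      Gdet d univ - ((d : ℝ) + 1) * ∫ x in Cᶜ, fdet d x ∂sig (d + 1) +
      ((d : ℝ) * (d + 1) / 2) * ((sig (d + 1)).real Cᶜ) ^ 2 := by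
    rw [integral_add h1 (h4.const_mul _), h2, integral_const_mul, h5]
    ring
  rw [← h7, Gdet_eq d C hC]
  refine integral_mono_ae ((bD_int d).indicator (MeasurableSet.univ_pi fun _ => hC))
    (h1.add (h4.const_mul _)) ?_
  filter_upwards [bD_le d] with Y hY
  rw [bsum_row, bind_all, bsum_pair]
  have hD := bD_nonneg Y
  split_ifs with h
  · rw [h]
    simp
  · rcases Nat.lt_or_ge (bK d Cᶜ Y) 2 with h8 | h8
    · have h9 : bK d Cᶜ Y = 1 := by omega
      rw [h9]
      simp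
    · have hK : (2 : ℝ) ≤ bK d Cᶜ Y := by exact_mod_cast h8
      have hK2 : (0 : ℝ) ≤ ((bK d Cᶜ Y : ℝ) - 1) * (bK d Cᶜ Y - 2) :=
        mul_nonneg (by linarith) (by linarith)
      have hK3 : ((bK d Cᶜ Y : ℝ) - 1) * bD d Y ≤ ((bK d Cᶜ Y : ℝ) - 1) * 1 :=
        mul_le_mul_of_nonneg_left hY (by linarith)
      nlinarith

end Pool.Agent.Lib.MP_29b1bb_gt
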