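import Pool.Agent.Lib.MP_29b1bb_gt.SigV

/-!
# LM-Contr: contraction of the simplex towards a vertex

`sig_contract`: from `sig_vertex`: `sig (N+1)` is the law of `Φ (r, y) = (1-r) e_i + r emb_i y`,
and `1 - t ≤ Φ (r, y) i = 1 - r` iff `r ≤ t`. So the left hand side is the image under `Φ` of
`((bet N).restrict (Iic t)).prod (sig N)`, and `(bet N).restrict (Iic t) =
ofReal (t^N) • (bet N).map (t * ·)` (compare on all `Iic u`, `Measure.ext_of_Iic`, `bet_Iic`);
finally `Φ (t r', y) = (1-t) e_i + t Φ (r', y)`.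
-/

set_option autoImplicit false

open MeasureTheory Set

namespace Pool.Agent.Lib.MP_29b1bb_gt

theorem bet_Iic_neg (m : ℕ) {a : ℝ} (ha : a ≤ 0) : bet m (Iic a) = 0 := by
  have h := bet_ae_mem m
  rw [ae_iff] at h
  refine measure_mono_null ?_ h
  intro x hx
  simp only [mem_Iic] at hx
  simp only [mem_Ioc, mem_ofPred_eq, not_and_or, not_lt, not_le]
  exact Or.inl (hx.trans ha)

theorem bet_Iic_big (m : ℕ) (hm : 0 < m) {a : ℝ} (ha : 1 ≤ a) : bet m (Iic a) = 1 := by
  have := instProbBet m hm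
  have h2 : bet m (Iic a) = bet m univ := by
    refine measure_congr ?_
    filter_upwards [bet_ae_mem m] with x hx
    apply propext
    constructor
    · intro _; trivial
    · intro _; exact hx.2.trans ha
  rw [h2]; exact measure_univ

theorem bet_restrict_Iic (m : ℕ) (hm : 0 < m) {t : ℝ} (ht : 0 < t) (ht1 : t ≤ 1) :
    (bet m).restrict (Iic t) = ENNReal.ofReal (t ^ m) • (bet m).map (fun g => t * g) := by
  have := instProbBet m hm
  have hmeas : Measurable (fun g : ℝ => t * g) := by fun_prop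
  refine Measure.ext_of_Iic _ _ fun a => ?_
  rw [Measure.restrict_apply measurableSet_Iic, Iic_inter_Iic, Measure.smul_apply,
    Measure.map_apply hmeas measurableSet_Iic, smul_eq_mul]
  have h1 : (fun g : ℝ => t * g) ⁻¹' Iic a = Iic (a / t) := by
    ext x
    simp only [mem_preimage, mem_Iic]
    rw [le_div_iff₀ ht, mul_comm]
  rw [h1]
  rcases le_or_gt a 0 with ha | ha
  · rw [bet_Iic_neg m (a := a ⊓ t) ((min_le_left a t).trans ha),
      bet_Iic_neg m (a := a / t) (div_nonpos_of_nonpos_of_nonneg ha ht.le), mul_zero]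
  rcases le_or_gt a t with hat | hat
  · have h2 : a ⊓ t = a := min_eq_left hat
    rw [h2, bet_Iic m hm a ha.le (hat.trans ht1),
      bet_Iic m hm (a / t) (div_nonneg ha.le ht.le) ((div_le_one ht).2 hat),
      ← ENNReal.ofReal_mul (by positivity)]
    congr 1
    rw [← mul_pow]
    congr 1
    field_simp
  · have h2 : a ⊓ t = t := min_eq_right hat.le
    rw [h2, bet_Iic m hm t ht.le ht1, bet_Iic_big m hm ((one_le_div ht).2 hat.le), mul_one]

theorem measurable_cone_vertex (N : ℕ) (i : Fin (N + 1)) :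
    Measurable (fun q : ℝ × (Fin N → ℝ) =>
      (1 - q.1) • (Pi.single i (1 : ℝ) : Fin (N + 1) → ℝ) + q.1 • emb i q.2) := by
  have h : Continuous (fun q : ℝ × (Fin N → ℝ) =>
      (1 - q.1) • (Pi.single i (1 : ℝ) : Fin (N + 1) → ℝ) + q.1 • emb i q.2) := by
    have h1 : Continuous (fun q : ℝ × (Fin N → ℝ) => emb i q.2) :=
      (continuous_emb i).comp continuous_snd
    fun_prop
  exact h.measurable

theorem sig_contract (N : ℕ) (hN : 0 < N) (i : Fin (N + 1)) (t : ℝ) (ht : 0 < t) (ht1 : t ≤ 1) :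
    (sig (N + 1)).restrict {x | 1 - t ≤ x i} = ENNReal.ofReal (t ^ N) •
      (sig (N + 1)).map (fun z => (1 - t) • (Pi.single i (1 : ℝ) : Fin (N + 1) → ℝ) + t • z) := by
  have := instProbBet N hN
  have hΦ := measurable_cone_vertex N i
  set Φ : ℝ × (Fin N → ℝ) → (Fin (N + 1) → ℝ) := fun q =>
    (1 - q.1) • (Pi.single i (1 : ℝ) : Fin (N + 1) → ℝ) + q.1 • emb i q.2 with hΦdef
  have hA : MeasurableSet {x : Fin (N + 1) → ℝ | 1 - t ≤ x i} :=
    measurableSet_le measurable_const (measurable_pi_apply i)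
  have hΨ : Measurable (fun z : Fin (N + 1) → ℝ =>
      (1 - t) • (Pi.single i (1 : ℝ) : Fin (N + 1) → ℝ) + t • z) := by
    have : Continuous (fun z : Fin (N + 1) → ℝ =>
      (1 - t) • (Pi.single i (1 : ℝ) : Fin (N + 1) → ℝ) + t • z) := by fun_prop
    exact this.measurable
  have hs : sig (N + 1) = ((bet N).prod (sig N)).map Φ := sig_vertex N hN i
  rw [hs, Measure.restrict_map hΦ hA, Measure.map_map hΨ hΦ]
  have hpre : Φ ⁻¹' {x : Fin (N + 1) → ℝ | 1 - t ≤ x i} = Iic t ×ˢ (univ : Set (Fin N → ℝ)) := by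
    ext q
    simp only [hΦdef, mem_preimage, mem_ofPred_eq, Pi.add_apply, Pi.smul_apply, Pi.single_eq_same,
      emb_apply_same, smul_eq_mul, mul_one, mul_zero, add_zero, mem_prod, mem_Iic, mem_univ,
      and_true]
    constructor <;> intro h <;> linarith
  rw [hpre, ← Measure.prod_restrict, Measure.restrict_univ, bet_restrict_Iic N hN ht ht1,
    Measure.prod_smul_left, Measure.map_smul]
  congr 1
  have hmeas : Measurable (fun g : ℝ => t * g) := by fun_prop
  have h3 : (Measure.map (fun g => t * g) (bet N)).prod (sig N) =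
      ((bet N).prod (sig N)).map (Prod.map (fun g => t * g) id) := by
    have := Measure.map_prod_map (bet N) (sig N) hmeas (measurable_id (α := Fin N → ℝ))
    rw [Measure.map_id] at this
    exact this
  rw [h3, Measure.map_map hΦ (hmeas.prodMap measurable_id)]
  congr 1
  funext q
  simp only [Function.comp_apply, hΦdef, Prod.map_fst, Prod.map_snd, id_eq]
  rw [smul_add, smul_smul, smul_smul, ← add_assoc, ← add_smul]
  congr 2
  ring

/-- the measure of the image of `B ⊆ Δ` under the contraction (image written as a preimage) -/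
theorem sig_contract_apply (N : ℕ) (hN : 0 < N) (i : Fin (N + 1)) (t : ℝ) (ht : 0 < t) (ht1 : t ≤ 1)
    (B : Set (Fin (N + 1) → ℝ)) (hB : MeasurableSet B) :
    ENNReal.ofReal (t ^ N) * sig (N + 1)
      ((fun z => (1 - t) • (Pi.single i (1 : ℝ) : Fin (N + 1) → ℝ) + t • z) ⁻¹' B) ≤
      sig (N + 1) B := by
  have hΨ : Measurable (fun z : Fin (N + 1) → ℝ =>
      (1 - t) • (Pi.single i (1 : ℝ) : Fin (N + 1) → ℝ) + t • z) := by
    have : Continuous (fun z : Fin (N + 1) → ℝ =>
      (1 - t) • (Pi.single i (1 : ℝ) : Fin (N + 1) → ℝ) + t • z) := by fun_prop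
    exact this.measurable
  have h := congrArg (fun μ : Measure (Fin (N + 1) → ℝ) => μ B) (sig_contract N hN i t ht ht1)
  simp only [Measure.smul_apply, smul_eq_mul] at h
  rw [Measure.map_apply hΨ hB] at h
  rw [← h]
  exact Measure.restrict_apply_le _ _

/-- neighbourhoods of the vertices have positive measure -/
theorem sig_vertex_nhds (N : ℕ) (hN : 0 < N) (i : Fin (N + 1)) (t : ℝ) (ht : 0 < t) (ht1 : t ≤ 1) :
    sig (N + 1) {x | x ∈ stdSimplex ℝ (Fin (N + 1)) ∧ 1 - t ≤ x i} = ENNReal.ofReal (t ^ N) := by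
  have hΨ : Measurable (fun z : Fin (N + 1) → ℝ =>
      (1 - t) • (Pi.single i (1 : ℝ) : Fin (N + 1) → ℝ) + t • z) := by
    have : Continuous (fun z : Fin (N + 1) → ℝ =>
      (1 - t) • (Pi.single i (1 : ℝ) : Fin (N + 1) → ℝ) + t • z) := by fun_prop
    exact this.measurable
  have h := congrArg (fun μ : Measure (Fin (N + 1) → ℝ) => μ univ) (sig_contract N hN i t ht ht1)
  simp only [Measure.smul_apply, smul_eq_mul] at h
  rw [Measure.map_apply hΨ MeasurableSet.univ, preimage_univ,
    Measure.restrict_apply_univ, measure_univ, mul_one] at h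
  rw [← h]
  refine measure_congr ?_
  filter_upwards [sig_ae_mem (N + 1) (Nat.succ_pos N)] with x hx
  apply propext
  constructor
  · intro h; exact h.2
  · intro h; exact ⟨hx, h⟩

end Pool.Agent.Lib.MP_29b1bb_gt
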