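import Pool.Agent.Lib.MP_29b1bb_gt.Basic

/-!
# LM-DetB: absolute determinants

`abs_det_le`: `|det Y| ≤ ∑_π ∏ |Y i (π i)| ≤ ∏_i ∑_j |Y i j|` (`Matrix.det_apply'`, `Finset.prod_univ_sum`,
`Fintype.piFinset`; the sum over permutations is a part of the sum over all functions). `abs_det_rows`,
`abs_det_cols`: `Matrix.det_permute`, `Matrix.det_permute'` (the sign has absolute value one).
`ae_rows_mem`: `sig_ae_mem` and `Measure.quasiMeasurePreserving_eval`.
-/

set_option autoImplicit false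

open MeasureTheory Set

namespace Pool.Agent.Lib.MP_29b1bb_gt

theorem abs_det_le {n : ℕ} (Y : Fin n → Fin n → ℝ) :
    |Matrix.det (Matrix.of Y)| ≤ ∏ i, ∑ j, |Y i j| := by
  classical
  rw [← Matrix.det_transpose, Matrix.det_apply']
  refine (Finset.abs_sum_le_sum_abs _ _).trans ?_
  have h1 : ∀ σ : Equiv.Perm (Fin n),
      |((Equiv.Perm.sign σ : ℤ) : ℝ) * ∏ i, (Matrix.of Y).transpose (σ i) i| =
        ∏ i, |Y i (σ i)| := by
    intro σ
    rw [abs_mul, Finset.abs_prod]
    have h2 : |((Equiv.Perm.sign σ : ℤ) : ℝ)| = 1 := by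
      rcases Int.units_eq_one_or (Equiv.Perm.sign σ) with h | h <;> rw [h] <;> simp
    rw [h2, one_mul]
    rfl
  rw [Finset.sum_congr rfl fun σ _ => h1 σ, Finset.prod_univ_sum]
  have h3 : ∑ σ : Equiv.Perm (Fin n), ∏ i, |Y i (σ i)| =
      ∑ p ∈ Finset.univ.image (fun σ : Equiv.Perm (Fin n) => (σ : Fin n → Fin n)),
        ∏ i, |Y i (p i)| := by
    rw [Finset.sum_image]
    intro σ _ τ _ h
    exact Equiv.coe_fn_injective h
  rw [h3]
  refine Finset.sum_le_sum_of_subset_of_nonneg ?_ fun p _ _ => ?_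
  · intro p _
    rw [Fintype.mem_piFinset]
    exact fun i => Finset.mem_univ _
  · exact Finset.prod_nonneg fun i _ => abs_nonneg _

theorem abs_det_le_one {n : ℕ} {Y : Fin n → Fin n → ℝ} (hY : ∀ i, Y i ∈ stdSimplex ℝ (Fin n)) :
    |Matrix.det (Matrix.of Y)| ≤ 1 := by
  refine (abs_det_le Y).trans (le_of_eq ?_)
  refine Finset.prod_eq_one fun i _ => ?_
  rw [← (hY i).2]
  exact Finset.sum_congr rfl fun j _ => abs_of_nonneg ((hY i).1 j)

theorem abs_det_rows {n : ℕ} (π : Equiv.Perm (Fin n)) (Y : Fin n → Fin n → ℝ) :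
    |Matrix.det (Matrix.of (fun i => Y (π i)))| = |Matrix.det (Matrix.of Y)| := by
  have h := Matrix.det_permute π (Matrix.of Y)
  have e : (Matrix.of Y).submatrix π id = Matrix.of (fun i => Y (π i)) := rfl
  rw [e] at h
  rw [h, abs_mul]
  have h2 : |((Equiv.Perm.sign π : ℤ) : ℝ)| = 1 := by
    rcases Int.units_eq_one_or (Equiv.Perm.sign π) with h | h <;> rw [h] <;> simp
  rw [h2, one_mul]

theorem abs_det_cols {n : ℕ} (π : Equiv.Perm (Fin n)) (Y : Fin n → Fin n → ℝ) :
    |Matrix.det (Matrix.of (fun i => Y i ∘ π))| = |Matrix.det (Matrix.of Y)| := by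
  have h := Matrix.det_permute' π (Matrix.of Y)
  have e : (Matrix.of Y).submatrix id π = Matrix.of (fun i => Y i ∘ π) := rfl
  rw [e] at h
  rw [h, abs_mul]
  have h2 : |((Equiv.Perm.sign π : ℤ) : ℝ)| = 1 := by
    rcases Int.units_eq_one_or (Equiv.Perm.sign π) with h | h <;> rw [h] <;> simp
  rw [h2, one_mul]

theorem continuous_abs_det (n : ℕ) :
    Continuous (fun Y : Fin n → Fin n → ℝ => |Matrix.det (Matrix.of Y)|) := by
  refine Continuous.abs (Continuous.matrix_det ?_)
  exact continuous_id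

/-- almost surely all rows are in the simplex -/
theorem ae_rows_mem (k n : ℕ) (hn : 0 < n) :
    ∀ᵐ Y ∂(Measure.pi fun _ : Fin k => sig n), ∀ i, Y i ∈ stdSimplex ℝ (Fin n) := by
  rw [ae_all_iff]
  intro i
  exact (Measure.quasiMeasurePreserving_eval (fun _ : Fin k => sig n) i).ae (sig_ae_mem n hn)

theorem integrable_abs_det (n : ℕ) (hn : 0 < n) :
    Integrable (fun Y : Fin n → Fin n → ℝ => |Matrix.det (Matrix.of Y)|)
      (Measure.pi fun _ : Fin n => sig n) := by
  refine Integrable.of_bound (C := 1) (continuous_abs_det n).measurable.aestronglyMeasurable ?_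
  filter_upwards [ae_rows_mem n n hn] with Y hY
  rw [Real.norm_eq_abs, abs_abs]
  exact abs_det_le_one hY

end Pool.Agent.Lib.MP_29b1bb_gt
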