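import Mathlib

/-!
# LM-DetR: the determinant after rescaling all columns but one, keeping the row sums

The column `j` of the new matrix is `1 - ∑_{l ≠ j} (new column l)`. Adding all the other columns to the
column `j` does not change the determinant (`Matrix.det_updateCol_add_smul_self`, or
`Matrix.det_updateCol_sum`, or write the matrices as products), so both determinants can be computed
with the column `j` replaced by the constant column `1`; for the new matrix the other columns are
`a k * U_k`, pull out the factors (`Matrix.det_mul_row`: `det (of fun i j => v j * A i j) = (∏ v) * det A`,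
with `v j = 1`).
-/

set_option autoImplicit false

namespace Pool.Agent.Lib.MP_29b1bb_gt

theorem det_rescale {d : ℕ} (U : Matrix (Fin (d + 1)) (Fin (d + 1)) ℝ) (hU : ∀ i, ∑ j, U i j = 1)
    (j : Fin (d + 1)) (a : Fin (d + 1) → ℝ) :
    (Matrix.of fun i k => if k = j then 1 - ∑ l ∈ Finset.univ.erase j, a l * U i l
      else a k * U i k : Matrix (Fin (d + 1)) (Fin (d + 1)) ℝ).det =
      (∏ k ∈ Finset.univ.erase j, a k) * U.det := by
  obtain ⟨W, hW⟩ : ∃ W : Matrix (Fin (d + 1)) (Fin (d + 1)) ℝ,
      W = U.updateCol j (fun k => ∑ i, (fun _ => (1 : ℝ)) i • U k i) := ⟨_, rfl⟩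
  have h1 : W.det = U.det := by
    rw [hW, Matrix.det_updateCol_sum, one_smul]
  obtain ⟨a', ha'⟩ : ∃ a' : Fin (d + 1) → ℝ, a' = fun k => if k = j then 1 else a k := ⟨_, rfl⟩
  obtain ⟨V, hV⟩ : ∃ V : Matrix (Fin (d + 1)) (Fin (d + 1)) ℝ,
      V = Matrix.of (fun i k => a' k * W i k) := ⟨_, rfl⟩
  have h2 : V.det = (∏ k, a' k) * W.det := by
    rw [hV, Matrix.det_mul_row]
  have h3 : ∏ k, a' k = ∏ k ∈ Finset.univ.erase j, a k := by
    rw [← Finset.mul_prod_erase Finset.univ a' (Finset.mem_univ j)]
    have : a' j = 1 := by rw [ha']; simp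
    rw [this, one_mul]
    refine Finset.prod_congr rfl fun k hk => ?_
    rw [ha']
    simp [Finset.ne_of_mem_erase hk]
  have hWj : ∀ i, W i j = 1 := by
    intro i
    rw [hW, Matrix.updateCol_self]
    simp [hU i]
  have hWk : ∀ i k, k ≠ j → W i k = U i k := by
    intro i k hk
    rw [hW, Matrix.updateCol_ne hk]
  have hVj : ∀ i, V i j = 1 := by
    intro i
    rw [hV, Matrix.of_apply, hWj, ha']
    simp
  have hVk : ∀ i k, k ≠ j → V i k = a k * U i k := by
    intro i k hk
    rw [hV, Matrix.of_apply, hWk i k hk, ha']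
    simp [hk]
  have h4 : (Matrix.of fun i k => if k = j then 1 - ∑ l ∈ Finset.univ.erase j, a l * U i l
      else a k * U i k : Matrix (Fin (d + 1)) (Fin (d + 1)) ℝ) =
      V.updateCol j (fun k => ∑ i, (fun i => if i = j then (1 : ℝ) else -1) i • V k i) := by
    ext i k
    rw [Matrix.of_apply]
    by_cases hk : k = j
    · rw [if_pos hk, hk, Matrix.updateCol_self]
      rw [← Finset.add_sum_erase Finset.univ _ (Finset.mem_univ j)]
      simp only [if_true, one_smul, hVj]
      rw [sub_eq_add_neg, ← Finset.sum_neg_distrib]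
      congr 1
      refine Finset.sum_congr rfl fun l hl => ?_
      rw [if_neg (Finset.ne_of_mem_erase hl), hVk i l (Finset.ne_of_mem_erase hl)]
      simp
    · rw [if_neg hk, Matrix.updateCol_ne hk, hVk i k hk]
  rw [h4, Matrix.det_updateCol_sum]
  simp only [if_true, one_smul]
  rw [h2, h3, h1]

end Pool.Agent.Lib.MP_29b1bb_gt
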