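import Pool.Agent.Lib.MP_29b1bb_gt.Sym
import Pool.Agent.Lib.MP_29b1bb_gt.DetB

/-!
# LM-FDet: the function `fdet`

For `Y` with all rows in the simplex (almost all `Y`, `ae_rows_mem`), `x ↦ |det (Fin.cons x Y)|` is
absolutely homogeneous and subadditive (linearity of the determinant in the first row) and
at most `∑ i, |x i|`; integrate.
-/

set_option autoImplicit false

open MeasureTheory Set

namespace Pool.Agent.Lib.MP_29b1bb_gt

/-- the law of the rows -/
theorem fdet_continuous_integrand (d : ℕ) (x : Fin (d + 1) → ℝ) :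
    Continuous (fun Y : Fin d → (Fin (d + 1) → ℝ) =>
      |Matrix.det (Matrix.of (Fin.cons x Y : Fin (d + 1) → Fin (d + 1) → ℝ))|) := by
  refine Continuous.abs (Continuous.matrix_det ?_)
  refine continuous_matrix fun i j => ?_
  simp only [Matrix.of_apply]
  refine Fin.cases ?_ (fun k => ?_) i
  · simp only [Fin.cons_zero]; exact continuous_const
  · simp only [Fin.cons_succ]
    exact (continuous_apply j).comp (continuous_apply k)

theorem fdet_bound (d : ℕ) (x : Fin (d + 1) → ℝ) {Y : Fin d → (Fin (d + 1) → ℝ)}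
    (hY : ∀ i, Y i ∈ stdSimplex ℝ (Fin (d + 1))) :
    |Matrix.det (Matrix.of (Fin.cons x Y : Fin (d + 1) → Fin (d + 1) → ℝ))| ≤ ∑ i, |x i| := by
  refine (abs_det_le _).trans (le_of_eq ?_)
  rw [Fin.prod_univ_succ]
  simp only [Fin.cons_zero, Fin.cons_succ]
  have h : ∏ i, ∑ j, |Y i j| = 1 := by
    refine Finset.prod_eq_one fun i _ => ?_
    rw [← (hY i).2]
    exact Finset.sum_congr rfl fun j _ => abs_of_nonneg ((hY i).1 j)
  rw [h, mul_one]

theorem fdet_integrable (d : ℕ) (x : Fin (d + 1) → ℝ) :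
    Integrable (fun Y : Fin d → (Fin (d + 1) → ℝ) =>
      |Matrix.det (Matrix.of (Fin.cons x Y : Fin (d + 1) → Fin (d + 1) → ℝ))|)
      (Measure.pi fun _ => sig (d + 1)) := by
  refine Integrable.of_bound (C := ∑ i, |x i|)
    (fdet_continuous_integrand d x).measurable.aestronglyMeasurable ?_
  filter_upwards [ae_rows_mem d (d + 1) (Nat.succ_pos d)] with Y hY
  rw [Real.norm_eq_abs, abs_abs]
  exact fdet_bound d x hY

theorem det_cons_add (d : ℕ) (x y : Fin (d + 1) → ℝ) (Y : Fin d → (Fin (d + 1) → ℝ)) :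
    Matrix.det (Matrix.of (Fin.cons (x + y) Y : Fin (d + 1) → Fin (d + 1) → ℝ)) =
      Matrix.det (Matrix.of (Fin.cons x Y : Fin (d + 1) → Fin (d + 1) → ℝ)) +
      Matrix.det (Matrix.of (Fin.cons y Y : Fin (d + 1) → Fin (d + 1) → ℝ)) := by
  have h : ∀ z : Fin (d + 1) → ℝ,
      Matrix.of (Fin.cons z Y : Fin (d + 1) → Fin (d + 1) → ℝ) =
        (Matrix.of (Fin.cons 0 Y : Fin (d + 1) → Fin (d + 1) → ℝ)).updateRow 0 z := by
    intro z
    ext i j
    refine Fin.cases ?_ (fun k => ?_) i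
    · simp [Matrix.updateRow_self]
    · rw [Matrix.updateRow_ne (Fin.succ_ne_zero k)]; simp
  rw [h (x + y), h x, h y, Matrix.det_updateRow_add]

theorem det_cons_smul (d : ℕ) (c : ℝ) (x : Fin (d + 1) → ℝ) (Y : Fin d → (Fin (d + 1) → ℝ)) :
    Matrix.det (Matrix.of (Fin.cons (c • x) Y : Fin (d + 1) → Fin (d + 1) → ℝ)) =
      c * Matrix.det (Matrix.of (Fin.cons x Y : Fin (d + 1) → Fin (d + 1) → ℝ)) := by
  have h : ∀ z : Fin (d + 1) → ℝ,
      Matrix.of (Fin.cons z Y : Fin (d + 1) → Fin (d + 1) → ℝ) =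
        (Matrix.of (Fin.cons 0 Y : Fin (d + 1) → Fin (d + 1) → ℝ)).updateRow 0 z := by
    intro z
    ext i j
    refine Fin.cases ?_ (fun k => ?_) i
    · simp [Matrix.updateRow_self]
    · rw [Matrix.updateRow_ne (Fin.succ_ne_zero k)]; simp
  rw [h (c • x), h x, Matrix.det_updateRow_smul]

theorem fdet_nonneg (d : ℕ) (x : Fin (d + 1) → ℝ) : 0 ≤ fdet d x := by
  unfold fdet
  exact integral_nonneg fun Y => abs_nonneg _

theorem fdet_add_le (d : ℕ) (x y : Fin (d + 1) → ℝ) : fdet d (x + y) ≤ fdet d x + fdet d y := by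
  unfold fdet
  rw [← integral_add (fdet_integrable d x) (fdet_integrable d y)]
  refine integral_mono (fdet_integrable d (x + y))
    ((fdet_integrable d x).add (fdet_integrable d y)) fun Y => ?_
  simp only [det_cons_add]
  exact abs_add_le _ _

theorem fdet_smul (d : ℕ) (c : ℝ) (x : Fin (d + 1) → ℝ) : fdet d (c • x) = |c| * fdet d x := by
  unfold fdet
  rw [← integral_const_mul]
  refine integral_congr_ae (Filter.Eventually.of_forall fun Y => ?_)
  simp only [det_cons_smul, abs_mul]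

theorem fdet_le_sum (d : ℕ) (x : Fin (d + 1) → ℝ) : fdet d x ≤ ∑ i, |x i| := by
  unfold fdet
  have h1 : ∫ Y : Fin d → (Fin (d + 1) → ℝ),
      |Matrix.det (Matrix.of (Fin.cons x Y : Fin (d + 1) → Fin (d + 1) → ℝ))|
        ∂(Measure.pi fun _ => sig (d + 1)) ≤
      ∫ _Y : Fin d → (Fin (d + 1) → ℝ), ∑ i, |x i| ∂(Measure.pi fun _ => sig (d + 1)) := by
    refine integral_mono_ae (fdet_integrable d x) (integrable_const _) ?_
    filter_upwards [ae_rows_mem d (d + 1) (Nat.succ_pos d)] with Y hY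
    exact fdet_bound d x hY
  refine h1.trans (le_of_eq ?_)
  rw [integral_const]
  simp

theorem fdet_perm (d : ℕ) (π : Equiv.Perm (Fin (d + 1))) (x : Fin (d + 1) → ℝ) :
    fdet d (x ∘ π) = fdet d x := by
  unfold fdet
  have hm : (Measure.pi fun _ : Fin d => sig (d + 1)) =
      (Measure.pi fun _ : Fin d => sig (d + 1)).map
        (fun (Y : Fin d → (Fin (d + 1) → ℝ)) i => Y i ∘ π) := by
    have hmeas : Measurable (fun y : Fin (d + 1) → ℝ => y ∘ π) :=
      measurable_pi_lambda _ fun k => measurable_pi_apply (π k)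
    have : ∀ i : Fin d, SigmaFinite (Measure.map (fun y : Fin (d + 1) → ℝ => y ∘ π)
        (sig (d + 1))) := by
      intro i; rw [sig_perm]; infer_instance
    rw [Measure.pi_map_pi (μ := fun _ : Fin d => sig (d + 1))
      (f := fun _ : Fin d => fun y : Fin (d + 1) → ℝ => y ∘ π)
      (fun _ => hmeas.aemeasurable)]
    simp only [sig_perm]
  conv_lhs => rw [hm]
  have hmeas2 : Measurable (fun (Y : Fin d → (Fin (d + 1) → ℝ)) i => Y i ∘ π) := by
    refine measurable_pi_lambda _ fun i => measurable_pi_lambda _ fun k => ?_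
    exact (measurable_pi_apply (π k)).comp (measurable_pi_apply i)
  rw [integral_map hmeas2.aemeasurable
    (fdet_continuous_integrand d (x ∘ π)).measurable.aestronglyMeasurable]
  refine integral_congr_ae (Filter.Eventually.of_forall fun Y => ?_)
  have h := abs_det_cols π (Fin.cons x Y : Fin (d + 1) → Fin (d + 1) → ℝ)
  have e : (fun i => (Fin.cons x Y : Fin (d + 1) → Fin (d + 1) → ℝ) i ∘ π) =
      (Fin.cons (x ∘ π) (fun i => Y i ∘ π) : Fin (d + 1) → Fin (d + 1) → ℝ) := by
    funext i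
    refine Fin.cases ?_ (fun k => ?_) i
    · rfl
    · rfl
  rw [e] at h
  exact h

theorem fdet_lipschitz (d : ℕ) (x y : Fin (d + 1) → ℝ) :
    |fdet d x - fdet d y| ≤ ∑ i, |x i - y i| := by
  have h1 : fdet d x ≤ fdet d (x - y) + fdet d y := by
    have := fdet_add_le d (x - y) y
    rwa [sub_add_cancel] at this
  have h2 : fdet d y ≤ fdet d (y - x) + fdet d x := by
    have := fdet_add_le d (y - x) x
    rwa [sub_add_cancel] at this
  have h3 := fdet_le_sum d (x - y)
  have h4 := fdet_le_sum d (y - x)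
  have h5 : ∑ i, |(y - x) i| = ∑ i, |x i - y i| := by
    refine Finset.sum_congr rfl fun i _ => ?_
    rw [Pi.sub_apply, abs_sub_comm]
  have h6 : ∑ i, |(x - y) i| = ∑ i, |x i - y i| := rfl
  rw [h5] at h4
  rw [h6] at h3
  rw [abs_le]
  constructor <;> linarith

theorem fdet_continuous (d : ℕ) : Continuous (fdet d) := by
  rw [continuous_iff_continuousAt]
  intro x
  have h : Filter.Tendsto (fun y : Fin (d + 1) → ℝ => ∑ i, |y i - x i|) (nhds x) (nhds 0) := by
    have hc : Continuous (fun y : Fin (d + 1) → ℝ => ∑ i, |y i - x i|) := by fun_prop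
    have := hc.tendsto x
    simpa using this
  rw [ContinuousAt, tendsto_iff_norm_sub_tendsto_zero]
  refine squeeze_zero (fun _ => norm_nonneg _) (fun y => ?_) h
  rw [Real.norm_eq_abs]
  exact fdet_lipschitz d y x

theorem fdet_convex (d : ℕ) : ConvexOn ℝ univ (fdet d) := by
  refine ⟨convex_univ, fun x _ y _ a b ha hb _ => ?_⟩
  refine (fdet_add_le d _ _).trans (le_of_eq ?_)
  rw [fdet_smul, fdet_smul, abs_of_nonneg ha, abs_of_nonneg hb]
  simp only [smul_eq_mul]

theorem fdet_le_one (d : ℕ) {x : Fin (d + 1) → ℝ} (hx : x ∈ stdSimplex ℝ (Fin (d + 1))) :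
    fdet d x ≤ 1 := by
  refine (fdet_le_sum d x).trans (le_of_eq ?_)
  rw [← hx.2]
  exact Finset.sum_congr rfl fun j _ => abs_of_nonneg (hx.1 j)

theorem fdet_emb_eq (d : ℕ) (i j : Fin (d + 1)) (y : Fin d → ℝ) :
    fdet d (emb i y) = fdet d (emb j y) := by
  obtain ⟨π, hπ⟩ := emb_perm (N := d) i j
  rw [hπ y, fdet_perm]

theorem fdet_symConv (d : ℕ) (j : Fin (d + 1)) : SymConv d (fun y => fdet d (emb j y)) := by
  refine ⟨?_, ?_, ?_, ?_⟩
  · exact ((fdet_continuous d).comp (continuous_emb j)).measurable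
  · refine ⟨convex_stdSimplex ℝ (Fin d), fun x _ y _ a b ha hb hab => ?_⟩
    have h := (fdet_convex d).2 (mem_univ (emb j x)) (mem_univ (emb j y)) ha hb hab
    simp only [emb_add, emb_smul]
    exact h
  · intro π x _
    obtain ⟨π', hπ'⟩ := emb_comp_perm (N := d) j π
    show fdet d (emb j (x ∘ π)) = fdet d (emb j x)
    rw [hπ' x, fdet_perm]
  · refine ⟨1, fun x hx => ?_⟩
    rw [abs_of_nonneg (fdet_nonneg d _)]
    exact fdet_le_one d (emb_mem j hx)

end Pool.Agent.Lib.MP_29b1bb_gt
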