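import Pool.Agent.Lib.MP_29b1bb_gt.FDet
import Pool.Agent.Lib.MP_29b1bb_gt.Contr

/-!
# LM-Scal: scaling

`C = {x | 1 - t ≤ x j}`. `(Measure.pi fun _ => sig (d+1)).restrict (pi univ fun _ => C) =
Measure.pi fun _ => (sig (d+1)).restrict C` (`Measure.restrict_pi_pi`)
`= Measure.pi fun _ => ofReal (t^d) • (sig (d+1)).map L` by `sig_contract`, `L z = (1-t) • e_j + t • z`,
`= ofReal (t^(d(d+1))) • (Measure.pi fun _ => sig (d+1)).map (fun Y i => L (Y i))`
(`Measure.pi_map_pi`; for the scalars use `Measure.pi_eq`). For rows `Z i` with sum one,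
`L (Z i) = Z i ᵥ* M`, `M = t • 1 + (1-t) • (matrix with column j equal to one, else zero)`, so
`det (fun i => L (Z i)) = det Z * det M`, `det M = t^d`
(`M` is triangular up to the order of the indices; e.g. expand along row `j`, which is `e_j`, or
`Matrix.det_one_add_mul_comm` / rank one update `Matrix.det_add_replicateCol_mul_replicateRow`).
Hence the claim: `t^(d(d+1)) * t^d = t^(d(d+2))`.
-/

set_option autoImplicit false

open MeasureTheory Set

namespace Pool.Agent.Lib.MP_29b1bb_gt

/-- the contraction towards the vertex `j` -/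
noncomputable def scL {d : ℕ} (j : Fin (d + 1)) (t : ℝ) (z : Fin (d + 1) → ℝ) : Fin (d + 1) → ℝ :=
  (1 - t) • (Pi.single j (1 : ℝ) : Fin (d + 1) → ℝ) + t • z

theorem scL_meas {d : ℕ} (j : Fin (d + 1)) (t : ℝ) : Measurable (scL j t) := by
  unfold scL
  fun_prop

/-- scaling a product of equal measures -/
theorem pi_smul_const {n : ℕ} {α : Type} [MeasurableSpace α] (μ : Measure α) [SigmaFinite μ]
    (c : NNReal) :
    (Measure.pi fun _ : Fin n => c • μ) =
      (c ^ n) • Measure.pi fun _ : Fin n => μ := by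
  refine Measure.pi_eq fun s _ => ?_
  rw [Measure.smul_apply, Measure.pi_pi]
  simp only [Measure.smul_apply]
  simp only [ENNReal.smul_def, smul_eq_mul]
  rw [Finset.prod_mul_distrib, Finset.prod_const, Finset.card_univ, Fintype.card_fin]
  push_cast
  rfl

theorem det_scL {d : ℕ} (j : Fin (d + 1)) (t : ℝ) (ht : t ≠ 0)
    (Z : Fin (d + 1) → Fin (d + 1) → ℝ) (hZ : ∀ i, ∑ k, Z i k = 1) :
    Matrix.det (Matrix.of fun i => scL j t (Z i)) = t ^ d * Matrix.det (Matrix.of Z) := by
  have h1 : (Matrix.of fun i => scL j t (Z i)) = Matrix.of Z *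
      (t • (1 + Matrix.replicateCol Unit (fun _ : Fin (d + 1) => (1 - t) / t) *
        Matrix.replicateRow Unit (Pi.single j (1 : ℝ) : Fin (d + 1) → ℝ))) := by
    ext i k
    rw [Matrix.mul_smul, Matrix.smul_apply, Matrix.mul_add, Matrix.mul_one, Matrix.add_apply,
      ← Matrix.mul_assoc, Matrix.mul_apply, Matrix.of_apply, Matrix.of_apply]
    simp only [Finset.univ_unique, Finset.sum_singleton, Matrix.replicateRow_apply,
      Matrix.mul_apply, Matrix.replicateCol_apply, Matrix.of_apply, scL, Pi.add_apply,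
      Pi.smul_apply, smul_eq_mul]
    rw [← Finset.sum_mul, hZ i]
    field_simp
    ring
  rw [h1, Matrix.det_mul, Matrix.det_smul, Matrix.det_one_add_replicateCol_mul_replicateRow,
    Fintype.card_fin]
  have h2 : (Pi.single j (1 : ℝ) : Fin (d + 1) → ℝ) ⬝ᵥ (fun _ : Fin (d + 1) => (1 - t) / t) =
      (1 - t) / t := by
    rw [single_one_dotProduct]
  rw [h2, pow_succ]
  field_simp
  ring

theorem Gdet_scal (d : ℕ) (hd : 0 < d) (j : Fin (d + 1)) (t : ℝ) (ht : 0 < t) (ht1 : t ≤ 1) :
    Gdet d {x | 1 - t ≤ x j} = t ^ (d * (d + 2)) * Gdet d univ := by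
  have hcd : Continuous fun Y : Fin (d + 1) → Fin (d + 1) → ℝ => |Matrix.det (Matrix.of Y)| :=
    (Continuous.matrix_det (by exact continuous_id)).abs
  have h1 : (Measure.pi fun _ : Fin (d + 1) => sig (d + 1)).restrict
      (Set.pi Set.univ fun _ : Fin (d + 1) => {x : Fin (d + 1) → ℝ | 1 - t ≤ x j}) =
      ((t.toNNReal ^ d) ^ (d + 1)) • (Measure.pi fun _ : Fin (d + 1) => sig (d + 1)).map
        (fun Y i => scL j t (Y i)) := by
    rw [Measure.restrict_pi_pi]
    have h2 : (sig (d + 1)).restrict {x | 1 - t ≤ x j} =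
        (t.toNNReal ^ d) • (sig (d + 1)).map (scL j t) := by
      rw [sig_contract d hd j t ht ht1]
      have h3 : ENNReal.ofReal (t ^ d) = ((t.toNNReal ^ d : NNReal) : ENNReal) := by
        rw [ENNReal.ofReal, Real.toNNReal_pow ht.le]
      rw [h3]
      rfl
    have : IsProbabilityMeasure ((sig (d + 1)).map (scL j t)) :=
      Measure.isProbabilityMeasure_map (scL_meas j t).aemeasurable
    rw [h2, pi_smul_const, Measure.pi_map_pi]
    exact fun _ => (scL_meas j t).aemeasurable
  unfold Gdet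
  rw [h1, integral_smul_nnreal_measure, integral_map]
  · have hae : ∀ᵐ Y ∂(Measure.pi fun _ : Fin (d + 1) => sig (d + 1)), ∀ i, ∑ k, Y i k = 1 := by
      rw [ae_all_iff]
      intro i
      have h4 := (Measure.quasiMeasurePreserving_eval (fun _ : Fin (d + 1) => sig (d + 1)) i).ae
        (sig_ae_mem (d + 1) (Nat.succ_pos d))
      filter_upwards [h4] with Y hY using hY.2
    have h5 : ∫ Y, |Matrix.det (Matrix.of fun i => scL j t (Y i))|
        ∂(Measure.pi fun _ : Fin (d + 1) => sig (d + 1)) =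
        ∫ Y, t ^ d * |Matrix.det (Matrix.of Y)| ∂(Measure.pi fun _ : Fin (d + 1) => sig (d + 1)) := by
      refine integral_congr_ae ?_
      filter_upwards [hae] with Y hY
      show |Matrix.det (Matrix.of fun i => scL j t (Y i))| = _
      rw [det_scL j t ht.ne' Y hY, abs_mul, abs_of_pos (pow_pos ht d)]
    rw [h5, integral_const_mul, Set.pi_univ Set.univ, Measure.restrict_univ]
    rw [NNReal.smul_def, smul_eq_mul]
    push_cast
    rw [Real.coe_toNNReal t ht.le]
    ring
  · exact (measurable_pi_lambda _ fun i => (scL_meas j t).comp (measurable_pi_apply i)).aemeasurable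
  · exact hcd.aestronglyMeasurable

end Pool.Agent.Lib.MP_29b1bb_gt
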