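import Pool.Agent.Lib.MP_29b1bb_gt.Bonf
import Pool.Agent.Lib.MP_29b1bb_gt.Scal

/-!
# LM-FMean: the mean of `fdet` over a facet

Let `0 < t < 1`, `C = {x | 1 - t ≤ x j}`, `E = ∫ y, fdet d (emb j y) ∂sig d`. `Gdet_scal` and
`bonf_lower` give `(1 - t^(d(d+2))) G ≤ (d+1) ∫ x in Cᶜ, fdet d x ∂sig (d+1)`, `G = Gdet d univ`.
`integral_vertex` for `φ x = if x ∈ Cᶜ then fdet d x else 0`: `x = (1-g) e_j + g emb j y` is in `Cᶜ`
iff `g > t`, and `fdet d x ≤ (1-g) fdet d e_j + g fdet d (emb j y) ≤ (1 - t) + fdet d (emb j y)`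
(`fdet_convex`/`fdet_add_le`, `fdet_smul`, `fdet_le_one`, `fdet_nonneg`). So
`∫ x in Cᶜ, fdet d x ∂sig (d+1) ≤ (1 - t^d) ((1 - t) + E)` (`bet_Iic`). Divide by `1 - t^d > 0`:
`(∑ k in range (d+2), (t^d)^k) G ≤ (d+1) ((1-t) + E)` (`geom_sum`, `Commute.geom_sum`…; `mul_neg_geom_sum`).
Let `t → 1`.
-/

set_option autoImplicit false

open MeasureTheory Set

namespace Pool.Agent.Lib.MP_29b1bb_gt

theorem facet_aux (d : ℕ) (hd : 0 < d) (j : Fin (d + 1)) (t : ℝ) (ht : 0 < t) (ht1 : t < 1) :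
    ∫ x in {x : Fin (d + 1) → ℝ | 1 - t ≤ x j}ᶜ, fdet d x ∂sig (d + 1) ≤
      (1 - t ^ d) * ((1 - t) + ∫ y, fdet d (emb j y) ∂sig d) := by
  set C : Set (Fin (d + 1) → ℝ) := {x | 1 - t ≤ x j} with hC
  set E : ℝ := ∫ y, fdet d (emb j y) ∂sig d with hE
  have hCm : MeasurableSet C := (isClosed_le continuous_const (continuous_apply j)).measurableSet
  have hfm : Measurable (fdet d) := (fdet_continuous d).measurable
  have hE0 : 0 ≤ E := integral_nonneg fun y => fdet_nonneg d _
  have hej : (Pi.single j (1 : ℝ) : Fin (d + 1) → ℝ) ∈ stdSimplex ℝ (Fin (d + 1)) :=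
    single_mem_stdSimplex ℝ j
  rw [← integral_indicator hCm.compl]
  have hprob : IsProbabilityMeasure (bet d) := instProbBet d hd
  have hφm : Measurable (Cᶜ.indicator (fdet d)) := hfm.indicator hCm.compl
  have hφb : ∀ x ∈ stdSimplex ℝ (Fin (d + 1)), |Cᶜ.indicator (fdet d) x| ≤ 1 := by
    intro x hx
    by_cases h : x ∈ Cᶜ
    · rw [indicator_of_mem h, abs_of_nonneg (fdet_nonneg d x)]
      exact fdet_le_one d hx
    · rw [indicator_of_notMem h]
      simp
  rw [integral_vertex d hd j _ hφm 1 hφb]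
  -- the inner integral
  have hin : ∀ᵐ g ∂(bet d), ∫ y, Cᶜ.indicator (fdet d)
      ((1 - g) • (Pi.single j (1 : ℝ) : Fin (d + 1) → ℝ) + g • emb j y) ∂sig d ≤
      (Ioi t).indicator (fun _ => (1 - t) + E) g := by
    filter_upwards [bet_ae_mem d] with g hg
    have hcoord : ∀ y : Fin d → ℝ,
        ((1 - g) • (Pi.single j (1 : ℝ) : Fin (d + 1) → ℝ) + g • emb j y) j = 1 - g := by
      intro y
      simp [emb_apply_same]
    by_cases hgt : t < g
    · rw [indicator_of_mem (show g ∈ Ioi t from hgt)]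
      have hle : ∀ᵐ y ∂(sig d), Cᶜ.indicator (fdet d)
          ((1 - g) • (Pi.single j (1 : ℝ) : Fin (d + 1) → ℝ) + g • emb j y) ≤
          (1 - t) + fdet d (emb j y) := by
        filter_upwards with y
        have h1 : Cᶜ.indicator (fdet d)
            ((1 - g) • (Pi.single j (1 : ℝ) : Fin (d + 1) → ℝ) + g • emb j y) ≤
            fdet d ((1 - g) • (Pi.single j (1 : ℝ) : Fin (d + 1) → ℝ) + g • emb j y) :=
          indicator_le_self' (fun x _ => fdet_nonneg d x) _
        have h2 := fdet_add_le d ((1 - g) • (Pi.single j (1 : ℝ) : Fin (d + 1) → ℝ)) (g • emb j y)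
        rw [fdet_smul, fdet_smul, abs_of_nonneg (by linarith [hg.2]), abs_of_pos hg.1] at h2
        have h3 := fdet_le_one d hej
        have h4 := fdet_nonneg d (Pi.single j (1 : ℝ) : Fin (d + 1) → ℝ)
        have h5 := fdet_nonneg d (emb j y)
        have h6 : (1 - g) * fdet d (Pi.single j (1 : ℝ) : Fin (d + 1) → ℝ) ≤ 1 - t := by
          have h7 : (1 - g) * fdet d (Pi.single j (1 : ℝ) : Fin (d + 1) → ℝ) ≤ (1 - g) * 1 :=
            mul_le_mul_of_nonneg_left h3 (by linarith [hg.2])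
          linarith
        have h8 : g * fdet d (emb j y) ≤ 1 * fdet d (emb j y) :=
          mul_le_mul_of_nonneg_right hg.2 h5
        linarith
      have hint2 : Integrable (fun y : Fin d → ℝ => fdet d (emb j y)) (sig d) := by
        refine integrable_sig (M := 1) hd (hfm.comp (measurable_emb j)) fun y hy => ?_
        rw [abs_of_nonneg (fdet_nonneg d _)]
        exact fdet_le_one d (emb_mem j hy)
      have hint1 : Integrable (fun y : Fin d → ℝ => Cᶜ.indicator (fdet d)
          ((1 - g) • (Pi.single j (1 : ℝ) : Fin (d + 1) → ℝ) + g • emb j y)) (sig d) := by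
        refine integrable_sig (M := 1) hd (hφm.comp ?_) fun y hy => ?_
        · exact (measurable_const.add ((measurable_emb j).const_smul g))
        · exact hφb _ (comb_mem hej (emb_mem j hy) hg.1.le hg.2)
      calc ∫ y, Cᶜ.indicator (fdet d)
            ((1 - g) • (Pi.single j (1 : ℝ) : Fin (d + 1) → ℝ) + g • emb j y) ∂sig d
          ≤ ∫ y, ((1 - t) + fdet d (emb j y)) ∂sig d :=
            integral_mono_ae hint1 ((integrable_const _).add hint2) hle
        _ = (1 - t) + E := by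
            rw [integral_add (integrable_const _) hint2]
            simp [hE]
    · rw [indicator_of_notMem (show g ∉ Ioi t from hgt)]
      refine le_of_eq ?_
      rw [← integral_zero (α := Fin d → ℝ) ℝ (μ := sig d)]
      congr 1
      funext y
      apply indicator_of_notMem
      rw [mem_compl_iff, not_not, hC, mem_ofPred_eq, hcoord y]
      push Not at hgt
      linarith
  have hint3 : Integrable ((Ioi t).indicator (fun _ : ℝ => (1 - t) + E)) (bet d) :=
    (integrable_const _).indicator measurableSet_Ioi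
  calc ∫ g, ∫ y, Cᶜ.indicator (fdet d)
        ((1 - g) • (Pi.single j (1 : ℝ) : Fin (d + 1) → ℝ) + g • emb j y) ∂sig d ∂bet d
      ≤ ∫ g, (Ioi t).indicator (fun _ : ℝ => (1 - t) + E) g ∂bet d := by
        refine integral_mono_of_nonneg (Filter.Eventually.of_forall fun g => ?_) hint3 hin
        exact integral_nonneg fun y => indicator_nonneg (fun x _ => fdet_nonneg d x) _
    _ = (1 - t ^ d) * ((1 - t) + E) := by
        rw [integral_indicator measurableSet_Ioi, setIntegral_const, smul_eq_mul]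
        congr 1
        have h1 : (bet d).real (Ioi t) = 1 - (bet d).real (Iic t) := by
          rw [← compl_Iic]
          exact probReal_compl_eq_one_sub measurableSet_Iic
        rw [h1, measureReal_def, bet_Iic d hd t ht.le ht1.le, ENNReal.toReal_ofReal (by positivity)]

theorem facet_mean (d : ℕ) (hd : 0 < d) (j : Fin (d + 1)) :
    (((d : ℝ) + 2) / ((d : ℝ) + 1)) * Gdet d univ ≤ ∫ y, fdet d (emb j y) ∂sig d := by
  set E : ℝ := ∫ y, fdet d (emb j y) ∂sig d with hE
  set G : ℝ := Gdet d univ with hG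
  have hd1 : (0 : ℝ) < (d : ℝ) + 1 := by positivity
  have key : ∀ t : ℝ, 0 < t → t < 1 →
      (∑ k ∈ Finset.range (d + 2), (t ^ d) ^ k) * G ≤ ((d : ℝ) + 1) * ((1 - t) + E) := by
    intro t ht ht1
    have hCm : MeasurableSet {x : Fin (d + 1) → ℝ | 1 - t ≤ x j} :=
      (isClosed_le continuous_const (continuous_apply j)).measurableSet
    have h1 := bonf_lower d {x : Fin (d + 1) → ℝ | 1 - t ≤ x j} hCm
    rw [Gdet_scal d hd j t ht ht1.le] at h1
    have h2 := facet_aux d hd j t ht ht1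
    rw [← hE] at h2
    have h3 : 0 < 1 - t ^ d := by
      have := pow_lt_one₀ ht.le ht1 hd.ne'
      linarith
    have h4 : (1 - t ^ d) * ∑ k ∈ Finset.range (d + 2), (t ^ d) ^ k = 1 - t ^ (d * (d + 2)) := by
      rw [mul_neg_geom_sum, ← pow_mul]
    have h5 : (1 - t ^ d) * ((∑ k ∈ Finset.range (d + 2), (t ^ d) ^ k) * G) ≤
        (1 - t ^ d) * (((d : ℝ) + 1) * ((1 - t) + E)) := by
      rw [← mul_assoc, h4]
      have h6 : ((d : ℝ) + 1) * ∫ x in {x : Fin (d + 1) → ℝ | 1 - t ≤ x j}ᶜ, fdet d x ∂sig (d + 1) ≤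
          ((d : ℝ) + 1) * ((1 - t ^ d) * ((1 - t) + E)) := mul_le_mul_of_nonneg_left h2 hd1.le
      linarith
    exact le_of_mul_le_mul_left h5 h3
  have hlim1 : Filter.Tendsto (fun t : ℝ => (∑ k ∈ Finset.range (d + 2), (t ^ d) ^ k) * G)
      (nhdsWithin 1 (Iio 1)) (nhds (((d : ℝ) + 2) * G)) := by
    have hc : Continuous (fun t : ℝ => (∑ k ∈ Finset.range (d + 2), (t ^ d) ^ k) * G) := by
      fun_prop
    have h1 := (hc.tendsto 1).mono_left (nhdsWithin_le_nhds (s := Iio (1 : ℝ)))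
    simpa using h1
  have hlim2 : Filter.Tendsto (fun t : ℝ => ((d : ℝ) + 1) * ((1 - t) + E))
      (nhdsWithin 1 (Iio 1)) (nhds (((d : ℝ) + 1) * E)) := by
    have hc : Continuous (fun t : ℝ => ((d : ℝ) + 1) * ((1 - t) + E)) := by
      fun_prop
    have h1 := (hc.tendsto 1).mono_left (nhdsWithin_le_nhds (s := Iio (1 : ℝ)))
    simpa using h1
  have hfin : ((d : ℝ) + 2) * G ≤ ((d : ℝ) + 1) * E := by
    refine le_of_tendsto_of_tendsto hlim1 hlim2 ?_
    have h0 : Ioo (0 : ℝ) 1 ∈ nhdsWithin (1 : ℝ) (Iio 1) := Ioo_mem_nhdsLT (by norm_num)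
    filter_upwards [h0] with t ht
    exact key t ht.1 ht.2
  rw [div_mul_eq_mul_div, div_le_iff₀ hd1]
  linarith

end Pool.Agent.Lib.MP_29b1bb_gt
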