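import Pool.Agent.Lib.MP_29b1bb_gt.Basic

/-!
# LM-Gam: radius and direction are independent

`s` exponential, `Y` with law `gam N` (`N > 0`), independent. The pair
`(|Y| / (s + |Y|), Y / |Y|)` (`|Y| = ∑ k, Y k`) has the law `(bet N).prod (sig N)`.

Proof. `Measure.prod_eq_of_...`: it suffices to compare on `Iic t ×ˢ B`, `B` measurable (use
`MeasureTheory.Measure.prod_eq_generateFrom`, or `ext_of_generateFrom_of_iUnion`, or prove first
for fixed `B` that the finite measures `t ↦ μ (· ×ˢ B)` and `sig N B • bet N` on `ℝ` agree on all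
`Iic t` (`Measure.ext_of_Iic`), then use `Measure.prod_eq`).
All measures are carried by `0 < |Y|/(s+|Y|) < 1`, so `t ≤ 0` and `t ≥ 1` are clear; let `0 < t < 1`.
`|Y|/(s+|Y|) ≤ t ↔ |Y| (1/t - 1) ≤ s`, and `expo (Ici c) = ofReal (exp (-c))` for `c ≥ 0`. By
Fubini the measure of `{…∈ Iic t ×ˢ B}` is `∫⁻ Y in {nrm N Y ∈ B}, ofReal (exp (-(|Y| (1/t - 1)))) ∂gam N`.
Write `gam N = (volume.restrict {Y | ∀ i, 0 < Y i}).withDensity (ofReal (exp (-|Y|)))`
(`gam_eq_withDensity`, e.g. from `Measure.pi_withDensity`-type lemma or `Measure.pi_eq` on boxes).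
So this equals `∫⁻ Y in {Y > 0, nrm N Y ∈ B}, ofReal (exp (-(|Y|/t))) = (scaling Y = t Y', Lebesgue
measure scales by t^N, nrm is invariant) = ofReal (t^N) * ∫⁻ Y' in {Y' > 0, nrm Y' ∈ B}, ofReal (exp (-|Y'|))
= ofReal (t^N) * sig N B`, and `bet N (Iic t) = ofReal (t^N)` by `bet_Iic`.
-/

set_option autoImplicit false

open MeasureTheory Set

namespace Pool.Agent.Lib.MP_29b1bb_gt

private theorem gam_expo_apply (s : Set ℝ) (hs : MeasurableSet s) :
    expo s = ENNReal.ofReal (∫ x in s ∩ Ioi 0, Real.exp (-x)) := by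
  unfold expo
  rw [withDensity_apply _ hs, Measure.restrict_restrict hs, ← ofReal_integral_eq_lintegral_ofReal]
  · exact (integrableOn_exp_neg_Ioi 0).mono_set inter_subset_right
  · exact Filter.Eventually.of_forall fun x => (Real.exp_pos _).le

private theorem gam_pos_eq (m : ℕ) :
    {x : Fin m → ℝ | ∀ i, 0 < x i} = Set.pi univ (fun _ => Ioi (0 : ℝ)) := by
  ext x; simp [Set.mem_pi]

/-- `gam` has a density with respect to Lebesgue measure -/
theorem gam_eq_withDensity (m : ℕ) :
    gam m = ((volume : Measure (Fin m → ℝ)).restrict {x | ∀ i, 0 < x i}).withDensity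
      (fun x => ENNReal.ofReal (Real.exp (-∑ i, x i))) := by
  unfold gam
  refine Measure.pi_eq fun s hs => ?_
  have hsm : MeasurableSet (Set.pi univ s) := MeasurableSet.univ_pi hs
  rw [withDensity_apply _ hsm, Measure.restrict_restrict hsm, gam_pos_eq, ← Set.pi_inter_distrib,
    volume_pi, Measure.restrict_pi_pi]
  have h1 : ∀ x : Fin m → ℝ, ENNReal.ofReal (Real.exp (-∑ i, x i)) =
      ENNReal.ofReal (∏ i, Real.exp (-x i)) := by
    intro x
    rw [← Real.exp_sum, Finset.sum_neg_distrib]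
  simp_rw [h1]
  have hint : Integrable (fun x : Fin m → ℝ => ∏ i, Real.exp (-x i))
      (Measure.pi fun i => (volume : Measure ℝ).restrict (s i ∩ Ioi 0)) := by
    refine Integrable.fintype_prod (f := fun (_ : Fin m) (x : ℝ) => Real.exp (-x))
      (μ := fun i => (volume : Measure ℝ).restrict (s i ∩ Ioi 0)) fun i => ?_
    exact (integrableOn_exp_neg_Ioi 0).mono_set inter_subset_right
  rw [← ofReal_integral_eq_lintegral_ofReal hint
    (Filter.Eventually.of_forall fun x => Finset.prod_nonneg fun i _ => (Real.exp_pos _).le)]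
  rw [integral_fintype_prod_eq_prod (fun (_ : Fin m) (x : ℝ) => Real.exp (-x))]
  rw [ENNReal.ofReal_prod_of_nonneg]
  · exact Finset.prod_congr rfl fun i _ => (gam_expo_apply (s i) (hs i)).symm
  · intro i _
    exact integral_nonneg fun x => (Real.exp_pos _).le

private theorem gam_expo_Ici (c : ℝ) (hc : 0 ≤ c) :
    expo (Ici c) = ENNReal.ofReal (Real.exp (-c)) := by
  rw [gam_expo_apply _ measurableSet_Ici]
  congr 1
  have h1 : ∫ x in Ici c ∩ Ioi 0, Real.exp (-x) = ∫ x in Ioi c, Real.exp (-x) := by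
    refine setIntegral_congr_set ?_
    have h2 : (Ici c ∩ Ioi 0 : Set ℝ) =ᵐ[volume] Ici c := by
      rcases hc.lt_or_eq with h | h
      · have : Ici c ∩ Ioi 0 = Ici c := by
          ext x; simp only [mem_inter_iff, mem_Ici, mem_Ioi]
          exact ⟨fun h => h.1, fun h' => ⟨h', lt_of_lt_of_le h h'⟩⟩
        rw [this]
      · rw [← h]
        have : Ici (0 : ℝ) ∩ Ioi 0 = Ioi 0 := by
          ext x; simp only [mem_inter_iff, mem_Ici, mem_Ioi]
          exact ⟨fun h => h.2, fun h' => ⟨h'.le, h'⟩⟩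
        rw [this]
        exact Ioi_ae_eq_Ici
    exact h2.trans Ioi_ae_eq_Ici.symm
  rw [h1, integral_exp_neg_Ioi]

private theorem gam_nrm_smul (N : ℕ) (t : ℝ) (ht : 0 < t) (x : Fin N → ℝ) :
    nrm N (t • x) = nrm N x := by
  funext i
  simp only [nrm, Pi.smul_apply, smul_eq_mul]
  rw [← Finset.mul_sum, mul_div_mul_left _ _ ht.ne']

private theorem gam_scaling (N : ℕ) (t : ℝ) (ht : 0 < t) (B : Set (Fin N → ℝ))
    (hB : MeasurableSet B) :
    ∫⁻ y in {y | nrm N y ∈ B}, ENNReal.ofReal (Real.exp (-((∑ k, y k) * (1 / t - 1)))) ∂gam N =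
      ENNReal.ofReal (t ^ N) * sig N B := by
  have hBm : MeasurableSet {y : Fin N → ℝ | nrm N y ∈ B} := measurable_nrm N hB
  have hpos : MeasurableSet {x : Fin N → ℝ | ∀ i, 0 < x i} := by
    rw [gam_pos_eq]; exact MeasurableSet.univ_pi fun _ => measurableSet_Ioi
  have hdens : Measurable (fun x : Fin N → ℝ => ENNReal.ofReal (Real.exp (-∑ i, x i))) := by
    fun_prop
  obtain ⟨P, hP⟩ : ∃ P : Set (Fin N → ℝ), P = {y | nrm N y ∈ B} ∩ {x | ∀ i, 0 < x i} := ⟨_, rfl⟩
  have hPm : MeasurableSet P := by rw [hP]; exact hBm.inter hpos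
  obtain ⟨Φ, hΦ⟩ : ∃ Φ : (Fin N → ℝ) → ENNReal,
      Φ = P.indicator (fun y => ENNReal.ofReal (Real.exp (-∑ i, y i))) := ⟨_, rfl⟩
  have hΦm : Measurable Φ := by rw [hΦ]; exact hdens.indicator hPm
  have e1 : sig N B = ∫⁻ y, Φ y := by
    have h4 : nrm N ⁻¹' B = {y | nrm N y ∈ B} := rfl
    unfold sig
    rw [Measure.map_apply (measurable_nrm N) hB, h4, gam_eq_withDensity, withDensity_apply _ hBm,
      Measure.restrict_restrict hBm, hΦ, lintegral_indicator hPm, hP]
  have e2 : ∫⁻ y in {y | nrm N y ∈ B},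
      ENNReal.ofReal (Real.exp (-((∑ k, y k) * (1 / t - 1)))) ∂gam N = ∫⁻ y, Φ (t⁻¹ • y) := by
    rw [gam_eq_withDensity, restrict_withDensity hBm, Measure.restrict_restrict hBm,
      lintegral_withDensity_eq_lintegral_mul _ hdens (by fun_prop), ← hP,
      ← lintegral_indicator hPm]
    refine lintegral_congr fun y => ?_
    rw [hΦ]
    by_cases hy : y ∈ P
    · have hy' : t⁻¹ • y ∈ P := by
        rw [hP] at hy ⊢
        refine ⟨?_, fun i => ?_⟩
        · have h3 := hy.1
          simp only [Set.mem_ofPred_eq] at h3 ⊢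
          rw [gam_nrm_smul N t⁻¹ (inv_pos.2 ht)]
          exact h3
        · simp only [Pi.smul_apply, smul_eq_mul]
          exact mul_pos (inv_pos.2 ht) (hy.2 i)
      rw [Set.indicator_of_mem hy, Set.indicator_of_mem hy']
      simp only [Pi.mul_apply, Pi.smul_apply, smul_eq_mul]
      rw [← ENNReal.ofReal_mul (Real.exp_pos _).le, ← Real.exp_add, ← Finset.mul_sum]
      congr 2
      field_simp
      ring
    · have hy' : t⁻¹ • y ∉ P := by
        intro h
        apply hy
        rw [hP] at h ⊢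
        refine ⟨?_, fun i => ?_⟩
        · have h3 := h.1
          simp only [Set.mem_ofPred_eq] at h3 ⊢
          rw [gam_nrm_smul N t⁻¹ (inv_pos.2 ht)] at h3
          exact h3
        · have h3 := h.2 i
          simp only [Pi.smul_apply, smul_eq_mul] at h3
          exact (mul_pos_iff_of_pos_left (inv_pos.2 ht)).1 h3
      rw [Set.indicator_of_notMem hy, Set.indicator_of_notMem hy']
  rw [e2, e1]
  have hmap := Measure.map_addHaar_smul (volume : Measure (Fin N → ℝ)) (r := t⁻¹)
    (inv_ne_zero ht.ne')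
  have e3 : ∫⁻ y : Fin N → ℝ, Φ (t⁻¹ • y) =
      ∫⁻ y, Φ y ∂(Measure.map (fun x : Fin N → ℝ => t⁻¹ • x) volume) := by
    rw [lintegral_map hΦm (measurable_const_smul _)]
  rw [e3, hmap, lintegral_smul_measure, smul_eq_mul]
  congr 2
  rw [Module.finrank_fin_fun, inv_pow, inv_inv, abs_of_pos (pow_pos ht N)]

theorem law_pair (N : ℕ) (hN : 0 < N) :
    (expo.prod (gam N)).map (fun q : ℝ × (Fin N → ℝ) =>
      ((∑ k, q.2 k) / (q.1 + ∑ k, q.2 k), nrm N q.2)) = (bet N).prod (sig N) := by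
  have hbet := instProbBet N hN
  have hne : Nonempty (Fin N) := ⟨⟨0, hN⟩⟩
  have hFm : Measurable (fun q : ℝ × (Fin N → ℝ) =>
      ((∑ k, q.2 k) / (q.1 + ∑ k, q.2 k), nrm N q.2)) := by
    refine Measurable.prodMk ?_ ((measurable_nrm N).comp measurable_snd)
    fun_prop
  have hae : ∀ᵐ q ∂(expo.prod (gam N)), 0 < q.1 ∧ ∀ i, 0 < q.2 i := by
    have h1 : ∀ᵐ q ∂(expo.prod (gam N)), 0 < q.1 :=
      Measure.quasiMeasurePreserving_fst.ae expo_ae_pos
    have h2 : ∀ᵐ q ∂(expo.prod (gam N)), ∀ i, 0 < q.2 i :=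
      Measure.quasiMeasurePreserving_snd.ae (gam_ae_pos N)
    filter_upwards [h1, h2] with q a b using ⟨a, b⟩
  symm
  refine Measure.prod_eq fun A B hA hB => ?_
  rw [Measure.map_apply hFm (hA.prod hB)]
  -- fixed `B`
  have key : ∀ t : ℝ, (expo.prod (gam N)) ((fun q : ℝ × (Fin N → ℝ) =>
      ((∑ k, q.2 k) / (q.1 + ∑ k, q.2 k), nrm N q.2)) ⁻¹' (Iic t ×ˢ B)) =
      bet N (Iic t) * sig N B := by
    intro t
    rcases le_or_gt t 0 with ht | ht
    · have hb : bet N (Iic t) = 0 := by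
        have h1 : bet N (Iic t) ≤ bet N (Iic 0) := measure_mono (Iic_subset_Iic.2 ht)
        rw [bet_Iic N hN 0 le_rfl zero_le_one, zero_pow hN.ne', ENNReal.ofReal_zero] at h1
        exact le_antisymm h1 bot_le
      rw [hb, zero_mul]
      rw [measure_eq_zero_iff_ae_notMem]
      filter_upwards [hae] with q hq hmem
      have h1 : (∑ k, q.2 k) / (q.1 + ∑ k, q.2 k) ≤ t := hmem.1
      have h2 : 0 < ∑ k, q.2 k := Finset.sum_pos (fun i _ => hq.2 i) Finset.univ_nonempty
      have h3 : 0 < (∑ k, q.2 k) / (q.1 + ∑ k, q.2 k) := div_pos h2 (add_pos hq.1 h2)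
      linarith
    rcases le_or_gt 1 t with ht1 | ht1
    · have hb : bet N (Iic t) = 1 := by
        have h1 : bet N (Iic 1) ≤ bet N (Iic t) := measure_mono (Iic_subset_Iic.2 ht1)
        rw [bet_Iic N hN 1 zero_le_one le_rfl, one_pow, ENNReal.ofReal_one] at h1
        exact le_antisymm prob_le_one h1
      rw [hb, one_mul]
      have h2 : (expo.prod (gam N)) ((fun q : ℝ × (Fin N → ℝ) =>
          ((∑ k, q.2 k) / (q.1 + ∑ k, q.2 k), nrm N q.2)) ⁻¹' (Iic t ×ˢ B)) =
          (expo.prod (gam N)) (univ ×ˢ {y | nrm N y ∈ B}) := by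
        refine measure_congr ?_
        filter_upwards [hae] with q hq
        apply propext
        constructor
        · intro h; exact ⟨trivial, h.2⟩
        · intro h
          refine ⟨?_, h.2⟩
          have h2 : 0 < ∑ k, q.2 k := Finset.sum_pos (fun i _ => hq.2 i) Finset.univ_nonempty
          have h3 : (∑ k, q.2 k) / (q.1 + ∑ k, q.2 k) ≤ 1 := by
            rw [div_le_one (add_pos hq.1 h2)]
            linarith [hq.1]
          exact h3.trans ht1
      rw [h2, Measure.prod_prod, measure_univ, one_mul]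
      unfold sig
      rw [Measure.map_apply (measurable_nrm N) hB]
      rfl
    · rw [bet_Iic N hN t ht.le ht1.le, ← gam_scaling N t ht B hB]
      have hBm : MeasurableSet {y : Fin N → ℝ | nrm N y ∈ B} := measurable_nrm N hB
      rw [Measure.prod_apply_symm (hFm (measurableSet_Iic.prod hB)), ← lintegral_indicator hBm]
      refine lintegral_congr_ae ?_
      filter_upwards [gam_ae_pos N] with y hy
      have hy2 : 0 < ∑ k, y k := Finset.sum_pos (fun i _ => hy i) Finset.univ_nonempty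
      by_cases hyB : nrm N y ∈ B
      · rw [Set.indicator_of_mem (show y ∈ {y : Fin N → ℝ | nrm N y ∈ B} from hyB)]
        have hc : 0 ≤ (∑ k, y k) * (1 / t - 1) := by
          refine mul_nonneg hy2.le ?_
          rw [sub_nonneg, le_div_iff₀ ht]
          linarith
        rw [← gam_expo_Ici _ hc]
        refine measure_congr ?_
        filter_upwards [expo_ae_pos] with x hx
        apply propext
        have h5 : (∑ k, y k) / (x + ∑ k, y k) ≤ t ↔ (∑ k, y k) * (1 / t - 1) ≤ x := by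
          rw [div_le_iff₀ (add_pos hx hy2)]
          have : (∑ k, y k) * (1 / t - 1) = (∑ k, y k - t * ∑ k, y k) / t := by
            field_simp
          rw [this, div_le_iff₀ ht]
          constructor <;> intro h <;> linarith
        constructor
        · intro h; exact h5.1 h.1
        · intro h; exact ⟨h5.2 h, hyB⟩
      · rw [Set.indicator_of_notMem (show y ∉ {y : Fin N → ℝ | nrm N y ∈ B} from hyB)]
        have : (fun x : ℝ => (x, y)) ⁻¹' ((fun q : ℝ × (Fin N → ℝ) =>
            ((∑ k, q.2 k) / (q.1 + ∑ k, q.2 k), nrm N q.2)) ⁻¹' (Iic t ×ˢ B)) = ∅ := by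
          ext x
          simp only [Set.mem_preimage, Set.mem_prod, Set.mem_empty_iff_false, iff_false, not_and]
          intro _
          exact hyB
        rw [this, measure_empty]
  -- conclude
  obtain ⟨ν₁, hν₁⟩ : ∃ ν₁ : Measure ℝ, ν₁ = ((expo.prod (gam N)).restrict
      {q | nrm N q.2 ∈ B}).map (fun q : ℝ × (Fin N → ℝ) =>
        (∑ k, q.2 k) / (q.1 + ∑ k, q.2 k)) := ⟨_, rfl⟩
  have hm1 : Measurable (fun q : ℝ × (Fin N → ℝ) => (∑ k, q.2 k) / (q.1 + ∑ k, q.2 k)) := by
    fun_prop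
  have hν₁app : ∀ A : Set ℝ, MeasurableSet A → ν₁ A = (expo.prod (gam N))
      ((fun q : ℝ × (Fin N → ℝ) => ((∑ k, q.2 k) / (q.1 + ∑ k, q.2 k), nrm N q.2)) ⁻¹'
        (A ×ˢ B)) := by
    intro A hA
    rw [hν₁, Measure.map_apply hm1 hA, Measure.restrict_apply (hm1 hA)]
    rfl
  have hν : ν₁ = sig N B • bet N := by
    have : IsFiniteMeasure ν₁ := by
      rw [hν₁]
      infer_instance
    refine Measure.ext_of_Iic ν₁ _ fun t => ?_
    rw [hν₁app _ measurableSet_Iic, key t, Measure.smul_apply, smul_eq_mul, mul_comm]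
  rw [← hν₁app A hA, hν, Measure.smul_apply, smul_eq_mul, mul_comm]

end Pool.Agent.Lib.MP_29b1bb_gt
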