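import Pool.Agent.Lib.MP_29b1bb_gt.Contr

/-!
# LM-Inner: a convex set of almost full measure contains a large concentric simplex

(1) `half_measure`: for a linear functional `f`, `sig (N+1) {z | f z ≤ f bar} ≥ 1/(N+1)`: for `z` in the
simplex `bar = (1/(N+1)) ∑_k z ∘ (· + k)` (cyclic shifts), so `f (z ∘ (· + k)) ≤ f bar` for some `k`; the
`N+1` sets `{z | f (z ∘ (· + k)) ≤ f bar}` cover the simplex and have the same measure (`sig_perm`).
(2) It suffices that `x_j = (1-η) e_j + η bar ∈ C` for all `j` (`(1-η) y + η bar = ∑ y_j x_j`,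
`Convex.sum_mem`). If `x_j ∉ C`, `geometric_hahn_banach_point_closed` gives a continuous linear `f`
and `u` with `f x_j < u` and `u < f c` on `C`. So `B = {z | f z ≤ f x_j} ⊆ Cᶜ`. With
`L z = (1-η) e_j + η z` we have `L ⁻¹' B = {z | f z ≤ f bar}` (`η > 0`), so
`sig (d+1) Cᶜ ≥ sig (d+1) B ≥ η^d * (1/(d+1))` by `sig_contract_apply` and (1).
-/

set_option autoImplicit false

open MeasureTheory Set

namespace Pool.Agent.Lib.MP_29b1bb_gt

theorem half_measure (N : ℕ) (f : (Fin (N + 1) → ℝ) →ₗ[ℝ] ℝ) :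
    1 / ((N : ℝ) + 1) ≤ (sig (N + 1)).real {z | f z ≤ f (bar (N + 1))} := by
  have hf : Continuous f := f.continuous_of_finiteDimensional
  have hN : (0 : ℝ) < (N : ℝ) + 1 := by positivity
  have hA : MeasurableSet {z : Fin (N + 1) → ℝ | f z ≤ f (bar (N + 1))} :=
    (isClosed_le hf continuous_const).measurableSet
  have hk : ∀ k : Fin (N + 1),
      (sig (N + 1)).real {z | f (z ∘ (Equiv.addRight k)) ≤ f (bar (N + 1))} =
        (sig (N + 1)).real {z | f z ≤ f (bar (N + 1))} := by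
    intro k
    have hm : Measurable (fun x : Fin (N + 1) → ℝ => x ∘ (Equiv.addRight k)) :=
      measurable_pi_lambda _ fun i => measurable_pi_apply _
    conv_rhs => rw [← sig_perm (N + 1) (Equiv.addRight k)]
    rw [measureReal_def, measureReal_def, Measure.map_apply hm hA]
    rfl
  have hcov : ∀ᵐ z ∂(sig (N + 1)), z ∈ ⋃ k : Fin (N + 1),
      {z : Fin (N + 1) → ℝ | f (z ∘ (Equiv.addRight k)) ≤ f (bar (N + 1))} := by
    filter_upwards [sig_ae_mem (N + 1) (Nat.succ_pos N)] with z hz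
    by_contra hcon
    rw [mem_iUnion] at hcon
    push Not at hcon
    simp only [mem_ofPred_eq, not_le] at hcon
    have hsum : ∑ k : Fin (N + 1), z ∘ (Equiv.addRight k) = ((N : ℝ) + 1) • bar (N + 1) := by
      funext i
      rw [Finset.sum_apply]
      simp only [Function.comp_apply, Equiv.coe_addRight, Pi.smul_apply, bar, smul_eq_mul]
      have h1 : ∑ k : Fin (N + 1), z (i + k) = ∑ k : Fin (N + 1), z k :=
        Equiv.sum_comp (Equiv.addLeft i) z
      rw [h1, hz.2]
      push_cast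
      field_simp
    have h2 : ∑ k : Fin (N + 1), f (z ∘ (Equiv.addRight k)) =
        ((N : ℝ) + 1) * f (bar (N + 1)) := by
      rw [← map_sum, hsum, map_smul, smul_eq_mul]
    have h3 : ∑ _k : Fin (N + 1), f (bar (N + 1)) <
        ∑ k : Fin (N + 1), f (z ∘ (Equiv.addRight k)) :=
      Finset.sum_lt_sum_of_nonempty Finset.univ_nonempty fun k _ => hcon k
    rw [h2, Finset.sum_const, Finset.card_univ, Fintype.card_fin, nsmul_eq_mul] at h3
    push_cast at h3
    exact lt_irrefl _ h3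
  have hone : (sig (N + 1)).real (⋃ k : Fin (N + 1),
      {z : Fin (N + 1) → ℝ | f (z ∘ (Equiv.addRight k)) ≤ f (bar (N + 1))}) = 1 := by
    have h5 : (sig (N + 1)) (⋃ k : Fin (N + 1),
        {z : Fin (N + 1) → ℝ | f (z ∘ (Equiv.addRight k)) ≤ f (bar (N + 1))}) =
        (sig (N + 1)) univ := measure_congr (Filter.eventuallyEq_univ.mpr hcov)
    rw [measureReal_def, h5, measure_univ]
    simp
  have hle := measureReal_iUnion_fintype_le (μ := sig (N + 1)) (fun k : Fin (N + 1) =>
      {z : Fin (N + 1) → ℝ | f (z ∘ (Equiv.addRight k)) ≤ f (bar (N + 1))})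
  rw [hone, Finset.sum_congr rfl fun k _ => hk k, Finset.sum_const, Finset.card_univ,
    Fintype.card_fin, nsmul_eq_mul] at hle
  push_cast at hle
  rw [div_le_iff₀ hN]
  linarith

theorem inner_of_measure (d : ℕ) (hd : 0 < d) (C : Set (Fin (d + 1) → ℝ)) (hcl : IsClosed C)
    (hcv : Convex ℝ C) (η : ℝ) (h0 : 0 < η) (h1 : η ≤ 1)
    (h : (sig (d + 1)).real Cᶜ < η ^ d / ((d : ℝ) + 1)) :
    ∀ y ∈ stdSimplex ℝ (Fin (d + 1)), (1 - η) • y + η • bar (d + 1) ∈ C := by
  have hx : ∀ j : Fin (d + 1),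
      (1 - η) • (Pi.single j (1 : ℝ) : Fin (d + 1) → ℝ) + η • bar (d + 1) ∈ C := by
    intro j
    by_contra hj
    obtain ⟨f, u, hfu, hfC⟩ := geometric_hahn_banach_point_closed hcv hcl hj
    set x := (1 - η) • (Pi.single j (1 : ℝ) : Fin (d + 1) → ℝ) + η • bar (d + 1) with hxdef
    set B : Set (Fin (d + 1) → ℝ) := {z | f z ≤ f x} with hB
    have hBm : MeasurableSet B := (isClosed_le f.continuous continuous_const).measurableSet
    have hBC : B ⊆ Cᶜ := by
      intro z hz hzC
      have h2 := hfC z hzC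
      have h3 : f z ≤ f x := hz
      linarith
    have hpre : (fun z => (1 - η) • (Pi.single j (1 : ℝ) : Fin (d + 1) → ℝ) + η • z) ⁻¹' B =
        {z | (f : (Fin (d + 1) → ℝ) →ₗ[ℝ] ℝ) z ≤
          (f : (Fin (d + 1) → ℝ) →ₗ[ℝ] ℝ) (bar (d + 1))} := by
      ext z
      simp only [hB, hxdef, mem_preimage, mem_ofPred_eq, map_add, map_smul, smul_eq_mul,
        ContinuousLinearMap.coe_coe]
      constructor
      · intro h4
        have h5 : η * f z ≤ η * f (bar (d + 1)) := by linarith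
        exact le_of_mul_le_mul_left h5 h0
      · intro h4
        have h5 : η * f z ≤ η * f (bar (d + 1)) := mul_le_mul_of_nonneg_left h4 h0.le
        linarith
    have hc := sig_contract_apply d hd j η h0 h1 B hBm
    rw [hpre] at hc
    have hh := half_measure d (f : (Fin (d + 1) → ℝ) →ₗ[ℝ] ℝ)
    have hc' : η ^ d * (sig (d + 1)).real {z | (f : (Fin (d + 1) → ℝ) →ₗ[ℝ] ℝ) z ≤
          (f : (Fin (d + 1) → ℝ) →ₗ[ℝ] ℝ) (bar (d + 1))} ≤ (sig (d + 1)).real B := by
      have h6 := ENNReal.toReal_mono (measure_ne_top _ _) hc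
      rw [ENNReal.toReal_mul, ENNReal.toReal_ofReal (by positivity)] at h6
      exact h6
    have hm : (sig (d + 1)).real B ≤ (sig (d + 1)).real Cᶜ := measureReal_mono hBC
    have h7 : η ^ d * (1 / ((d : ℝ) + 1)) ≤ η ^ d * (sig (d + 1)).real
        {z | (f : (Fin (d + 1) → ℝ) →ₗ[ℝ] ℝ) z ≤
          (f : (Fin (d + 1) → ℝ) →ₗ[ℝ] ℝ) (bar (d + 1))} :=
      mul_le_mul_of_nonneg_left hh (by positivity)
    rw [mul_one_div] at h7
    linarith
  intro y hy
  have hsum : (1 - η) • y + η • bar (d + 1) = ∑ j : Fin (d + 1), y j •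
      ((1 - η) • (Pi.single j (1 : ℝ) : Fin (d + 1) → ℝ) + η • bar (d + 1)) := by
    simp only [smul_add, Finset.sum_add_distrib]
    rw [← Finset.sum_smul, hy.2, one_smul]
    congr 1
    funext i
    rw [Finset.sum_apply]
    simp only [Pi.smul_apply, smul_eq_mul, Pi.single_apply]
    rw [Finset.sum_eq_single i]
    · simp
      ring
    · intro b _ hb
      simp [Ne.symm hb]
    · intro hb
      exact absurd (Finset.mem_univ i) hb
  rw [hsum]
  exact hcv.sum_mem (fun j _ => hy.1 j) hy.2 fun j _ => hx j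

/-- a closed subset of full measure contains the simplex -/
theorem full_of_measure (d : ℕ) (hd : 0 < d) (C : Set (Fin (d + 1) → ℝ)) (hcl : IsClosed C)
    (hcv : Convex ℝ C) (h : (sig (d + 1)).real Cᶜ = 0) : stdSimplex ℝ (Fin (d + 1)) ⊆ C := by
  intro y hy
  have hlim : Filter.Tendsto (fun n : ℕ => (1 - 1 / ((n : ℝ) + 1)) • y +
      (1 / ((n : ℝ) + 1)) • bar (d + 1)) Filter.atTop (nhds ((1 - (0 : ℝ)) • y + (0 : ℝ) • bar (d + 1))) := by
    have h1 := tendsto_one_div_add_atTop_nhds_zero_nat (𝕜 := ℝ)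
    exact ((tendsto_const_nhds.sub h1).smul_const y).add (h1.smul_const (bar (d + 1)))
  simp only [sub_zero, one_smul, zero_smul, add_zero] at hlim
  refine hcl.mem_of_tendsto hlim (Filter.Eventually.of_forall fun n => ?_)
  have hn : (0 : ℝ) < 1 / ((n : ℝ) + 1) := by positivity
  refine inner_of_measure d hd C hcl hcv _ hn ?_ ?_ y hy
  · rw [div_le_one (by positivity)]
    have : (0 : ℝ) ≤ n := Nat.cast_nonneg n
    linarith
  · rw [h]
    positivity

end Pool.Agent.Lib.MP_29b1bb_gt
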