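import Pool.Agent.Lib.MP_29b1bb_gt.Basic

/-!
# LM-Kap: the radial function of a convex subset of the simplex, on the facets

For `y` in the simplex let `x s = (1/(1+s)) • emb j y + (s/(1+s)) • bar (d+1)`, `s ≥ 0`, and
`S = {s | 0 ≤ s ∧ x s ∈ C}`. `S` is closed, upwards closed (`x s'` is on the segment from `x s` to
`bar (d+1) ∈ C` for `s' ≥ s`) and contains `η/(1-η) ≤ 2 η` (`inner`), so `S = Ici (kap C j y)`.
`kap_mem`: `g = 0`: `bar (d+1) ∈ C`; `g > 0`: `s = 1/g - 1`.
`kap_convex`: for `s = kap y`, `s' = kap y'`, `t = α s + α' s'` the point `x t` for `α y + α' y'` is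
`(α (1+s) x_y s + α' (1+s') x_y' s') / (1+t)`.
`kap_measurable`: `measurable_of_Iic`: for `c ≥ 0`
`{y | kap C j y ≤ c} = (stdSimplex)ᶜ ∪ {y ∈ stdSimplex | x c ∈ C}`, for `c < 0` it is empty.
-/

set_option autoImplicit false

open MeasureTheory Set

namespace Pool.Agent.Lib.MP_29b1bb_gt

/-- closed convex subsets of the simplex which contain the concentric simplex with ratio `1 - η` -/
structure Good (d : ℕ) (C : Set (Fin (d + 1) → ℝ)) (η : ℝ) : Prop where
  closed : IsClosed C
  conv : Convex ℝ C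
  sub : C ⊆ stdSimplex ℝ (Fin (d + 1))
  inner : ∀ y ∈ stdSimplex ℝ (Fin (d + 1)), (1 - η) • y + η • bar (d + 1) ∈ C
  nonneg : 0 ≤ η
  le_half : η ≤ 1 / 2

variable {d : ℕ} {C : Set (Fin (d + 1) → ℝ)} {η : ℝ}

private theorem kap_bar_mem (hC : Good d C η) : bar (d + 1) ∈ C := by
  have h := hC.inner (bar (d + 1)) (bar_mem (Nat.succ_pos d))
  rw [← add_smul] at h
  simpa using h

/-- the ray -/
private noncomputable def kx (j : Fin (d + 1)) (y : Fin d → ℝ) (s : ℝ) : Fin (d + 1) → ℝ :=
  (1 / (1 + s)) • emb j y + (s / (1 + s)) • bar (d + 1)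

private theorem kap_eq (C : Set (Fin (d + 1) → ℝ)) (j : Fin (d + 1)) {y : Fin d → ℝ}
    (hy : y ∈ stdSimplex ℝ (Fin d)) : kap C j y = sInf {s : ℝ | 0 ≤ s ∧ kx j y s ∈ C} := by
  unfold kap kx
  rw [if_pos hy]

private theorem kap_eta (hC : Good d C η) (j : Fin (d + 1)) {y : Fin d → ℝ}
    (hy : y ∈ stdSimplex ℝ (Fin d)) : η / (1 - η) ∈ {s : ℝ | 0 ≤ s ∧ kx j y s ∈ C} := by
  have h1 : 0 < 1 - η := by linarith [hC.le_half]
  refine ⟨div_nonneg hC.nonneg h1.le, ?_⟩
  have h2 : 1 + η / (1 - η) = 1 / (1 - η) := by field_simp; ring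
  have h := hC.inner (emb j y) (emb_mem j hy)
  unfold kx
  rw [h2]
  have h3 : 1 / (1 / (1 - η)) = 1 - η := by field_simp
  have h4 : η / (1 - η) / (1 / (1 - η)) = η := by field_simp
  rw [h3, h4]
  exact h

private theorem kap_closed (hC : Good d C η) (j : Fin (d + 1)) (y : Fin d → ℝ) :
    IsClosed {s : ℝ | 0 ≤ s ∧ kx j y s ∈ C} := by
  have h : ContinuousOn (kx j y) (Ici (0 : ℝ)) := by
    rw [continuousOn_pi]
    intro k
    have e : (fun s => kx j y s k) =
        fun s => (1 / (1 + s)) * emb j y k + (s / (1 + s)) * bar (d + 1) k := by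
      funext s
      simp [kx]
    rw [e]
    have hne : ∀ s ∈ Ici (0 : ℝ), 1 + s ≠ 0 := by
      intro s hs
      have : (0 : ℝ) ≤ s := hs
      positivity
    exact ((continuousOn_const.div (continuousOn_const.add continuousOn_id) hne).mul
      continuousOn_const).add
      ((continuousOn_id.div (continuousOn_const.add continuousOn_id) hne).mul continuousOn_const)
  exact h.preimage_isClosed_of_isClosed isClosed_Ici hC.closed

private theorem kap_up (hC : Good d C η) (j : Fin (d + 1)) (y : Fin d → ℝ) {s s' : ℝ}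
    (hs : 0 ≤ s) (hss : s ≤ s') (h : kx j y s ∈ C) : kx j y s' ∈ C := by
  have h1 : 0 < 1 + s := by linarith
  have h2 : 0 < 1 + s' := by linarith
  have e : kx j y s' = ((1 + s) / (1 + s')) • kx j y s +
      (1 - (1 + s) / (1 + s')) • bar (d + 1) := by
    unfold kx
    rw [smul_add, smul_smul, smul_smul, add_assoc, ← add_smul]
    congr 2
    · field_simp
    · field_simp
      ring
  rw [e]
  refine hC.conv h (kap_bar_mem hC) (by positivity) ?_ (by ring)
  rw [sub_nonneg, div_le_one h2]
  linarith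

private theorem kap_iff (hC : Good d C η) (j : Fin (d + 1)) {y : Fin d → ℝ}
    (hy : y ∈ stdSimplex ℝ (Fin d)) {s : ℝ} (hs : 0 ≤ s) : kx j y s ∈ C ↔ kap C j y ≤ s := by
  rw [kap_eq C j hy]
  have hbdd : BddBelow {s : ℝ | 0 ≤ s ∧ kx j y s ∈ C} := ⟨0, fun s hs => hs.1⟩
  constructor
  · intro h
    exact csInf_le hbdd ⟨hs, h⟩
  · intro h
    have hm := (kap_closed hC j y).csInf_mem ⟨_, kap_eta hC j hy⟩ hbdd
    exact kap_up hC j y hm.1 h hm.2

theorem kap_nonneg (hC : Good d C η) (j : Fin (d + 1)) (y : Fin d → ℝ) : 0 ≤ kap C j y := by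
  have _ := hC
  by_cases hy : y ∈ stdSimplex ℝ (Fin d)
  · rw [kap_eq C j hy]
    exact Real.sInf_nonneg fun s hs => hs.1
  · unfold kap
    rw [if_neg hy]

theorem kap_le (hC : Good d C η) (j : Fin (d + 1)) (y : Fin d → ℝ) : kap C j y ≤ 2 * η := by
  by_cases hy : y ∈ stdSimplex ℝ (Fin d)
  · have h := kap_eta hC j hy
    refine ((kap_iff hC j hy h.1).1 h.2).trans ?_
    have h1 : 0 < 1 - η := by linarith [hC.le_half]
    rw [div_le_iff₀ h1]
    nlinarith [hC.nonneg, hC.le_half]
  · unfold kap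
    rw [if_neg hy]
    linarith [hC.nonneg]

theorem kap_mem (hC : Good d C η) (j : Fin (d + 1)) {y : Fin d → ℝ}
    (hy : y ∈ stdSimplex ℝ (Fin d)) {g : ℝ} (h0 : 0 ≤ g) (h1 : g ≤ 1) :
    (1 - g) • bar (d + 1) + g • emb j y ∈ C ↔ g * (1 + kap C j y) ≤ 1 := by
  rcases h0.eq_or_lt with h | h
  · rw [← h]
    simp [kap_bar_mem hC]
  · have hs : 0 ≤ 1 / g - 1 := by
      rw [sub_nonneg, le_div_iff₀ h]
      linarith
    have e : (1 - g) • bar (d + 1) + g • emb j y = kx j y (1 / g - 1) := by
      unfold kx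
      rw [add_comm ((1 - g) • bar (d + 1))]
      congr 2
      · field_simp
        ring
      · field_simp
        ring
    rw [e, kap_iff hC j hy hs]
    constructor
    · intro h2
      have h3 : g * (1 + kap C j y) ≤ g * (1 / g) := mul_le_mul_of_nonneg_left (by linarith) h.le
      have h4 : g * (1 / g) = 1 := by field_simp
      linarith
    · intro h2
      have h3 : 1 + kap C j y ≤ 1 / g := by
        rw [le_div_iff₀ h]
        linarith
      linarith

theorem kap_convex (hC : Good d C η) (j : Fin (d + 1)) :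
    ConvexOn ℝ (stdSimplex ℝ (Fin d)) (kap C j) := by
  refine ⟨convex_stdSimplex ℝ (Fin d), ?_⟩
  intro y hy y' hy' α α' hα hα' hαα
  have hyy : α • y + α' • y' ∈ stdSimplex ℝ (Fin d) := convex_stdSimplex ℝ (Fin d) hy hy' hα hα' hαα
  have hs := kap_nonneg hC j y
  have hs' := kap_nonneg hC j y'
  simp only [smul_eq_mul]
  have ht : 0 ≤ α * kap C j y + α' * kap C j y' := by positivity
  rw [← kap_iff hC j hyy ht]
  have h1 := (kap_iff hC j hy hs).2 le_rfl
  have h2 := (kap_iff hC j hy' hs').2 le_rfl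
  generalize kap C j y = s at hs ht h1 h2
  generalize kap C j y' = s' at hs' ht h1 h2
  have p1 : 0 < 1 + s := by linarith
  have p2 : 0 < 1 + s' := by linarith
  have p3 : 0 < 1 + (α * s + α' * s') := by linarith
  have e : kx j (α • y + α' • y') (α * s + α' * s') =
      (α * (1 + s) / (1 + (α * s + α' * s'))) • kx j y s +
        (α' * (1 + s') / (1 + (α * s + α' * s'))) • kx j y' s' := by
    unfold kx
    rw [emb_add, emb_smul, emb_smul]
    funext k
    simp only [Pi.add_apply, Pi.smul_apply, smul_eq_mul]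
    field_simp
    ring
  rw [e]
  refine hC.conv h1 h2 (by positivity) (by positivity) ?_
  rw [← add_div, div_eq_one_iff_eq p3.ne']
  have : α + α' = 1 := hαα
  linear_combination this

theorem kap_measurable (hC : Good d C η) (j : Fin (d + 1)) : Measurable (kap C j) := by
  refine measurable_of_Iic fun c => ?_
  have hcl : IsClosed (stdSimplex ℝ (Fin d)) := isClosed_stdSimplex ℝ (Fin d)
  by_cases hc : 0 ≤ c
  · have e : kap C j ⁻¹' Iic c = (stdSimplex ℝ (Fin d))ᶜ ∪
        (stdSimplex ℝ (Fin d) ∩ {y | kx j y c ∈ C}) := by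
      ext y
      simp only [mem_preimage, mem_Iic, mem_union, mem_compl_iff, mem_inter_iff, mem_ofPred_eq]
      by_cases hy : y ∈ stdSimplex ℝ (Fin d)
      · simp only [hy, not_true_eq_false, true_and, false_or]
        exact (kap_iff hC j hy hc).symm
      · simp only [hy, not_false_eq_true, true_or, iff_true]
        unfold kap
        rw [if_neg hy]
        exact hc
    rw [e]
    have hcont : Continuous fun y : Fin d → ℝ => kx j y c := by
      refine continuous_pi fun k => ?_
      simp only [kx, Pi.add_apply, Pi.smul_apply, smul_eq_mul]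
      exact (continuous_const.mul ((continuous_apply k).comp (continuous_emb j))).add
        continuous_const
    exact hcl.measurableSet.compl.union
      (hcl.measurableSet.inter (hC.closed.preimage hcont).measurableSet)
  · have e : kap C j ⁻¹' Iic c = ∅ := by
      ext y
      simp only [mem_preimage, mem_Iic, mem_empty_iff_false, iff_false, not_le]
      exact lt_of_lt_of_le (not_le.1 hc) (kap_nonneg hC j y)
    rw [e]
    exact MeasurableSet.empty

theorem kap_bar (hC : Good d C η) (j : Fin (d + 1)) (h : emb j (bar d) ∈ C) :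
    kap C j (bar d) = 0 := by
  by_cases hy : bar d ∈ stdSimplex ℝ (Fin d)
  · refine le_antisymm ?_ (kap_nonneg hC j _)
    rw [← kap_iff hC j hy le_rfl]
    unfold kx
    simpa using h
  · unfold kap
    rw [if_neg hy]

end Pool.Agent.Lib.MP_29b1bb_gt
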