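import Pool.Agent.Lib.MP_29b1bb_gt.Gam

/-!
# LM-Leb1: the uniform law on the simplex is Lebesgue measure on the solid simplex

Proof. `sig (d+1) = (gam (d+1)).map (nrm (d+1))`, and `gam (d+1)` is the image of `expo.prod (gam d)`
under `(s, Y) ↦ Fin.cons s Y` (`measurePreserving_piFinSuccAbove (fun _ => expo) 0`). So the left
hand side, evaluated at a measurable `B`, is
`∫⁻ Y, ∫⁻ s, 1_B (Y / (s + |Y|)) ∂expo ∂gam d
 = ∫⁻ Y in {Y > 0}, ∫⁻ s in Ioi 0, ofReal (exp (-(s + |Y|))) 1_B (Y / (s + |Y|))`   (`gam_eq_withDensity`)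
`= ∫⁻ Y in {Y > 0}, ∫⁻ r in Ioi |Y|, ofReal (exp (-r)) 1_B (Y / r)`           (translation `r = s + |Y|`)
`= ∫⁻ r in Ioi 0, ofReal (exp (-r)) * volume {Y | 0 < Y, |Y| < r, r⁻¹ • Y ∈ B}`  (Fubini, `lintegral_lintegral_swap`)
`= (∫⁻ r in Ioi 0, ofReal (exp (-r) * r^d)) * volume {z | 0 < z, |z| < 1, z ∈ B}`  (`Measure.addHaar_smul`),
and the open simplex `{0 < z, |z| < 1}` differs from the closed one by a null set (it is a convex
set with its closure: `Convex.addHaar_frontier`, or a finite union of hyperplanes,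
`Measure.addHaar_affineSubspace`). `c = ∫⁻ r in Ioi 0, ofReal (exp (-r) * r^d)` is finite, because
the left hand side is a probability measure and the volume of the simplex is positive (or by
`Real.GammaIntegral_convergent`).
-/

set_option autoImplicit false

open MeasureTheory Set

namespace Pool.Agent.Lib.MP_29b1bb_gt

open scoped Pointwise

private theorem expo_apply_leb1 {A : Set ℝ} (hA : MeasurableSet A) :
    expo A = ∫⁻ s, (A ∩ Ici 0).indicator (fun s => ENNReal.ofReal (Real.exp (-s))) s := by
  unfold expo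
  rw [withDensity_apply _ hA, Measure.restrict_restrict hA,
    lintegral_indicator (hA.inter measurableSet_Ici)]
  refine setLIntegral_congr ?_
  exact (ae_eq_refl A).inter Ioi_ae_eq_Ici

/-- the set of pairs -/
private def SB (d : ℕ) (B : Set (Fin d → ℝ)) : Set ((Fin d → ℝ) × ℝ) :=
  {q | (∀ k, 0 < q.1 k) ∧ ∑ k, q.1 k ≤ q.2 ∧ (q.2⁻¹ • q.1) ∈ B}

private theorem measurableSet_pos_leb1 (d : ℕ) : MeasurableSet {z : Fin d → ℝ | ∀ k, 0 < z k} := by
  have : {z : Fin d → ℝ | ∀ k, 0 < z k} = ⋂ k, {z : Fin d → ℝ | 0 < z k} := by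
    ext z
    simp
  rw [this]
  exact MeasurableSet.iInter fun k => measurableSet_lt measurable_const (measurable_pi_apply k)

private theorem measurableSet_SB {d : ℕ} {B : Set (Fin d → ℝ)} (hB : MeasurableSet B) :
    MeasurableSet (SB d B) := by
  have h1 : MeasurableSet {q : (Fin d → ℝ) × ℝ | ∀ k, 0 < q.1 k} :=
    measurable_fst (measurableSet_pos_leb1 d)
  have h2 : MeasurableSet {q : (Fin d → ℝ) × ℝ | ∑ k, q.1 k ≤ q.2} := by
    refine measurableSet_le ?_ measurable_snd
    exact Finset.measurable_sum _ fun k _ => (measurable_pi_apply k).comp measurable_fst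
  have h3 : MeasurableSet {q : (Fin d → ℝ) × ℝ | (q.2⁻¹ • q.1) ∈ B} := by
    have : Measurable fun q : (Fin d → ℝ) × ℝ => q.2⁻¹ • q.1 :=
      measurable_snd.inv.smul measurable_fst
    exact this hB
  exact h1.inter (h2.inter h3)

/-- the simplex without the coordinate hyperplanes -/
private def TT1 (d : ℕ) : Set (Fin d → ℝ) := {z | (∀ k, 0 < z k) ∧ ∑ k, z k ≤ 1}

private theorem measurableSet_TT1 (d : ℕ) : MeasurableSet (TT1 d) := by
  refine (measurableSet_pos_leb1 d).inter ?_
  exact measurableSet_le (Finset.measurable_sum _ fun k _ => measurable_pi_apply k)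
    measurable_const

private theorem vol_slice_leb1 {d : ℕ} {B : Set (Fin d → ℝ)} {r : ℝ} (hr : 0 < r) :
    volume {Y : Fin d → ℝ | (Y, r) ∈ SB d B} = ENNReal.ofReal (r ^ d) * volume (TT1 d ∩ B) := by
  have h1 : {Y : Fin d → ℝ | (Y, r) ∈ SB d B} = r • (TT1 d ∩ B) := by
    ext Y
    rw [Set.mem_smul_set_iff_inv_smul_mem₀ hr.ne']
    constructor
    · rintro ⟨h2, h3, h4⟩
      refine ⟨⟨fun k => ?_, ?_⟩, h4⟩
      · have := h2 k
        simp only [Pi.smul_apply, smul_eq_mul]
        positivity
      · simp only [Pi.smul_apply, smul_eq_mul]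
        rw [← Finset.mul_sum]
        rw [inv_mul_le_iff₀ hr]
        simpa using h3
    · rintro ⟨⟨h2, h3⟩, h4⟩
      refine ⟨fun k => ?_, ?_, h4⟩
      · have := h2 k
        simp only [Pi.smul_apply, smul_eq_mul] at this
        exact (mul_pos_iff_of_pos_left (inv_pos.mpr hr)).mp this
      · simp only [Pi.smul_apply, smul_eq_mul] at h3
        rw [← Finset.mul_sum, inv_mul_le_iff₀ hr] at h3
        simpa using h3
  rw [h1, Measure.addHaar_smul]
  congr 2
  rw [Module.finrank_fin_fun, abs_of_pos (pow_pos hr d)]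

private theorem drop_apply_leb1 (d : ℕ) {B : Set (Fin d → ℝ)} (hB : MeasurableSet B) :
    (sig (d + 1)).map (fun y : Fin (d + 1) → ℝ => fun k : Fin d => y k.succ) B =
      (expo.prod (gam d)) {q | (fun k => q.2 k / (q.1 + ∑ j, q.2 j)) ∈ B} := by
  have hm1 : Measurable (fun y : Fin (d + 1) → ℝ => fun k : Fin d => y k.succ) :=
    measurable_pi_lambda _ fun k => measurable_pi_apply _
  have hmp := measurePreserving_piFinSuccAbove (fun _ : Fin (d + 1) => expo) 0
  have hm2 : MeasurableSet {q : ℝ × (Fin d → ℝ) | (fun k => q.2 k / (q.1 + ∑ j, q.2 j)) ∈ B} := by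
    have : Measurable fun q : ℝ × (Fin d → ℝ) => fun k : Fin d => q.2 k / (q.1 + ∑ j, q.2 j) := by
      refine measurable_pi_lambda _ fun k => ?_
      refine ((measurable_pi_apply k).comp measurable_snd).div (measurable_fst.add ?_)
      exact Finset.measurable_sum _ fun j _ => (measurable_pi_apply j).comp measurable_snd
    exact this hB
  rw [Measure.map_apply hm1 hB]
  unfold sig
  rw [Measure.map_apply (measurable_nrm _) (hm1 hB)]
  have h1 : (expo.prod (gam d)) = (gam (d + 1)).map
      (MeasurableEquiv.piFinSuccAbove (fun _ : Fin (d + 1) => ℝ) 0) := hmp.map_eq.symm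
  rw [h1, MeasurableEquiv.map_apply]
  congr 1
  ext x
  have h2 : ∑ k, x k = x 0 + ∑ k : Fin d, x k.succ := Fin.sum_univ_succ x
  constructor
  · intro h
    have h3 : (fun k : Fin d => nrm (d + 1) x k.succ) ∈ B := h
    have h4 : (fun k : Fin d => x k.succ / (x 0 + ∑ j : Fin d, x j.succ)) ∈ B := by
      rw [← h2]
      exact h3
    exact h4
  · intro h
    have h4 : (fun k : Fin d => x k.succ / (x 0 + ∑ j : Fin d, x j.succ)) ∈ B := h
    rw [← h2] at h4
    exact h4

private theorem inner_leb1 {d : ℕ} {B : Set (Fin d → ℝ)} (hB : MeasurableSet B) (Y : Fin d → ℝ)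
    (hY : ∀ k, 0 < Y k) :
    ENNReal.ofReal (Real.exp (-∑ i, Y i)) *
      expo {s | (fun k => Y k / (s + ∑ j, Y j)) ∈ B} =
      ∫⁻ r, (SB d B).indicator (fun q => ENNReal.ofReal (Real.exp (-q.2))) (Y, r) := by
  have hA : MeasurableSet {s : ℝ | (fun k => Y k / (s + ∑ j, Y j)) ∈ B} := by
    have : Measurable fun s : ℝ => fun k : Fin d => Y k / (s + ∑ j, Y j) := by
      refine measurable_pi_lambda _ fun k => ?_
      exact measurable_const.div (measurable_id.add measurable_const)
    exact this hB
  have htr := lintegral_add_right_eq_self (μ := (volume : Measure ℝ))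
    (fun r => (SB d B).indicator (fun q => ENNReal.ofReal (Real.exp (-q.2))) (Y, r)) (∑ j, Y j)
  rw [expo_apply_leb1 hA, ← htr, ← lintegral_const_mul]
  · refine lintegral_congr fun s => ?_
    by_cases hs : s ∈ {s : ℝ | (fun k => Y k / (s + ∑ j, Y j)) ∈ B} ∩ Ici 0
    · have h1 : (Y, s + ∑ j, Y j) ∈ SB d B := by
        refine ⟨hY, ?_, ?_⟩
        · have := hs.2
          simp only [mem_Ici] at this
          simp only
          linarith
        · have h2 : (fun k => Y k / (s + ∑ j, Y j)) ∈ B := hs.1
          have h3 : (fun k => Y k / (s + ∑ j, Y j)) = (s + ∑ j, Y j)⁻¹ • Y := by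
            funext k
            simp only [Pi.smul_apply, smul_eq_mul]
            rw [div_eq_inv_mul]
          rw [h3] at h2
          exact h2
      rw [Set.indicator_of_mem hs, Set.indicator_of_mem h1,
        ← ENNReal.ofReal_mul (Real.exp_pos _).le, ← Real.exp_add]
      congr 2
      ring
    · have h1 : (Y, s + ∑ j, Y j) ∉ SB d B := by
        rintro ⟨_, h2, h3⟩
        apply hs
        refine ⟨?_, ?_⟩
        · have h4 : (fun k => Y k / (s + ∑ j, Y j)) = (s + ∑ j, Y j)⁻¹ • Y := by
            funext k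
            simp only [Pi.smul_apply, smul_eq_mul]
            rw [div_eq_inv_mul]
          show (fun k => Y k / (s + ∑ j, Y j)) ∈ B
          rw [h4]
          exact h3
        · simp only at h2
          simp only [mem_Ici]
          linarith
      rw [Set.indicator_of_notMem hs, Set.indicator_of_notMem h1, mul_zero]
  · refine Measurable.indicator ?_ (hA.inter measurableSet_Ici)
    exact (Real.measurable_exp.comp measurable_neg).ennreal_ofReal

private theorem main_leb1 (d : ℕ) {B : Set (Fin d → ℝ)} (hB : MeasurableSet B) :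
    (sig (d + 1)).map (fun y : Fin (d + 1) → ℝ => fun k : Fin d => y k.succ) B =
      (∫⁻ r in Ioi (0 : ℝ), ENNReal.ofReal (Real.exp (-r)) * ENNReal.ofReal (r ^ d)) *
        volume (TT1 d ∩ B) := by
  have hm2 : MeasurableSet {q : ℝ × (Fin d → ℝ) | (fun k => q.2 k / (q.1 + ∑ j, q.2 j)) ∈ B} := by
    have : Measurable fun q : ℝ × (Fin d → ℝ) => fun k : Fin d => q.2 k / (q.1 + ∑ j, q.2 j) := by
      refine measurable_pi_lambda _ fun k => ?_
      refine ((measurable_pi_apply k).comp measurable_snd).div (measurable_fst.add ?_)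
      exact Finset.measurable_sum _ fun j _ => (measurable_pi_apply j).comp measurable_snd
    exact this hB
  rw [drop_apply_leb1 d hB, Measure.prod_apply_symm hm2]
  have h1 : ∀ Y : Fin d → ℝ, (fun s : ℝ => (s, Y)) ⁻¹'
      {q : ℝ × (Fin d → ℝ) | (fun k => q.2 k / (q.1 + ∑ j, q.2 j)) ∈ B} =
      {s : ℝ | (fun k => Y k / (s + ∑ j, Y j)) ∈ B} := fun Y => rfl
  simp only [h1]
  have hmeas : Measurable fun Y : Fin d → ℝ => expo {s : ℝ | (fun k => Y k / (s + ∑ j, Y j)) ∈ B} := by
    have := measurable_measure_prodMk_right (μ := expo) hm2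
    exact this
  rw [gam_eq_withDensity, lintegral_withDensity_eq_lintegral_mul _ _ hmeas]
  · rw [← lintegral_indicator (measurableSet_pos_leb1 d)]
    have h2 : ∀ Y : Fin d → ℝ, ({x : Fin d → ℝ | ∀ i, 0 < x i}).indicator
        ((fun x => ENNReal.ofReal (Real.exp (-∑ i, x i))) * fun Y =>
          expo {s : ℝ | (fun k => Y k / (s + ∑ j, Y j)) ∈ B}) Y =
        ∫⁻ r, (SB d B).indicator (fun q => ENNReal.ofReal (Real.exp (-q.2))) (Y, r) := by
      intro Y
      by_cases hY : Y ∈ {x : Fin d → ℝ | ∀ i, 0 < x i}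
      · rw [Set.indicator_of_mem hY]
        exact inner_leb1 hB Y hY
      · rw [Set.indicator_of_notMem hY]
        symm
        rw [lintegral_eq_zero_iff']
        · refine Filter.Eventually.of_forall fun r => ?_
          refine Set.indicator_of_notMem ?_ _
          rintro ⟨h3, _⟩
          exact hY h3
        · refine Measurable.aemeasurable ?_
          refine (Measurable.indicator ?_ (measurableSet_SB hB)).comp
            (measurable_const.prodMk measurable_id)
          exact (Real.measurable_exp.comp measurable_snd.neg).ennreal_ofReal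
    rw [lintegral_congr h2, lintegral_lintegral_swap]
    · rw [← lintegral_indicator measurableSet_Ioi, ← lintegral_mul_const]
      · refine lintegral_congr_ae ?_
        have h0 : ∀ᵐ r : ℝ ∂volume, r ≠ 0 := by
          rw [ae_iff]
          simp
        filter_upwards [h0] with r hr
        have h3 : ∫⁻ Y : Fin d → ℝ,
            (SB d B).indicator (fun q => ENNReal.ofReal (Real.exp (-q.2))) (Y, r) =
            ENNReal.ofReal (Real.exp (-r)) * volume {Y : Fin d → ℝ | (Y, r) ∈ SB d B} := by
          rw [← lintegral_indicator_const]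
          · refine lintegral_congr fun Y => ?_
            by_cases hY : (Y, r) ∈ SB d B
            · rw [Set.indicator_of_mem hY, Set.indicator_of_mem (by exact hY)]
            · rw [Set.indicator_of_notMem hY, Set.indicator_of_notMem (by exact hY)]
          · exact (measurable_id.prodMk measurable_const) (measurableSet_SB hB)
        rw [h3]
        rcases lt_or_gt_of_ne hr with hr' | hr'
        · rw [Set.indicator_of_notMem (by simp only [mem_Ioi]; linarith), zero_mul]
          have h4 : {Y : Fin d → ℝ | (Y, r) ∈ SB d B} = ∅ := by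
            ext Y
            simp only [mem_empty_iff_false, iff_false]
            rintro ⟨h5, h6, _⟩
            have h7 : 0 ≤ ∑ k, Y k := Finset.sum_nonneg fun k _ => (h5 k).le
            have h8 : ∑ k, Y k ≤ r := h6
            linarith
          rw [h4, measure_empty, mul_zero]
        · rw [Set.indicator_of_mem (by exact hr'), vol_slice_leb1 hr', mul_assoc]
      · refine Measurable.indicator ?_ measurableSet_Ioi
        exact (Real.measurable_exp.comp measurable_neg).ennreal_ofReal.mul
          (measurable_id.pow_const d).ennreal_ofReal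
    · refine Measurable.aemeasurable ?_
      refine Measurable.indicator ?_ (measurableSet_SB hB)
      exact (Real.measurable_exp.comp measurable_snd.neg).ennreal_ofReal
  · refine (Real.measurable_exp.comp (Measurable.neg ?_)).ennreal_ofReal
    exact Finset.measurable_sum _ fun i _ => measurable_pi_apply i

theorem law_drop (d : ℕ) : ∃ c : ENNReal, c ≠ 0 ∧ c ≠ ⊤ ∧
    (sig (d + 1)).map (fun y : Fin (d + 1) → ℝ => fun k : Fin d => y k.succ) =
      c • (volume : Measure (Fin d → ℝ)).restrict {z | (∀ k, 0 ≤ z k) ∧ ∑ k, z k ≤ 1} := by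
  have hm1 : Measurable (fun y : Fin (d + 1) → ℝ => fun k : Fin d => y k.succ) :=
    measurable_pi_lambda _ fun k => measurable_pi_apply _
  obtain ⟨c, hc⟩ : ∃ c, c = ∫⁻ r in Ioi (0 : ℝ), ENNReal.ofReal (Real.exp (-r)) *
      ENNReal.ofReal (r ^ d) := ⟨_, rfl⟩
  have hprob : IsProbabilityMeasure
      ((sig (d + 1)).map (fun y : Fin (d + 1) → ℝ => fun k : Fin d => y k.succ)) :=
    Measure.isProbabilityMeasure_map hm1.aemeasurable
  have h1 : c * volume (TT1 d ∩ univ) = 1 := by
    rw [hc, ← main_leb1 d MeasurableSet.univ]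
    exact measure_univ
  have hae : {z : Fin d → ℝ | (∀ k, 0 ≤ z k) ∧ ∑ k, z k ≤ 1} =ᵐ[volume] TT1 d := by
    have h2 : ∀ᵐ z : Fin d → ℝ ∂volume, ∀ k, z k ≠ 0 := by
      rw [ae_all_iff]
      intro k
      have h3 : ∀ᵐ r : ℝ ∂volume, r ≠ 0 := by
        rw [ae_iff]
        simp
      exact (Measure.quasiMeasurePreserving_eval (fun _ : Fin d => (volume : Measure ℝ)) k).ae h3
    filter_upwards [h2] with z hz
    apply propext
    constructor
    · rintro ⟨h3, h4⟩
      exact ⟨fun k => lt_of_le_of_ne (h3 k) (hz k).symm, h4⟩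
    · rintro ⟨h3, h4⟩
      exact ⟨fun k => (h3 k).le, h4⟩
  refine ⟨c, ?_, ?_, ?_⟩
  · rintro rfl
    rw [zero_mul] at h1
    exact zero_ne_one h1
  · rintro rfl
    by_cases h0 : volume (TT1 d ∩ univ) = 0
    · rw [h0, mul_zero] at h1
      exact zero_ne_one h1
    · rw [ENNReal.top_mul h0] at h1
      exact ENNReal.top_ne_one h1
  · rw [Measure.restrict_congr_set hae]
    refine Measure.ext fun B hB => ?_
    rw [main_leb1 d hB, ← hc, Measure.smul_apply, smul_eq_mul, Measure.restrict_apply hB,
      Set.inter_comm]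

end Pool.Agent.Lib.MP_29b1bb_gt
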