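import Pool.Agent.Lib.MP_29b1bb_gt.Leb1

/-!
# LM-Leb2: the uniform law on an arbitrary simplex

`A : (Fin d → ℝ) → EuclideanSpace ℝ (Fin d)`, `A z = p 0 + ∑ k, z k • (p k.succ - p 0)` is an affine
bijection (`hp`), it maps `T = {z | (∀ k, 0 ≤ z k) ∧ ∑ k, z k ≤ 1}` onto `convexHull ℝ (range p)`
(`convexHull_range_eq_exists_affineCombination`, or `convexHull_range_eq...`, or
`Finset.centerMass`; see also `stdSimplex`, `convexHull_basis_eq_stdSimplex`,
`LinearMap.image_convexHull`), and the image of Lebesgue measure under `A` is a positive finite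
multiple of the volume (`Measure.map_linearMap_addHaar_eq_smul_addHaar` after composing with
`EuclideanSpace.volume_preserving_measurableEquiv`, or uniqueness of Haar measure: the image of
`volume` under a continuous linear equivalence is an additive Haar measure,
`ContinuousLinearEquiv.isAddHaarMeasure_map`, `Measure.isAddHaarMeasure_eq_smul`). For `y` with sum one
`∑ i, y i • p i = A (fun k => y k.succ)`. Therefore by `law_drop`
`(sig (d+1)).map (fun y => ∑ i, y i • p i) = c' • volume.restrict (convexHull ℝ (range p))`, `0 < c' < ∞`;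
evaluating at `univ` gives `c' * volume (convexHull ℝ (range p)) = 1`, and both statements follow.
-/

set_option autoImplicit false

open MeasureTheory Set

namespace Pool.Agent.Lib.MP_29b1bb_gt

/-- the linear map to the edges at the vertex `0` -/
private noncomputable def leb2F {d : ℕ} (p : Fin (d + 1) → EuclideanSpace ℝ (Fin d)) :
    (Fin d → ℝ) →ₗ[ℝ] EuclideanSpace ℝ (Fin d) :=
  Fintype.linearCombination ℝ (fun k : Fin d => p k.succ - p 0)

private theorem leb2F_apply {d : ℕ} (p : Fin (d + 1) → EuclideanSpace ℝ (Fin d))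
    (z : Fin d → ℝ) : leb2F p z = ∑ k, z k • (p k.succ - p 0) := by
  unfold leb2F
  rw [Fintype.linearCombination_apply]

private theorem leb2F_inj {d : ℕ} (p : Fin (d + 1) → EuclideanSpace ℝ (Fin d))
    (hp : AffineIndependent ℝ p) : Function.Injective (leb2F p) := by
  have h1 := (affineIndependent_iff_linearIndependent_vsub ℝ p 0).1 hp
  have h2 : LinearIndependent ℝ (fun k : Fin d => p k.succ - p 0) := by
    have h3 := h1.comp (fun k : Fin d => (⟨k.succ, Fin.succ_ne_zero k⟩ : {x // x ≠ (0 : Fin (d + 1))}))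
      (by
        intro a b hab
        exact Fin.succ_injective _ (congrArg Subtype.val hab))
    exact h3
  rw [← LinearMap.ker_eq_bot, LinearMap.ker_eq_bot']
  intro m hm
  rw [leb2F_apply] at hm
  funext k
  exact (Fintype.linearIndependent_iff.1 h2) m hm k

private theorem leb2_sum {d : ℕ} (p : Fin (d + 1) → EuclideanSpace ℝ (Fin d))
    {y : Fin (d + 1) → ℝ} (hy : ∑ i, y i = 1) :
    ∑ i, y i • p i = p 0 + leb2F p (fun k => y k.succ) := by
  rw [leb2F_apply, Fin.sum_univ_succ]
  rw [Fin.sum_univ_succ] at hy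
  have h0 : y 0 = 1 - ∑ k : Fin d, y k.succ := by linarith
  rw [h0, sub_smul, one_smul]
  simp only [smul_sub, Finset.sum_sub_distrib]
  rw [Finset.sum_smul]
  abel

private theorem leb2_hull {d : ℕ} (p : Fin (d + 1) → EuclideanSpace ℝ (Fin d)) :
    convexHull ℝ (range p) =
      (fun y : Fin (d + 1) → ℝ => ∑ i, y i • p i) '' stdSimplex ℝ (Fin (d + 1)) := by
  have h1 := LinearMap.image_convexHull (Fintype.linearCombination ℝ p)
    (range fun i : Fin (d + 1) ↦ (Pi.single i 1 : Fin (d + 1) → ℝ))
  rw [convexHull_rangle_single_eq_stdSimplex, ← range_comp] at h1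
  have h2 : (⇑(Fintype.linearCombination ℝ p) ∘ fun i : Fin (d + 1) ↦
      (Pi.single i 1 : Fin (d + 1) → ℝ)) = p := by
    funext i
    simp [Fintype.linearCombination_apply_single]
  rw [h2] at h1
  rw [← h1]
  rfl

private theorem leb2_pre {d : ℕ} (p : Fin (d + 1) → EuclideanSpace ℝ (Fin d))
    (hp : AffineIndependent ℝ p) :
    (fun z : Fin d → ℝ => p 0 + leb2F p z) ⁻¹' convexHull ℝ (range p) =
      {z | (∀ k, 0 ≤ z k) ∧ ∑ k, z k ≤ 1} := by
  ext z
  rw [mem_preimage, leb2_hull, mem_image]
  constructor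
  · rintro ⟨y, hy, hyz⟩
    rw [leb2_sum p hy.2] at hyz
    have h1 : (fun k : Fin d => y k.succ) = z := leb2F_inj p hp (add_left_cancel hyz)
    subst h1
    refine ⟨fun k => hy.1 _, ?_⟩
    have h2 := hy.2
    rw [Fin.sum_univ_succ] at h2
    have h3 := hy.1 0
    linarith
  · rintro ⟨h1, h2⟩
    have hs : ∑ i, (Fin.cons (1 - ∑ k, z k) z : Fin (d + 1) → ℝ) i = 1 := by
      rw [Fin.sum_univ_succ]
      simp
    refine ⟨Fin.cons (1 - ∑ k, z k) z, ⟨?_, hs⟩, ?_⟩
    · intro i
      refine Fin.cases ?_ (fun k => ?_) i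
      · simpa using h2
      · simpa using h1 k
    · rw [leb2_sum p hs]
      simp

private theorem leb2_key {d : ℕ} (p : Fin (d + 1) → EuclideanSpace ℝ (Fin d))
    (hp : AffineIndependent ℝ p) : ∃ c : ENNReal, c ≠ 0 ∧ c ≠ ⊤ ∧
      (sig (d + 1)).map (fun y : Fin (d + 1) → ℝ => ∑ i, y i • p i) =
        c • (volume : Measure (EuclideanSpace ℝ (Fin d))).restrict (convexHull ℝ (range p)) := by
  obtain ⟨c, hc0, hct, hc⟩ := law_drop d
  -- the linear equivalence
  have hdim : Module.finrank ℝ (Fin d → ℝ) = Module.finrank ℝ (EuclideanSpace ℝ (Fin d)) := by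
    simp
  set L : (Fin d → ℝ) ≃L[ℝ] EuclideanSpace ℝ (Fin d) :=
    ((leb2F p).linearEquivOfInjective (leb2F_inj p hp) hdim).toContinuousLinearEquiv with hL
  have hLa : ∀ z, L z = leb2F p z := fun z => rfl
  have hcont : Continuous (leb2F p) := L.continuous
  set κ := Measure.addHaarScalarFactor ((volume : Measure (Fin d → ℝ)).map L)
    (volume : Measure (EuclideanSpace ℝ (Fin d))) with hκ
  have hκ0 : 0 < κ := Measure.addHaarScalarFactor_pos_of_isAddHaarMeasure _ _
  have hmapL : (volume : Measure (Fin d → ℝ)).map L = κ • (volume : Measure _) :=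
    Measure.isAddLeftInvariant_eq_smul _ _
  have hmapA : (volume : Measure (Fin d → ℝ)).map (fun z => p 0 + leb2F p z) =
      (κ : ENNReal) • (volume : Measure _) := by
    have h1 : (fun z => p 0 + leb2F p z) = (fun x => p 0 + x) ∘ L := rfl
    rw [h1, ← Measure.map_map (measurable_const_add _) L.continuous.measurable, hmapL]
    rw [Measure.map_smul, map_add_left_eq_self]
    rfl
  have hA : Measurable (fun z : Fin d → ℝ => p 0 + leb2F p z) :=
    (continuous_const.add hcont).measurable
  have hcl : IsClosed (convexHull ℝ (range p)) :=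
    ((finite_range p).isCompact_convexHull (𝕜 := ℝ)).isClosed
  have hdrop : Measurable (fun y : Fin (d + 1) → ℝ => fun k : Fin d => y k.succ) := by fun_prop
  have hF : (sig (d + 1)).map (fun y : Fin (d + 1) → ℝ => ∑ i, y i • p i) =
      ((sig (d + 1)).map (fun y : Fin (d + 1) → ℝ => fun k : Fin d => y k.succ)).map
        (fun z => p 0 + leb2F p z) := by
    rw [Measure.map_map hA hdrop]
    refine Measure.map_congr ?_
    filter_upwards [sig_ae_mem (d + 1) (Nat.succ_pos d)] with y hy
    exact leb2_sum p hy.2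
  refine ⟨c * κ, mul_ne_zero hc0 (by exact_mod_cast hκ0.ne'),
    ENNReal.mul_ne_top hct ENNReal.coe_ne_top, ?_⟩
  rw [hF, hc, Measure.map_smul, ← leb2_pre p hp, ← Measure.restrict_map hA hcl.measurableSet,
    hmapA, Measure.restrict_smul, smul_smul]

private theorem leb2_vol {d : ℕ} (p : Fin (d + 1) → EuclideanSpace ℝ (Fin d))
    (hp : AffineIndependent ℝ p) : ∃ c : ENNReal, c * volume (convexHull ℝ (range p)) = 1 ∧
      c ≠ ⊤ ∧ (sig (d + 1)).map (fun y : Fin (d + 1) → ℝ => ∑ i, y i • p i) =
        c • (volume : Measure (EuclideanSpace ℝ (Fin d))).restrict (convexHull ℝ (range p)) := by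
  obtain ⟨c, hc0, hct, hc⟩ := leb2_key p hp
  refine ⟨c, ?_, hct, hc⟩
  have hm : Measurable (fun y : Fin (d + 1) → ℝ => ∑ i, y i • p i) := by
    refine Continuous.measurable ?_
    exact continuous_finsetSum _ fun i _ => (continuous_apply i).smul continuous_const
  have h1 := congrArg (fun μ : Measure _ => μ univ) hc
  simp only [Measure.smul_apply, Measure.restrict_apply_univ, smul_eq_mul] at h1
  rw [Measure.map_apply hm MeasurableSet.univ, preimage_univ, measure_univ] at h1
  exact h1.symm

theorem volume_simplex_ne {d : ℕ} (p : Fin (d + 1) → EuclideanSpace ℝ (Fin d))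
    (hp : AffineIndependent ℝ p) :
    volume (convexHull ℝ (range p)) ≠ 0 ∧ volume (convexHull ℝ (range p)) ≠ ⊤ := by
  obtain ⟨c, h1, -, -⟩ := leb2_vol p hp
  refine ⟨fun h => ?_, fun h => ?_⟩
  · rw [h, mul_zero] at h1
    exact zero_ne_one h1
  · rw [h] at h1
    have hc0 : c ≠ 0 := by
      rintro rfl
      rw [zero_mul] at h1
      exact zero_ne_one h1
    rw [ENNReal.mul_top hc0] at h1
    exact ENNReal.top_ne_one h1

theorem restrict_simplex {d : ℕ} (p : Fin (d + 1) → EuclideanSpace ℝ (Fin d))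
    (hp : AffineIndependent ℝ p) :
    (volume : Measure (EuclideanSpace ℝ (Fin d))).restrict (convexHull ℝ (range p)) =
      volume (convexHull ℝ (range p)) •
        (sig (d + 1)).map (fun y : Fin (d + 1) → ℝ => ∑ i, y i • p i) := by
  obtain ⟨c, h1, -, h2⟩ := leb2_vol p hp
  rw [h2, smul_smul, mul_comm, h1, one_smul]

end Pool.Agent.Lib.MP_29b1bb_gt
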