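import Pool.Agent.Lib.MP_29b1bb_gt.Defs

/-!
# LM-Vol: the volume of a simplex as a determinant
-/

set_option autoImplicit false

open MeasureTheory Set

namespace Pool.Agent.Lib.MP_29b1bb_gt

/-- the matrix with rows `(1, x i)` -/
private noncomputable def volM {d : ℕ} (x : Fin (d + 1) → EuclideanSpace ℝ (Fin d)) :
    Matrix (Fin (d + 1)) (Fin (d + 1)) ℝ :=
  Matrix.of fun i => (Fin.cons (1 : ℝ) (fun l => x i l) : Fin (d + 1) → ℝ)

private noncomputable def volN {d : ℕ} (x : Fin (d + 1) → EuclideanSpace ℝ (Fin d)) :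
    Matrix (Fin d) (Fin d) ℝ :=
  Matrix.of fun k l => x k.succ l - x 0 l

private theorem volM_det {d : ℕ} (x : Fin (d + 1) → EuclideanSpace ℝ (Fin d)) :
    (volM x).det = (volN x).det := by
  set B : Matrix (Fin (d + 1)) (Fin (d + 1)) ℝ :=
    Matrix.of (Fin.cons (Fin.cons (1 : ℝ) (fun l => x 0 l) : Fin (d + 1) → ℝ)
      (fun k => (Fin.cons (0 : ℝ) (fun l => x k.succ l - x 0 l) : Fin (d + 1) → ℝ)) :
        Fin (d + 1) → Fin (d + 1) → ℝ) with hB
  have h1 : (volM x).det = B.det := by
    refine Matrix.det_eq_of_forall_row_eq_smul_add_const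
      (Fin.cons (0 : ℝ) (fun _ => 1) : Fin (d + 1) → ℝ) 0 rfl ?_
    intro i j
    refine Fin.cases ?_ ?_ i
    · refine Fin.cases ?_ ?_ j <;> simp [volM, hB]
    · intro i
      refine Fin.cases ?_ ?_ j <;> simp [volM, hB]
  rw [h1, Matrix.det_succ_column_zero, Fin.sum_univ_succ]
  have h2 : ∀ i : Fin d, B i.succ 0 = 0 := fun i => by simp [hB]
  have h3 : B 0 0 = 1 := by simp [hB]
  simp only [h2, h3, mul_zero, zero_mul, Finset.sum_const_zero, add_zero, Fin.val_zero, pow_zero,
    one_mul]
  congr 1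

private theorem volM_mul {d : ℕ} (p : Fin (d + 1) → EuclideanSpace ℝ (Fin d))
    (y : Fin (d + 1) → Fin (d + 1) → ℝ) (hy : ∀ i, ∑ j, y i j = 1) :
    volM (fun i => ∑ j, y i j • p j) = Matrix.of y * volM p := by
  ext i j
  rw [Matrix.mul_apply]
  refine Fin.cases ?_ ?_ j
  · simp [volM, hy]
  · intro l
    simp [volM]

private theorem vol_conv {d : ℕ} (x : Fin (d + 1) → EuclideanSpace ℝ (Fin d)) :
    volume (convexHull ℝ (range x)) =
      ENNReal.ofReal |(volM x).det| * volume (convexHull ℝ (range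
        (Fin.cons 0 (fun k => EuclideanSpace.single k (1 : ℝ)) :
          Fin (d + 1) → EuclideanSpace ℝ (Fin d)))) := by
  set s : Fin (d + 1) → EuclideanSpace ℝ (Fin d) :=
    Fin.cons 0 (fun k => EuclideanSpace.single k (1 : ℝ)) with hs
  let b := (EuclideanSpace.basisFun (Fin d) ℝ).toBasis
  let L : EuclideanSpace ℝ (Fin d) →ₗ[ℝ] EuclideanSpace ℝ (Fin d) :=
    Matrix.toLin b b (volN x).transpose
  have hL : ∀ k : Fin d, L (EuclideanSpace.single k (1 : ℝ)) = x k.succ - x 0 := by
    intro k
    have h1 : EuclideanSpace.single k (1 : ℝ) = b k := by simp [b]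
    rw [h1]
    simp only [L, Matrix.toLin_self]
    ext l
    simp only [b, volN, Matrix.transpose_apply, Matrix.of_apply, OrthonormalBasis.coe_toBasis,
      EuclideanSpace.basisFun_apply, PiLp.sub_apply, WithLp.ofLp_sum, WithLp.ofLp_smul,
      Finset.sum_apply, Pi.smul_apply, smul_eq_mul, PiLp.single_apply]
    simp
  have hx : x = (fun z => x 0 + z) ∘ (fun z => L z) ∘ s := by
    funext i
    refine Fin.cases ?_ ?_ i
    · simp [hs]
    · intro k
      simp only [Function.comp, hs, Fin.cons_succ]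
      rw [hL]
      abel
  have h2 : convexHull ℝ (range x) = (fun z => x 0 + z) '' (L '' convexHull ℝ (range s)) := by
    have h3 : range x = (fun z => x 0 + z) '' (L '' (range s)) := by
      conv_lhs => rw [hx]
      rw [range_comp, range_comp]
    rw [h3, LinearMap.image_convexHull]
    have := AffineMap.image_convexHull
      ((AffineEquiv.constVAdd ℝ (EuclideanSpace ℝ (Fin d)) (x 0)).toAffineMap) (L '' (range s))
    simpa using this.symm
  rw [h2]
  have h4 : volume ((fun z => x 0 + z) '' (L '' convexHull ℝ (range s))) =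
      volume (L '' convexHull ℝ (range s)) := by
    rw [Set.image_add_left]
    exact measure_preimage_add _ _ _
  rw [h4, Measure.addHaar_image_linearMap, LinearMap.det_toLin, Matrix.det_transpose, volM_det]

theorem volume_conv_rows {d : ℕ} (p : Fin (d + 1) → EuclideanSpace ℝ (Fin d))
    (y : Fin (d + 1) → Fin (d + 1) → ℝ) (hy : ∀ i, ∑ j, y i j = 1) :
    volume (convexHull ℝ (range fun i => ∑ j, y i j • p j)) =
      ENNReal.ofReal |Matrix.det (Matrix.of y)| * volume (convexHull ℝ (range p)) := by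
  rw [vol_conv, vol_conv p, volM_mul p y hy, Matrix.det_mul, abs_mul,
    ENNReal.ofReal_mul (abs_nonneg _), mul_assoc]

/-- a simplex with a nonzero determinant is nondegenerate -/
theorem affineIndependent_rows {d : ℕ} (p : Fin (d + 1) → EuclideanSpace ℝ (Fin d))
    (hp : AffineIndependent ℝ p) (y : Fin (d + 1) → Fin (d + 1) → ℝ) (hy : ∀ i, ∑ j, y i j = 1)
    (hdet : Matrix.det (Matrix.of y) ≠ 0) :
    AffineIndependent ℝ (fun i => ∑ j, y i j • p j) := by
  rw [affineIndependent_iff_of_fintype] at hp ⊢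
  intro w hw1 hw2
  rw [Finset.weightedVSub_eq_linear_combination _ hw1] at hw2
  have h1 : ∑ j, (∑ i, w i * y i j) = 0 := by
    rw [Finset.sum_comm]
    simp only [← Finset.mul_sum, hy, mul_one]
    exact hw1
  have h2 : Finset.univ.weightedVSub p (fun j => ∑ i, w i * y i j) = 0 := by
    rw [Finset.weightedVSub_eq_linear_combination _ h1]
    rw [← hw2]
    simp only [Finset.sum_smul, Finset.smul_sum, smul_smul]
    rw [Finset.sum_comm]
  have h3 := hp (fun j => ∑ i, w i * y i j) h1 h2
  have h4 : Matrix.vecMul w (Matrix.of y) = 0 := by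
    funext j
    have := h3 j
    simpa [Matrix.vecMul, dotProduct] using this
  have h5 := Matrix.eq_zero_of_vecMul_eq_zero hdet h4
  intro i
  rw [h5]
  rfl

end Pool.Agent.Lib.MP_29b1bb_gt
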