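import Pool.Agent.Lib.MP_29b1bb_gt.Leb2
import Pool.Agent.Lib.MP_29b1bb_gt.Vol
import Pool.Agent.Lib.MP_29b1bb_gt.FDet

/-!
# LM-Link: from a convex body in a simplex to a subset of the standard simplex
-/

set_option autoImplicit false

open MeasureTheory Set

namespace Pool.Agent.Lib.MP_29b1bb_gt

/-- the set of barycentric coordinates of the points of `K` -/
def coord {d : ℕ} (p : Fin (d + 1) → EuclideanSpace ℝ (Fin d))
    (K : Set (EuclideanSpace ℝ (Fin d))) : Set (Fin (d + 1) → ℝ) :=
  {y | y ∈ stdSimplex ℝ (Fin (d + 1)) ∧ ∑ i, y i • p i ∈ K}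

private theorem link_cont {d : ℕ} (p : Fin (d + 1) → EuclideanSpace ℝ (Fin d)) :
    Continuous (fun y : Fin (d + 1) → ℝ => ∑ i, y i • p i) := by
  fun_prop

private theorem coord_eq {d : ℕ} (p : Fin (d + 1) → EuclideanSpace ℝ (Fin d))
    (K : Set (EuclideanSpace ℝ (Fin d))) : coord p K = stdSimplex ℝ (Fin (d + 1)) ∩
      (fun y : Fin (d + 1) → ℝ => ∑ i, y i • p i) ⁻¹' K := rfl

theorem coord_closed {d : ℕ} (p : Fin (d + 1) → EuclideanSpace ℝ (Fin d))
    {K : Set (EuclideanSpace ℝ (Fin d))} (hK : IsClosed K) : IsClosed (coord p K) := by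
  rw [coord_eq]
  exact (isClosed_stdSimplex ℝ (Fin (d + 1))).inter (hK.preimage (link_cont p))

theorem coord_convex {d : ℕ} (p : Fin (d + 1) → EuclideanSpace ℝ (Fin d))
    {K : Set (EuclideanSpace ℝ (Fin d))} (hK : Convex ℝ K) : Convex ℝ (coord p K) := by
  rw [coord_eq]
  have h : (fun y : Fin (d + 1) → ℝ => ∑ i, y i • p i) = Fintype.linearCombination ℝ p := by
    funext y
    rw [Fintype.linearCombination_apply]
  rw [h]
  exact (convex_stdSimplex ℝ (Fin (d + 1))).inter (hK.linear_preimage _)

private theorem coord_meas {d : ℕ} (p : Fin (d + 1) → EuclideanSpace ℝ (Fin d))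
    {K : Set (EuclideanSpace ℝ (Fin d))} (hK : MeasurableSet K) : MeasurableSet (coord p K) := by
  rw [coord_eq]
  exact (isClosed_stdSimplex ℝ (Fin (d + 1))).measurableSet.inter ((link_cont p).measurable hK)

private theorem link_restrict {d : ℕ} (p : Fin (d + 1) → EuclideanSpace ℝ (Fin d))
    (hp : AffineIndependent ℝ p) {K : Set (EuclideanSpace ℝ (Fin d))} (hK : MeasurableSet K)
    (hsub : K ⊆ convexHull ℝ (range p)) :
    (volume : Measure (EuclideanSpace ℝ (Fin d))).restrict K =
      volume (convexHull ℝ (range p)) • ((sig (d + 1)).restrict (coord p K)).map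
        (fun y : Fin (d + 1) → ℝ => ∑ i, y i • p i) := by
  have h1 : (volume : Measure (EuclideanSpace ℝ (Fin d))).restrict K =
      ((volume : Measure (EuclideanSpace ℝ (Fin d))).restrict
        (convexHull ℝ (range p))).restrict K := by
    rw [Measure.restrict_restrict hK, inter_eq_left.mpr hsub]
  rw [h1, restrict_simplex p hp, Measure.restrict_smul,
    Measure.restrict_map (link_cont p).measurable hK]
  congr 2
  refine Measure.restrict_congr_set ?_
  filter_upwards [sig_ae_mem (d + 1) (Nat.succ_pos d)] with y hy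
  apply propext
  exact ⟨fun h => ⟨hy, h⟩, fun h => h.2⟩

theorem link_vol {d : ℕ} (p : Fin (d + 1) → EuclideanSpace ℝ (Fin d))
    (hp : AffineIndependent ℝ p) {K : Set (EuclideanSpace ℝ (Fin d))} (hK : MeasurableSet K)
    (hsub : K ⊆ convexHull ℝ (range p)) :
    volume K = volume (convexHull ℝ (range p)) * sig (d + 1) (coord p K) := by
  have h1 := congrArg (fun μ : Measure (EuclideanSpace ℝ (Fin d)) => μ univ)
    (link_restrict p hp hK hsub)
  simp only [Measure.restrict_apply MeasurableSet.univ, univ_inter] at h1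
  rw [h1, Measure.smul_apply, Measure.map_apply (link_cont p).measurable MeasurableSet.univ,
    preimage_univ, Measure.restrict_apply MeasurableSet.univ, univ_inter, smul_eq_mul]

private theorem link_formula {d : ℕ} (p : Fin (d + 1) → EuclideanSpace ℝ (Fin d))
    (hp : AffineIndependent ℝ p) :
    ∃ g : (Fin (d + 1) → EuclideanSpace ℝ (Fin d)) → ℝ, Continuous g ∧
      ∀ x, (volume (convexHull ℝ (range x))).toReal = g x := by
  have htop : affineSpan ℝ (range p) = ⊤ := by
    rw [hp.affineSpan_eq_top_iff_card_eq_finrank_add_one]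
    simp
  let b : AffineBasis (Fin (d + 1)) ℝ (EuclideanSpace ℝ (Fin d)) := ⟨p, hp, htop⟩
  have hb : ∀ i, b i = p i := fun i => rfl
  refine ⟨fun x => |Matrix.det (Matrix.of (fun i j => b.coord j (x i)))| *
    (volume (convexHull ℝ (range p))).toReal, ?_, ?_⟩
  · have h1 : Continuous (fun x : Fin (d + 1) → EuclideanSpace ℝ (Fin d) =>
        (Matrix.of (fun i j => b.coord j (x i)) : Matrix (Fin (d + 1)) (Fin (d + 1)) ℝ)) := by
      refine continuous_matrix fun i j => ?_
      exact (AffineMap.continuous_of_finiteDimensional (b.coord j)).comp (continuous_apply i)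
    exact (h1.matrix_det.abs).mul continuous_const
  · intro x
    have h1 := volume_conv_rows p (fun i j => b.coord j (x i))
      (fun i => b.sum_coord_apply_eq_one (x i))
    have h2 : (fun i => ∑ j, (b.coord j (x i)) • p j) = x := by
      funext i
      exact b.linear_combination_coord_eq_self (x i)
    rw [h2] at h1
    rw [h1, ENNReal.toReal_mul, ENNReal.toReal_ofReal (abs_nonneg _)]

theorem link_int {d : ℕ} (p : Fin (d + 1) → EuclideanSpace ℝ (Fin d))
    (hp : AffineIndependent ℝ p) {K : Set (EuclideanSpace ℝ (Fin d))} (hK : MeasurableSet K)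
    (hsub : K ⊆ convexHull ℝ (range p)) :
    ∫ x in Set.pi Set.univ (fun _ : Fin (d + 1) => K), (volume (convexHull ℝ (range x))).toReal =
      (volume (convexHull ℝ (range p))).toReal ^ (d + 2) * Gdet d (coord p K) := by
  obtain ⟨g, hg, hgx⟩ := link_formula p hp
  set V : ENNReal := volume (convexHull ℝ (range p)) with hV
  have hVt : V ≠ ⊤ := (volume_simplex_ne p hp).2
  set L : (Fin (d + 1) → ℝ) → EuclideanSpace ℝ (Fin d) := fun y => ∑ i, y i • p i with hL
  have hLm : Measurable L := (link_cont p).measurable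
  set m0 : Measure (Fin (d + 1) → ℝ) := (sig (d + 1)).restrict (coord p K) with hm0
  haveI : IsFiniteMeasure m0 := by rw [hm0]; infer_instance
  haveI : IsFiniteMeasure (m0.map L) := by infer_instance
  have hres : (volume : Measure (EuclideanSpace ℝ (Fin d))).restrict K = V • m0.map L :=
    link_restrict p hp hK hsub
  have h1 : (volume : Measure (Fin (d + 1) → EuclideanSpace ℝ (Fin d))).restrict
      (Set.pi Set.univ (fun _ : Fin (d + 1) => K)) =
      (V ^ (d + 1)) • Measure.pi (fun _ : Fin (d + 1) => m0.map L) := by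
    rw [volume_pi, Measure.restrict_pi_pi]
    refine Measure.pi_eq fun s hs => ?_
    rw [Measure.smul_apply, Measure.pi_pi, hres]
    simp only [Measure.smul_apply, smul_eq_mul]
    rw [Finset.prod_mul_distrib, Finset.prod_const, Finset.card_univ, Fintype.card_fin]
  have h2 : Measure.pi (fun _ : Fin (d + 1) => m0.map L) =
      (Measure.pi (fun _ : Fin (d + 1) => m0)).map (fun Y i => L (Y i)) := by
    rw [Measure.pi_map_pi]
    exact fun i => hLm.aemeasurable
  have hLL : Measurable (fun (Y : Fin (d + 1) → (Fin (d + 1) → ℝ)) i => L (Y i)) :=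
    measurable_pi_lambda _ fun i => hLm.comp (measurable_pi_apply i)
  have h3 : Measure.pi (fun _ : Fin (d + 1) => m0) =
      (Measure.pi (fun _ : Fin (d + 1) => sig (d + 1))).restrict
        (Set.pi Set.univ (fun _ : Fin (d + 1) => coord p K)) := by
    rw [Measure.restrict_pi_pi]
  rw [h1, h2, integral_smul_measure, integral_map hLL.aemeasurable]
  · have h4 : ∀ᵐ Y ∂(Measure.pi (fun _ : Fin (d + 1) => m0)),
        (volume (convexHull ℝ (range fun i => L (Y i)))).toReal =
          |Matrix.det (Matrix.of Y)| * V.toReal := by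
      rw [h3]
      have hmeas : MeasurableSet (Set.pi Set.univ (fun _ : Fin (d + 1) => coord p K)) :=
        MeasurableSet.pi countable_univ fun _ _ => coord_meas p hK
      filter_upwards [ae_restrict_mem hmeas] with Y hY
      have h5 := volume_conv_rows p Y (fun i => (hY i (mem_univ i)).1.2)
      rw [hL, h5, ENNReal.toReal_mul, ENNReal.toReal_ofReal (abs_nonneg _)]
    rw [integral_congr_ae h4, integral_mul_const, h3]
    unfold Gdet
    rw [ENNReal.toReal_pow, smul_eq_mul]
    ring
  · have : (fun x : Fin (d + 1) → EuclideanSpace ℝ (Fin d) =>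
        (volume (convexHull ℝ (range x))).toReal) = g := by
      funext x; exact hgx x
    rw [this]
    exact hg.aestronglyMeasurable

/-- the simplex itself -/
theorem Gdet_coord_self {d : ℕ} (p : Fin (d + 1) → EuclideanSpace ℝ (Fin d)) :
    Gdet d (coord p (convexHull ℝ (range p))) = Gdet d univ := by
  unfold Gdet
  refine setIntegral_congr_set ?_
  filter_upwards [ae_rows_mem (d + 1) (d + 1) (Nat.succ_pos d)] with Y hY
  apply propext
  constructor
  · intro _ i _
    exact mem_univ _
  · intro _ i _
    refine ⟨hY i, ?_⟩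
    have hc := convex_convexHull ℝ (range p)
    exact hc.sum_mem (fun j _ => (hY i).1 j) (hY i).2
      (fun j _ => subset_convexHull ℝ (range p) (mem_range_self j))

end Pool.Agent.Lib.MP_29b1bb_gt
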