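import Pool.Agent.Lib.MP_29b1bb_gt.MinA2
import Pool.Agent.Lib.MP_29b1bb_gt.Vol

set_option autoImplicit false

open MeasureTheory Set

namespace Pool.Agent.Lib.MP_29b1bb_gt

private theorem MinB_hull {d : ℕ} (q : Fin (d + 1) → EuclideanSpace ℝ (Fin d)) :
    convexHull ℝ (range q) =
      (fun y : Fin (d + 1) → ℝ => ∑ i, y i • q i) '' stdSimplex ℝ (Fin (d + 1)) := by
  have h1 : (fun y : Fin (d + 1) → ℝ => ∑ i, y i • q i) = Fintype.linearCombination ℝ q := by
    funext y
    rw [Fintype.linearCombination_apply]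
  rw [h1, ← convexHull_rangle_single_eq_stdSimplex ℝ (Fin (d + 1)), LinearMap.image_convexHull,
    ← Set.range_comp]
  congr 2
  funext i
  simp [Fintype.linearCombination_apply]

private theorem MinB_comb {d : ℕ} (q : Fin (d + 1) → EuclideanSpace ℝ (Fin d))
    (A : Matrix (Fin (d + 1)) (Fin (d + 1)) ℝ) (y : Fin (d + 1) → ℝ) :
    ∑ j, (Matrix.vecMul y A) j • q j = ∑ i, y i • ∑ j, A i j • q j := by
  simp only [Matrix.vecMul, dotProduct, Finset.sum_smul, Finset.smul_sum, smul_smul]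
  exact Finset.sum_comm

private theorem MinB_sum {d : ℕ} (A : Matrix (Fin (d + 1)) (Fin (d + 1)) ℝ)
    (hA : ∀ i, ∑ j, A i j = 1) (y : Fin (d + 1) → ℝ) :
    ∑ j, (Matrix.vecMul y A) j = ∑ i, y i := by
  simp only [Matrix.vecMul, dotProduct]
  rw [Finset.sum_comm]
  refine Finset.sum_congr rfl fun i _ => ?_
  rw [← Finset.mul_sum, hA i, mul_one]

private theorem MinB_uniq {d : ℕ} (q : Fin (d + 1) → EuclideanSpace ℝ (Fin d))
    (hq : AffineIndependent ℝ q) (y w : Fin (d + 1) → ℝ) (h1 : ∑ i, y i = ∑ i, w i)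
    (h2 : ∑ i, y i • q i = ∑ i, w i • q i) : y = w := by
  have h := (affineIndependent_iff.mp hq) Finset.univ (fun i => y i - w i)
    (by rw [Finset.sum_sub_distrib, h1, sub_self])
    (by simp only [sub_smul]; rw [Finset.sum_sub_distrib, h2, sub_self])
  funext i
  have := h i (Finset.mem_univ i)
  linarith

private theorem MinB_coord {d : ℕ} (q : Fin (d + 1) → EuclideanSpace ℝ (Fin d))
    (hq : AffineIndependent ℝ q) (x : EuclideanSpace ℝ (Fin d)) :
    ∃ y : Fin (d + 1) → ℝ, ∑ i, y i = 1 ∧ ∑ i, y i • q i = x := by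
  have htop : affineSpan ℝ (range q) = ⊤ := by
    rw [hq.affineSpan_eq_top_iff_card_eq_finrank_add_one]
    simp
  let b : AffineBasis (Fin (d + 1)) ℝ (EuclideanSpace ℝ (Fin d)) := ⟨q, hq, htop⟩
  exact ⟨fun i => b.coord i x, b.sum_coord_apply_eq_one x, b.linear_combination_coord_eq_self x⟩

private theorem MinB_pts {d : ℕ} (K : Set (EuclideanSpace ℝ (Fin d)))
    (hi : (interior K).Nonempty) (q : Fin (d + 1) → EuclideanSpace ℝ (Fin d))
    (hsub : K ⊆ convexHull ℝ (range q)) :
    ∃ Y : Fin (d + 1) → Fin (d + 1) → ℝ,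
      (∀ i, Y i ∈ {y | y ∈ stdSimplex ℝ (Fin (d + 1)) ∧ ∑ k, y k • q k ∈ K}) ∧
      Matrix.det (Matrix.of Y) ≠ 0 := by
  obtain ⟨x, hx⟩ := hi
  have hxK : x ∈ K := interior_subset hx
  obtain ⟨y, hy, hyx⟩ := (MinB_hull q) ▸ hsub hxK
  simp only at hyx
  -- a small step towards every vertex stays in the body
  have hstep : ∀ i, ∃ s : ℝ, 0 < s ∧ ∀ t, 0 < t → t < s → x + t • (q i - x) ∈ K := by
    intro i
    have hcont : Filter.Tendsto (fun t : ℝ => x + t • (q i - x)) (nhds 0) (nhds x) := by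
      have : Continuous fun t : ℝ => x + t • (q i - x) := by fun_prop
      have h2 := this.tendsto 0
      simpa using h2
    have h3 := hcont.eventually (isOpen_interior.mem_nhds hx)
    obtain ⟨s, hs, hs2⟩ := Metric.eventually_nhds_iff.mp h3
    refine ⟨s, hs, fun t ht hts => interior_subset (hs2 ?_)⟩
    rw [Real.dist_eq, sub_zero, abs_of_pos ht]
    exact hts
  choose s hs hs2 using hstep
  obtain ⟨t, ht, ht1, hts⟩ : ∃ t : ℝ, 0 < t ∧ t < 1 ∧ ∀ i, t < s i := by
    have h1 : 0 < Finset.univ.inf' Finset.univ_nonempty s := by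
      rw [Finset.lt_inf'_iff]
      exact fun i _ => hs i
    refine ⟨min (1 / 2) (Finset.univ.inf' Finset.univ_nonempty s / 2), by positivity, ?_, ?_⟩
    · exact lt_of_le_of_lt (min_le_left _ _) (by norm_num)
    · intro i
      have h2 : Finset.univ.inf' Finset.univ_nonempty s ≤ s i :=
        Finset.inf'_le _ (Finset.mem_univ i)
      have h3 := min_le_right (1 / 2 : ℝ) (Finset.univ.inf' Finset.univ_nonempty s / 2)
      linarith
  refine ⟨fun i => (1 - t) • y + t • Pi.single i 1, fun i => ⟨?_, ?_⟩, ?_⟩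
  · exact (convex_stdSimplex ℝ (Fin (d + 1))) hy (single_mem_stdSimplex ℝ i) (by linarith) ht.le
      (by ring)
  · have h4 := hs2 i t ht (hts i)
    have h5 : ∑ k, ((1 - t) • y + t • (Pi.single i 1 : Fin (d + 1) → ℝ)) k • q k =
        x + t • (q i - x) := by
      simp only [Pi.add_apply, Pi.smul_apply, smul_eq_mul, add_smul, mul_smul,
        Finset.sum_add_distrib, ← Finset.smul_sum]
      rw [hyx]
      have h6 : ∑ k, (Pi.single i (1 : ℝ) : Fin (d + 1) → ℝ) k • q k = q i := by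
        rw [Finset.sum_eq_single i]
        · simp
        · intro b _ hb
          simp [Pi.single_eq_of_ne hb]
        · intro h
          exact absurd (Finset.mem_univ i) h
      rw [h6, smul_sub, sub_smul, one_smul]
      abel
    rw [h5]
    exact h4
  · intro h0
    obtain ⟨v, hv, hv0⟩ := Matrix.exists_vecMul_eq_zero_iff.mpr h0
    apply hv
    have h7 : ∀ k, (∑ i, v i) * ((1 - t) * y k) + v k * t = 0 := by
      intro k
      have h8 := congrFun hv0 k
      simp only [Matrix.vecMul, dotProduct, Matrix.of_apply, Pi.add_apply, Pi.smul_apply,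
        smul_eq_mul, Pi.zero_apply, mul_add, Finset.sum_add_distrib] at h8
      rw [← h8, Finset.sum_mul]
      congr 1
      rw [Finset.sum_eq_single k]
      · simp
      · intro b _ hb
        rw [Pi.single_eq_of_ne (Ne.symm hb)]
        ring
      · intro h
        exact absurd (Finset.mem_univ k) h
    have h9 : ∑ i, v i = 0 := by
      have h10 : ∑ k, ((∑ i, v i) * ((1 - t) * y k) + v k * t) = 0 :=
        Finset.sum_eq_zero fun k _ => h7 k
      rw [Finset.sum_add_distrib, ← Finset.mul_sum, ← Finset.mul_sum, ← Finset.sum_mul, hy.2] at h10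
      linarith
    funext k
    have h11 := h7 k
    rw [h9, zero_mul, zero_add] at h11
    rcases mul_eq_zero.mp h11 with h | h
    · exact h
    · exact absurd h ht.ne'

theorem min_simplex (d : ℕ) (hd : 0 < d) (K : Set (EuclideanSpace ℝ (Fin d))) (hK : IsCompact K)
    (hc : Convex ℝ K) (hi : (interior K).Nonempty) (q : Fin (d + 1) → EuclideanSpace ℝ (Fin d))
    (hq : AffineIndependent ℝ q) (hsub : K ⊆ convexHull ℝ (range q)) :
    ∃ p : Fin (d + 1) → EuclideanSpace ℝ (Fin d), AffineIndependent ℝ p ∧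
      K ⊆ convexHull ℝ (range p) ∧
      (∀ q' : Fin (d + 1) → EuclideanSpace ℝ (Fin d), AffineIndependent ℝ q' →
        K ⊆ convexHull ℝ (range q') →
          volume (convexHull ℝ (range p)) ≤ volume (convexHull ℝ (range q'))) ∧
      ∀ j, ∑ i, emb j (bar d) i • p i ∈ K := by
  obtain ⟨Y, hY, hYdet⟩ := MinB_pts K hi q hsub
  obtain ⟨C, hCdef⟩ : ∃ C : Set (Fin (d + 1) → ℝ),
      C = {y | y ∈ stdSimplex ℝ (Fin (d + 1)) ∧ ∑ k, y k • q k ∈ K} := ⟨_, rfl⟩
  rw [← hCdef] at hY
  have hCmem : ∀ y, y ∈ C ↔ y ∈ stdSimplex ℝ (Fin (d + 1)) ∧ ∑ k, y k • q k ∈ K := by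
    intro y
    rw [hCdef]
    rfl
  have hCsub : C ⊆ stdSimplex ℝ (Fin (d + 1)) := fun y hy => ((hCmem y).mp hy).1
  have hCeq : C = stdSimplex ℝ (Fin (d + 1)) ∩ (Fintype.linearCombination ℝ q) ⁻¹' K := by
    ext y
    rw [hCmem, Set.mem_inter_iff, Set.mem_preimage, Fintype.linearCombination_apply]
  have hCcomp : IsCompact C := by
    rw [hCeq]
    refine (isCompact_stdSimplex ℝ (Fin (d + 1))).inter_right (hK.isClosed.preimage ?_)
    exact (Fintype.linearCombination ℝ q).continuous_of_finiteDimensional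
  have hCconv : Convex ℝ C := by
    rw [hCeq]
    exact (convex_stdSimplex ℝ (Fin (d + 1))).inter (hc.linear_preimage _)
  have hCne : C.Nonempty := ⟨Y 0, hY 0⟩
  obtain ⟨U, hU, hU1, hUmax⟩ := exists_max d C hCsub Y hY hYdet
  have hUdet : U.det ≠ 0 := by
    intro h
    rw [h, abs_zero] at hU1
    linarith
  have hUunit : IsUnit U.det := isUnit_iff_ne_zero.mpr hUdet
  have hVU : U⁻¹ * U = 1 := Matrix.nonsing_inv_mul U hUunit
  have hUV : U * U⁻¹ = 1 := Matrix.mul_nonsing_inv U hUunit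
  have hVdet : (U⁻¹).det ≠ 0 := by
    intro h
    have := congrArg Matrix.det hVU
    rw [Matrix.det_mul, h, zero_mul, Matrix.det_one] at this
    exact zero_ne_one this
  have hVsum : ∀ i, ∑ j, U⁻¹ i j = 1 := by
    intro i
    have h1 : ∑ j, (Matrix.vecMul (U⁻¹ i) U) j = ∑ j, U⁻¹ i j := MinB_sum U hU.1 _
    rw [← h1]
    have h2 : Matrix.vecMul (U⁻¹ i) U = (1 : Matrix (Fin (d + 1)) (Fin (d + 1)) ℝ) i := by
      rw [← hVU]
      rfl
    rw [h2]
    simp [Matrix.one_apply]
  obtain ⟨p, hp⟩ : ∃ p : Fin (d + 1) → EuclideanSpace ℝ (Fin d),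
      p = fun j => ∑ i, U⁻¹ j i • q i := ⟨_, rfl⟩
  have hpsum : ∀ y : Fin (d + 1) → ℝ, ∑ j, (Matrix.vecMul y U) j • p j = ∑ i, y i • q i := by
    intro y
    rw [hp, ← MinB_comb q U⁻¹ (Matrix.vecMul y U), Matrix.vecMul_vecMul, hUV, Matrix.vecMul_one]
  have hpind : AffineIndependent ℝ p := by
    rw [hp]
    exact affineIndependent_rows q hq (fun j i => U⁻¹ j i) hVsum hVdet
  have hqp : ∀ i, q i = ∑ j, U i j • p j := by
    intro i
    have h1 := hpsum (Pi.single i 1)
    rw [Matrix.single_one_vecMul] at h1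
    have h2 : ∑ k, (Pi.single i (1 : ℝ) : Fin (d + 1) → ℝ) k • q k = q i := by
      rw [Finset.sum_eq_single i]
      · simp
      · intro b _ hb
        simp [Pi.single_eq_of_ne hb]
      · intro h
        exact absurd (Finset.mem_univ i) h
    rw [h2] at h1
    exact h1.symm
  refine ⟨p, hpind, ?_, ?_, ?_⟩
  · intro x hx
    obtain ⟨y, hy, hyx⟩ := (MinB_hull q) ▸ hsub hx
    simp only at hyx
    have hyC : y ∈ C := (hCmem y).mpr ⟨hy, by rw [hyx]; exact hx⟩
    rw [MinB_hull p]
    exact ⟨Matrix.vecMul y U, hU.2 y hyC, by simp only; rw [hpsum, hyx]⟩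
  · intro q' hq' hsub'
    choose W hW1 hW2 using fun i => MinB_coord q' hq' (q i)
    have hfeas : Feas C (Matrix.of W) := by
      refine ⟨hW1, fun y hy => ?_⟩
      have hy' := (hCmem y).mp hy
      obtain ⟨w, hw, hwx⟩ := (MinB_hull q') ▸ hsub' hy'.2
      simp only at hwx
      have h1 : Matrix.vecMul y (Matrix.of W) = w := by
        refine MinB_uniq q' hq' _ _ ?_ ?_
        · rw [MinB_sum (Matrix.of W) hW1, hy'.1.2, hw.2]
        · rw [MinB_comb, hwx]
          exact Finset.sum_congr rfl fun i _ => by rw [← hW2 i]; rfl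
      rw [h1]
      exact hw
    have hle := hUmax _ hfeas
    have h1 := volume_conv_rows q' W hW1
    have h2 := volume_conv_rows p (fun i j => U i j) hU.1
    have e1 : (fun i => ∑ j, W i j • q' j) = q := funext hW2
    have e2 : (fun i => ∑ j, U i j • p j) = q := funext fun i => (hqp i).symm
    rw [e1] at h1
    rw [e2] at h2
    have e3 : Matrix.of (fun i j => U i j) = U := rfl
    rw [e3] at h2
    have hpos : ENNReal.ofReal |U.det| ≠ 0 := by
      rw [Ne, ENNReal.ofReal_eq_zero, not_le]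
      exact abs_pos.mpr hUdet
    have h3 : ENNReal.ofReal |U.det| * volume (convexHull ℝ (range p)) ≤
        ENNReal.ofReal |U.det| * volume (convexHull ℝ (range q')) := by
      rw [← h2, h1]
      exact mul_le_mul_left (ENNReal.ofReal_le_ofReal hle) _
    exact (ENNReal.mul_le_mul_iff_right hpos ENNReal.ofReal_ne_top).mp h3
  · intro j
    obtain ⟨y, hy, hyU⟩ := max_centroid d hd C hCcomp hCconv hCne U hU hUdet hUmax j
    rw [← hyU, hpsum]
    exact ((hCmem y).mp hy).2

end Pool.Agent.Lib.MP_29b1bb_gt
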