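import Pool.Agent.Lib.MP_29b1bb_gt.Norm
import Pool.Agent.Lib.MP_29b1bb_gt.Link
import Pool.Agent.Lib.MP_29b1bb_gt.MinB

/-!
# LM-Main: simplices are strict local maximizers
-/

set_option autoImplicit false

open MeasureTheory Set

namespace Pool.Agent.Lib.MP_29b1bb_gt

theorem simplex_value {d : ℕ} (p : Fin (d + 1) → EuclideanSpace ℝ (Fin d))
    (hp : AffineIndependent ℝ p) :
    (∫ x in Set.pi Set.univ (fun _ : Fin (d + 1) => convexHull ℝ (Set.range p)),
      (volume (convexHull ℝ (Set.range x))).toReal) /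
      (volume (convexHull ℝ (Set.range p))).toReal ^ (d + 1) =
    (volume (convexHull ℝ (Set.range p))).toReal * Gdet d univ := by
  have hm : MeasurableSet (convexHull ℝ (Set.range p)) :=
    ((Set.finite_range p).isCompact_convexHull (𝕜 := ℝ)).isClosed.measurableSet
  rw [link_int p hp hm Subset.rfl, Gdet_coord_self p]
  have hV := volume_simplex_ne p hp
  have hpos : 0 < (volume (convexHull ℝ (Set.range p))).toReal := ENNReal.toReal_pos hV.1 hV.2
  have : (volume (convexHull ℝ (Set.range p))).toReal ^ (d + 2) =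
      (volume (convexHull ℝ (Set.range p))).toReal ^ (d + 1) *
        (volume (convexHull ℝ (Set.range p))).toReal := pow_succ _ _
  rw [this]
  field_simp

theorem local_max (d : ℕ) (hd : 2 ≤ d) : ∃ δ c : ℝ, 0 < δ ∧ 0 < c ∧
    ∀ (K : Set (EuclideanSpace ℝ (Fin d))) (p q : Fin (d + 1) → EuclideanSpace ℝ (Fin d)),
      IsCompact K → Convex ℝ K → (interior K).Nonempty → AffineIndependent ℝ p →
      volume K = volume (convexHull ℝ (Set.range p)) →
      AffineIndependent ℝ q → K ⊆ convexHull ℝ (Set.range q) →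
      volume (convexHull ℝ (Set.range q)) ≤ ENNReal.ofReal (1 + δ) * volume K →
      ∃ r : Fin (d + 1) → EuclideanSpace ℝ (Fin d), AffineIndependent ℝ r ∧
        K ⊆ convexHull ℝ (Set.range r) ∧
        (∀ q' : Fin (d + 1) → EuclideanSpace ℝ (Fin d), AffineIndependent ℝ q' →
          K ⊆ convexHull ℝ (Set.range q') →
            volume (convexHull ℝ (Set.range r)) ≤ volume (convexHull ℝ (Set.range q'))) ∧
        (∫ x in Set.pi Set.univ (fun _ : Fin (d + 1) => K),
          (volume (convexHull ℝ (Set.range x))).toReal) / (volume K).toReal ^ (d + 1)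
          + c * ((volume (convexHull ℝ (Set.range r))).toReal - (volume K).toReal)
        ≤ (∫ x in Set.pi Set.univ (fun _ : Fin (d + 1) => convexHull ℝ (Set.range p)),
          (volume (convexHull ℝ (Set.range x))).toReal)
          / (volume (convexHull ℝ (Set.range p))).toReal ^ (d + 1) ∧
        (volume (convexHull ℝ (Set.range r)) = volume K → K = convexHull ℝ (Set.range r)) := by
  obtain ⟨δ, c, hδ, hc0, hnorm⟩ := norm_form d hd
  refine ⟨δ, c, hδ, hc0, ?_⟩
  intro K p₀ q hK hc hi hp₀ hvol hq hsubq hclose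
  obtain ⟨p, hp, hsub, hmin, hcen⟩ := min_simplex d (by omega) K hK hc hi q hq hsubq
  refine ⟨p, hp, hsub, hmin, ?_⟩
  have hVne := volume_simplex_ne p hp
  obtain ⟨V, hVdef⟩ : ∃ V : ℝ, V = (volume (convexHull ℝ (Set.range p))).toReal := ⟨_, rfl⟩
  have hV : 0 < V := by rw [hVdef]; exact ENNReal.toReal_pos hVne.1 hVne.2
  have hKm : MeasurableSet K := hK.isClosed.measurableSet
  have hlv := link_vol p hp hKm hsub
  have hli := link_int p hp hKm hsub
  obtain ⟨C, hCdef⟩ : ∃ C, C = coord p K := ⟨_, rfl⟩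
  rw [← hCdef] at hlv hli
  rw [← hVdef] at hli
  have hCcl : IsClosed C := by rw [hCdef]; exact coord_closed p hK.isClosed
  have hCcv : Convex ℝ C := by rw [hCdef]; exact coord_convex p hc
  have hCsub : C ⊆ stdSimplex ℝ (Fin (d + 1)) := by rw [hCdef]; exact fun y hy => hy.1
  have hCcen : ∀ j, emb j (bar d) ∈ C := by
    intro j
    rw [hCdef]
    exact ⟨emb_mem j (bar_mem (by omega)), hcen j⟩
  have hvK : (volume K).toReal = V * (sig (d + 1)).real C := by
    rw [hlv, ENNReal.toReal_mul, ← hVdef]
    rfl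
  have hKpos : 0 < volume K := by
    obtain ⟨x, hx⟩ := hi
    exact (isOpen_interior.measure_pos volume ⟨x, hx⟩).trans_le (measure_mono interior_subset)
  have hKfin : volume K ≠ ⊤ := hK.measure_lt_top.ne
  have hvKpos : 0 < (volume K).toReal := ENNReal.toReal_pos hKpos.ne' hKfin
  -- closeness
  have hVle : V ≤ (1 + δ) * (volume K).toReal := by
    have h1 : volume (convexHull ℝ (Set.range p)) ≤ ENNReal.ofReal (1 + δ) * volume K :=
      (hmin q hq hsubq).trans hclose
    have h2 := ENNReal.toReal_mono (ENNReal.mul_ne_top ENNReal.ofReal_ne_top hKfin) h1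
    rw [ENNReal.toReal_mul, ENNReal.toReal_ofReal (by linarith)] at h2
    rw [hVdef]; exact h2
  obtain ⟨s, hs⟩ : ∃ s : ℝ, s = (sig (d + 1)).real C := ⟨_, rfl⟩
  have hsc : (sig (d + 1)).real Cᶜ = 1 - s := by
    have h1 := probReal_add_probReal_compl (μ := sig (d + 1)) hCcl.measurableSet
    rw [hs]; linarith
  have hs1 : s ≤ 1 := by rw [hs]; exact measureReal_le_one
  have hs0 : 0 ≤ s := by rw [hs]; exact measureReal_nonneg
  have hδle : (sig (d + 1)).real Cᶜ ≤ δ := by
    rw [hsc]
    rw [hvK, ← hs] at hVle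
    have h3 : 1 ≤ (1 + δ) * s := by
      by_contra hcon
      push Not at hcon
      nlinarith
    nlinarith
  have hle := hnorm C hCcl hCcv hCsub hCcen hδle
  rw [hsc, ← hs] at hle
  rw [← hs] at hvK
  have hspos : 0 < s := by
    by_contra hcon
    have : s = 0 := le_antisymm (not_lt.1 hcon) hs0
    rw [this, mul_zero] at hvK
    linarith
  refine ⟨?_, ?_⟩
  · rw [simplex_value p₀ hp₀, ← hvol, hli, ← hVdef]
    have key : V ^ (d + 2) * (s ^ (d + 2) * Gdet d univ) / (volume K).toReal ^ (d + 1) =
        (volume K).toReal * Gdet d univ := by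
      rw [hvK]
      have : V ^ (d + 2) * (s ^ (d + 2) * Gdet d univ) =
          (V * s) ^ (d + 1) * ((V * s) * Gdet d univ) := by ring
      rw [this]
      field_simp
    rw [← key]
    have h1 : V ^ (d + 2) * (Gdet d C + c * (1 - s)) / (volume K).toReal ^ (d + 1) ≤
        V ^ (d + 2) * (s ^ (d + 2) * Gdet d univ) / (volume K).toReal ^ (d + 1) := by
      gcongr
    refine le_trans ?_ h1
    have h2 : V ^ (d + 2) * (Gdet d C + c * (1 - s)) / (volume K).toReal ^ (d + 1) =
        V ^ (d + 2) * Gdet d C / (volume K).toReal ^ (d + 1) +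
          (V ^ (d + 1) / (volume K).toReal ^ (d + 1)) * (c * (V * (1 - s))) := by
      field_simp
      ring
    rw [h2]
    have h3 : 1 ≤ V ^ (d + 1) / (volume K).toReal ^ (d + 1) := by
      rw [one_le_div (by positivity)]
      gcongr
      rw [hvK]
      nlinarith
    have h4 : 0 ≤ c * (V * (1 - s)) := mul_nonneg hc0.le (mul_nonneg hV.le (by linarith))
    have h5 : V - (volume K).toReal = V * (1 - s) := by rw [hvK]; ring
    rw [h5]
    nlinarith
  · intro heq
    have hs2 : s = 1 := by
      have h1 : V = (volume K).toReal := by rw [hVdef, heq]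
      rw [hvK] at h1
      have h2 : V * (1 - s) = 0 := by linarith
      rcases mul_eq_zero.1 h2 with h | h
      · exact absurd h hV.ne'
      · linarith
    have h0 : (sig (d + 1)).real Cᶜ = 0 := by rw [hsc, hs2]; ring
    have hfull := full_of_measure d (by omega) C hCcl hCcv h0
    refine Subset.antisymm hsub ?_
    refine convexHull_min ?_ hc
    rintro x ⟨i, rfl⟩
    have h1 : (Pi.single i (1 : ℝ) : Fin (d + 1) → ℝ) ∈ C := hfull (single_mem_stdSimplex ℝ i)
    rw [hCdef] at h1
    have h2 := h1.2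
    have h3 : ∑ k, (Pi.single i (1 : ℝ) : Fin (d + 1) → ℝ) k • p k = p i := by
      rw [Finset.sum_eq_single i]
      · simp
      · intro k _ hk
        simp [hk]
      · intro h; exact absurd (Finset.mem_univ _) h
    rw [h3] at h2
    exact h2

end Pool.Agent.Lib.MP_29b1bb_gt
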