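import Pool.Agent.Lib.MP_29b1bb_gt.Defs

/-!
# LM-MinA1: a linear image of maximal determinant inside the simplex exists

`Feas C U`: the matrix `U` has row sums one and `y ↦ y ᵥ* U` maps `C` into the simplex.
`feas_compact`: the set of feasible matrices is closed (an intersection of preimages of closed sets
under continuous maps). It is contained in the compact set
`{(Matrix.of Y)⁻¹ * L | L i ∈ stdSimplex}` (a continuous image of `Set.pi univ (fun _ => stdSimplex)`,
`isCompact_univ_pi`, `isCompact_stdSimplex`): `Y i ᵥ* U` are the rows of `Matrix.of Y * U`, in the simplex;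
`(Matrix.of Y)⁻¹ * (Matrix.of Y * U) = U`. `exists_max`: `IsCompact.exists_isMaxOn`, the identity matrix is
feasible, so the maximum of `|det|` is `≥ 1`.
-/

set_option autoImplicit false

open MeasureTheory Set

namespace Pool.Agent.Lib.MP_29b1bb_gt

/-- `y ↦ y ᵥ* U` preserves the coordinate sum and maps `C` into the simplex -/
def Feas {d : ℕ} (C : Set (Fin (d + 1) → ℝ)) (U : Matrix (Fin (d + 1)) (Fin (d + 1)) ℝ) : Prop :=
  (∀ i, ∑ j, U i j = 1) ∧ ∀ y ∈ C, Matrix.vecMul y U ∈ stdSimplex ℝ (Fin (d + 1))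

theorem exists_max (d : ℕ) (C : Set (Fin (d + 1) → ℝ)) (hC : C ⊆ stdSimplex ℝ (Fin (d + 1)))
    (Y : Fin (d + 1) → Fin (d + 1) → ℝ) (hY : ∀ i, Y i ∈ C) (hdet : Matrix.det (Matrix.of Y) ≠ 0) :
    ∃ U : Matrix (Fin (d + 1)) (Fin (d + 1)) ℝ, Feas C U ∧ 1 ≤ |U.det| ∧
      ∀ U' : Matrix (Fin (d + 1)) (Fin (d + 1)) ℝ, Feas C U' → |U'.det| ≤ |U.det| := by
  have hclosed : IsClosed {U : Matrix (Fin (d + 1)) (Fin (d + 1)) ℝ | Feas C U} := by
    have h1 : {U : Matrix (Fin (d + 1)) (Fin (d + 1)) ℝ | Feas C U} =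
        (⋂ i, {U | ∑ j, U i j = 1}) ∩ ⋂ y ∈ C, {U | Matrix.vecMul y U ∈
          stdSimplex ℝ (Fin (d + 1))} := by
      ext U
      simp only [Feas, mem_ofPred_eq, mem_inter_iff, mem_iInter]
    rw [h1]
    refine IsClosed.inter (isClosed_iInter fun i => ?_) (isClosed_biInter fun y _ => ?_)
    · exact isClosed_eq (continuous_finsetSum _ fun j _ => by fun_prop) continuous_const
    · refine (isClosed_stdSimplex ℝ (Fin (d + 1))).preimage ?_
      refine continuous_pi fun j => ?_
      simp only [Matrix.vecMul, dotProduct]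
      exact continuous_finsetSum _ fun k _ => by fun_prop
  have hcomp : IsCompact {U : Matrix (Fin (d + 1)) (Fin (d + 1)) ℝ | Feas C U} := by
    have hK : IsCompact (Set.pi Set.univ fun _ : Fin (d + 1) => stdSimplex ℝ (Fin (d + 1))) :=
      isCompact_univ_pi fun _ => isCompact_stdSimplex ℝ (Fin (d + 1))
    have hcont : Continuous fun L : Fin (d + 1) → Fin (d + 1) → ℝ =>
        (Matrix.of Y)⁻¹ * Matrix.of L := by
      refine continuous_pi fun i => continuous_pi fun j => ?_
      simp only [Matrix.mul_apply, Matrix.of_apply]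
      exact continuous_finsetSum _ fun k _ => by fun_prop
    refine IsCompact.of_isClosed_subset (hK.image hcont) hclosed ?_
    intro U hU
    refine ⟨fun i => Matrix.vecMul (Y i) U, fun i _ => hU.2 _ (hY i), ?_⟩
    have h2 : Matrix.of (fun i => Matrix.vecMul (Y i) U) = Matrix.of Y * U := by
      ext i j
      simp only [Matrix.of_apply, Matrix.mul_apply, Matrix.vecMul, dotProduct]
    show (Matrix.of Y)⁻¹ * Matrix.of (fun i => Matrix.vecMul (Y i) U) = U
    rw [h2, ← Matrix.mul_assoc, Matrix.nonsing_inv_mul _ (isUnit_iff_ne_zero.2 hdet), one_mul]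
  have hone : Feas C (1 : Matrix (Fin (d + 1)) (Fin (d + 1)) ℝ) := by
    refine ⟨fun i => ?_, fun y hy => ?_⟩
    · simp [Matrix.one_apply]
    · rw [Matrix.vecMul_one]; exact hC hy
  have hcd : Continuous fun U : Matrix (Fin (d + 1)) (Fin (d + 1)) ℝ => |U.det| :=
    (Continuous.matrix_det continuous_id).abs
  obtain ⟨U, hU, hmax⟩ := hcomp.exists_isMaxOn ⟨1, hone⟩ hcd.continuousOn
  refine ⟨U, hU, ?_, fun U' hU' => hmax hU'⟩
  have h3 : |(1 : Matrix (Fin (d + 1)) (Fin (d + 1)) ℝ).det| ≤ |U.det| := hmax hone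
  simpa using h3

end Pool.Agent.Lib.MP_29b1bb_gt
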