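import Pool.Agent.Lib.MP_29b1bb_gt.MinA1
import Pool.Agent.Lib.MP_29b1bb_gt.Basic
import Pool.Agent.Lib.MP_29b1bb_gt.DetR

/-!
# LM-MinA2: in the position of maximal determinant the facet centroids belong to the body
-/

set_option autoImplicit false

open MeasureTheory Set

namespace Pool.Agent.Lib.MP_29b1bb_gt

private theorem minA2_small {ι : Type*} [DecidableEq ι] (s : Finset ι) (v : ι → ℝ) (β : ℝ) (n : ℕ)
    (h : (n : ℝ) * β < ∑ k ∈ s, v k) :
    ∃ t : ℝ, 0 < t ∧ 0 < 1 + t * β ∧ (∀ k ∈ s, 0 < 1 + t * v k) ∧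
      (1 + t * β) ^ n < ∏ k ∈ s, (1 + t * v k) := by
  have hlin : ∀ c : ℝ, HasDerivAt (fun t : ℝ => 1 + t * c) c 0 := by
    intro c
    have := ((hasDerivAt_id (0 : ℝ)).mul_const c).const_add 1
    simpa using this
  have h1 : HasDerivAt (fun t : ℝ => ∏ k ∈ s, (1 + t * v k)) (∑ k ∈ s, v k) 0 := by
    have := HasDerivAt.fun_finset_prod (u := s) (f := fun k t => 1 + t * v k) (f' := fun k => v k)
      (x := (0 : ℝ)) (fun k _ => hlin (v k))
    simpa using this
  have h2 : HasDerivAt (fun t : ℝ => (1 + t * β) ^ n) ((n : ℝ) * β) 0 := by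
    have := (hlin β).fun_pow n
    simpa using this
  have h3 := h1.fun_sub h2
  rw [hasDerivAt_iff_tendsto_slope_zero] at h3
  have h4 : ∀ᶠ t in nhdsWithin (0 : ℝ) (Ioi 0),
      0 < t⁻¹ • ((∏ k ∈ s, (1 + (0 + t) * v k)) - (1 + (0 + t) * β) ^ n -
        ((∏ k ∈ s, (1 + 0 * v k)) - (1 + 0 * β) ^ n)) := by
    have h5 : nhdsWithin (0 : ℝ) (Ioi 0) ≤ nhdsWithin (0 : ℝ) {0}ᶜ :=
      nhdsWithin_mono _ (fun x hx => ne_of_gt hx)
    exact (h3.mono_left h5).eventually (lt_mem_nhds (by linarith))
  have h5 : ∀ᶠ t in nhdsWithin (0 : ℝ) (Ioi 0), 0 < 1 + t * β := by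
    have hc : Continuous (fun t : ℝ => 1 + t * β) := by fun_prop
    have : Filter.Tendsto (fun t : ℝ => 1 + t * β) (nhdsWithin (0 : ℝ) (Ioi 0)) (nhds (1 + 0 * β)) :=
      (hc.tendsto 0).mono_left nhdsWithin_le_nhds
    exact this.eventually (lt_mem_nhds (by norm_num))
  have h6 : ∀ᶠ t in nhdsWithin (0 : ℝ) (Ioi 0), ∀ k ∈ s, 0 < 1 + t * v k := by
    rw [Filter.eventually_all_finset]
    intro k _
    have hc : Continuous (fun t : ℝ => 1 + t * v k) := by fun_prop
    have : Filter.Tendsto (fun t : ℝ => 1 + t * v k) (nhdsWithin (0 : ℝ) (Ioi 0))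
        (nhds (1 + 0 * v k)) :=
      (hc.tendsto 0).mono_left nhdsWithin_le_nhds
    exact this.eventually (lt_mem_nhds (by norm_num))
  obtain ⟨t, ⟨ht1, ht2, ht3⟩, ht4⟩ := ((h4.and (h5.and h6)).and self_mem_nhdsWithin).exists
  have ht0 : 0 < t := ht4
  refine ⟨t, ht0, ht2, ht3, ?_⟩
  simp only [zero_add, zero_mul, add_zero, Finset.prod_const_one, one_pow, sub_self, sub_zero,
    smul_eq_mul] at ht1
  have := (pos_iff_pos_of_mul_pos ht1).mp (inv_pos.mpr ht0)
  linarith

theorem max_centroid (d : ℕ) (hd : 0 < d) (C : Set (Fin (d + 1) → ℝ)) (hcl : IsCompact C)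
    (hcv : Convex ℝ C) (hne : C.Nonempty) (U : Matrix (Fin (d + 1)) (Fin (d + 1)) ℝ) (hU : Feas C U)
    (hdet : U.det ≠ 0)
    (hmax : ∀ U' : Matrix (Fin (d + 1)) (Fin (d + 1)) ℝ, Feas C U' → |U'.det| ≤ |U.det|)
    (j : Fin (d + 1)) : ∃ y ∈ C, Matrix.vecMul y U = emb j (bar d) := by
  by_contra hcon
  push Not at hcon
  have hd' : (0 : ℝ) < d := by exact_mod_cast hd
  set C' : Set (Fin (d + 1) → ℝ) := (fun y => Matrix.vecMul y U) '' C with hC'
  have hcont : Continuous (fun y : Fin (d + 1) → ℝ => Matrix.vecMul y U) :=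
    Continuous.matrix_vecMul continuous_id continuous_const
  have hC'cl : IsClosed C' := (hcl.image hcont).isClosed
  have hC'cv : Convex ℝ C' := by
    have : (fun y : Fin (d + 1) → ℝ => Matrix.vecMul y U) = Matrix.vecMulLinear U := by
      funext y; rfl
    rw [hC', this]
    exact hcv.linear_image _
  have hcn : emb j (bar d) ∉ C' := by
    rintro ⟨y, hy, hyU⟩
    exact hcon y hy hyU
  obtain ⟨f, u, hfu, huf⟩ := geometric_hahn_banach_closed_point hC'cv hC'cl hcn
  set w : Fin (d + 1) → ℝ := fun k => f (Pi.single k 1) - u with hw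
  have hsum : ∀ x : Fin (d + 1) → ℝ, ∑ k, x k = 1 → ∑ k, w k * x k = f x - u := by
    intro x hx
    have h1 : f x = ∑ k, x k * f (Pi.single k 1) := by
      conv_lhs => rw [← Finset.univ_sum_single x]
      rw [map_sum]
      refine Finset.sum_congr rfl fun k _ => ?_
      have : (Pi.single k (x k) : Fin (d + 1) → ℝ) = x k • Pi.single k (1 : ℝ) := by
        rw [← Pi.single_smul]
        simp
      rw [this, map_smul, smul_eq_mul]
    rw [h1]
    simp only [hw, sub_mul, Finset.sum_sub_distrib, ← Finset.mul_sum, hx, mul_one]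
    congr 1
    exact Finset.sum_congr rfl fun k _ => mul_comm _ _
  have hsplit : ∀ g : Fin (d + 1) → ℝ, ∑ k, g k = g j + ∑ k ∈ Finset.univ.erase j, g k :=
    fun g => (Finset.add_sum_erase _ _ (Finset.mem_univ j)).symm
  have hCm : ∀ x ∈ C', x ∈ stdSimplex ℝ (Fin (d + 1)) := by
    rintro x ⟨y, hy, rfl⟩
    exact hU.2 y hy
  -- the centroid
  have hcent : 0 < ∑ k ∈ Finset.univ.erase j, w k := by
    have hm : emb j (bar d) ∈ stdSimplex ℝ (Fin (d + 1)) := emb_mem j (bar_mem hd)
    have h1 := hsum _ hm.2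
    rw [hsplit, emb_apply_same, mul_zero, zero_add] at h1
    have h2 : ∑ k ∈ Finset.univ.erase j, w k * emb j (bar d) k =
        (∑ k ∈ Finset.univ.erase j, w k) * (d : ℝ)⁻¹ := by
      rw [Finset.sum_mul]
      refine Finset.sum_congr rfl fun k hk => ?_
      obtain ⟨l, rfl⟩ := Fin.exists_succAbove_eq (Finset.ne_of_mem_erase hk)
      rw [emb_apply_succAbove]
      rfl
    rw [h2] at h1
    have h3 : 0 < (∑ k ∈ Finset.univ.erase j, w k) * (d : ℝ)⁻¹ := by rw [h1]; linarith
    exact (pos_iff_pos_of_mul_pos h3).mpr (inv_pos.mpr hd')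
  set β : ℝ := - w j with hβ
  set v : Fin (d + 1) → ℝ := fun k => w k - w j with hv
  have hcard : (Finset.univ.erase j).card = d := by
    rw [Finset.card_erase_of_mem (Finset.mem_univ j), Finset.card_univ, Fintype.card_fin]
    rfl
  have hvsum : (d : ℝ) * β < ∑ k ∈ Finset.univ.erase j, v k := by
    simp only [hv, Finset.sum_sub_distrib, Finset.sum_const, hcard, nsmul_eq_mul]
    rw [hβ]
    linarith
  have hvC : ∀ x ∈ C', ∑ k ∈ Finset.univ.erase j, v k * x k ≤ β := by
    intro x hx
    have h1 := hsum x (hCm x hx).2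
    have h2 := hfu x hx
    have h3 := (hCm x hx).2
    rw [hsplit] at h1 h3
    simp only [hv, sub_mul, Finset.sum_sub_distrib, ← Finset.mul_sum]
    have h4 : ∑ k ∈ Finset.univ.erase j, x k = 1 - x j := by linarith
    rw [h4, hβ]
    nlinarith
  obtain ⟨t, ht0, htβ, htv, htprod⟩ := minA2_small (Finset.univ.erase j) v β d hvsum
  set a : Fin (d + 1) → ℝ := fun k => (1 + t * v k) / (1 + t * β) with ha
  have hapos : ∀ k ∈ Finset.univ.erase j, 0 < a k := fun k hk => div_pos (htv k hk) htβ
  set U' : Matrix (Fin (d + 1)) (Fin (d + 1)) ℝ := Matrix.of fun i k => if k = j then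
    1 - ∑ l ∈ Finset.univ.erase j, a l * U i l else a k * U i k with hU'
  have hU'j : ∀ i, U' i j = 1 - ∑ l ∈ Finset.univ.erase j, a l * U i l := by
    intro i; simp [hU']
  have hU'k : ∀ i, ∀ k ∈ Finset.univ.erase j, U' i k = a k * U i k := by
    intro i k hk
    have := Finset.ne_of_mem_erase hk
    simp [hU', this]
  have hrow : ∀ i, ∑ k, U' i k = 1 := by
    intro i
    rw [hsplit, hU'j, Finset.sum_congr rfl (hU'k i)]
    ring
  have hfeas : Feas C U' := by
    refine ⟨hrow, fun y hy => ?_⟩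
    set x : Fin (d + 1) → ℝ := Matrix.vecMul y U with hx
    have hxC : x ∈ C' := ⟨y, hy, rfl⟩
    have hxm := hCm x hxC
    have hxk : ∀ k, x k = ∑ i, y i * U i k := by
      intro k
      simp [hx, Matrix.vecMul, dotProduct]
    have hy1 : ∑ i, y i = 1 := by
      have h1 : ∑ k, x k = ∑ i, y i := by
        simp only [hxk]
        rw [Finset.sum_comm]
        simp only [← Finset.mul_sum, hU.1, mul_one]
      rw [← h1]
      exact hxm.2
    have hk' : ∀ k, Matrix.vecMul y U' k = ∑ i, y i * U' i k := by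
      intro k
      simp [Matrix.vecMul, dotProduct]
    refine ⟨fun k => ?_, ?_⟩
    · rw [hk']
      by_cases hkj : k = j
      · subst hkj
        simp only [hU'j, mul_sub, mul_one, Finset.sum_sub_distrib, hy1]
        have h1 : ∑ i, y i * ∑ l ∈ Finset.univ.erase k, a l * U i l =
            ∑ l ∈ Finset.univ.erase k, a l * x l := by
          simp only [Finset.mul_sum, hxk]
          rw [Finset.sum_comm]
          refine Finset.sum_congr rfl fun l _ => Finset.sum_congr rfl fun i _ => by ring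
        rw [h1]
        have h2 : ∑ l ∈ Finset.univ.erase k, a l * x l =
            (∑ l ∈ Finset.univ.erase k, x l + t * ∑ l ∈ Finset.univ.erase k, v l * x l) /
              (1 + t * β) := by
          rw [Finset.mul_sum, ← Finset.sum_add_distrib, Finset.sum_div]
          refine Finset.sum_congr rfl fun l _ => ?_
          simp only [ha]
          ring
        rw [h2, sub_nonneg, div_le_one htβ]
        have h3 := hxm.2
        rw [hsplit] at h3
        have h4 := hxm.1 k
        have h5 := mul_le_mul_of_nonneg_left (hvC x hxC) ht0.le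
        linarith
      · have hke : k ∈ Finset.univ.erase j := Finset.mem_erase.mpr ⟨hkj, Finset.mem_univ k⟩
        have h1 : ∑ i, y i * U' i k = a k * x k := by
          rw [hxk, Finset.mul_sum]
          refine Finset.sum_congr rfl fun i _ => ?_
          rw [hU'k i k hke]
          ring
        rw [h1]
        exact mul_nonneg (hapos k hke).le (hxm.1 k)
    · simp only [hk']
      rw [Finset.sum_comm]
      simp only [← Finset.mul_sum, hrow, mul_one]
      exact hy1
  have hle := hmax U' hfeas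
  have hdet' := det_rescale U hU.1 j a
  have hUU : U'.det = (∏ k ∈ Finset.univ.erase j, a k) * U.det := hdet'
  have hprod : ∏ k ∈ Finset.univ.erase j, a k =
      (∏ k ∈ Finset.univ.erase j, (1 + t * v k)) / (1 + t * β) ^ d := by
    simp only [ha]
    rw [Finset.prod_div_distrib, Finset.prod_const, hcard]
  have hgt : 1 < ∏ k ∈ Finset.univ.erase j, a k := by
    rw [hprod, one_lt_div (pow_pos htβ d)]
    exact htprod
  rw [hUU, abs_mul, abs_of_pos (by linarith)] at hle
  have hpos : 0 < |U.det| := abs_pos.mpr hdet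
  nlinarith

end Pool.Agent.Lib.MP_29b1bb_gt
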