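import Pool.Agent.Lib.MP_29b1bb_gt.FDet
import Pool.Agent.Lib.MP_29b1bb_gt.Contr

/-!
# LM-Strict2: a set of positive measure where two cofactors have opposite signs

`w Y l = det (Fin.cons (Pi.single l 1) Y)`. Let `Y* i`, `i : Fin d`, be: `Y* 0 = (1/2) (e_1 + e_2)`
and, for the other indices, the vertices `e_0, e_3, …, e_d` (`d - 1` of them; e.g. `Y* 1 = e_0`,
`Y* i = e_(i+1)` for `i ≥ 2`). Then `w Y* 1 = - w Y* 2 = ± 1/2`: by linearity in the row `Y* 0`,
`w Y* 1 = (1/2) det (e_1, e_2, e_0, e_3, …)` (the term with `e_1` twice vanishes) and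
`w Y* 2 = (1/2) det (e_2, e_1, e_0, e_3, …)`, permutation matrices which differ by a transposition.
By continuity of the determinant there is `s > 0` such that `w Y 1 * w Y 2 < 0` whenever all
entries of `Y` differ from those of `Y*` by less than `s`. The set of such `Y` has positive measure
(`Measure.pi_pi`), since each factor has: for a vertex `e_k` the set `{x ∈ Δ | 1 - t ≤ x k}`
(`sig_vertex_nhds`; for `x ∈ Δ` with `1 - t ≤ x k` all entries are within `t` of `e_k`), and for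
`(1/2)(e_1 + e_2)` apply `sig_contract_apply` with `i = 1`, `t = 1/2` to a small neighbourhood `B`: its
preimage contains `{x ∈ Δ | 1 - t' ≤ x 2}`.
-/

set_option autoImplicit false

open MeasureTheory Set

namespace Pool.Agent.Lib.MP_29b1bb_gt

theorem sig_ball_vertex (N : ℕ) (hN : 0 < N) (k : Fin (N + 1)) (s : ℝ) (hs : 0 < s) :
    0 < sig (N + 1) (Metric.ball (Pi.single k (1 : ℝ) : Fin (N + 1) → ℝ) s) := by
  set t := min (s / 2) 1 with ht
  have ht0 : 0 < t := lt_min (by linarith) one_pos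
  have ht1 : t ≤ 1 := min_le_right _ _
  have hts : t < s := (min_le_left _ _).trans_lt (by linarith)
  have h1 := sig_vertex_nhds N hN k t ht0 ht1
  have h2 : 0 < sig (N + 1) {x | x ∈ stdSimplex ℝ (Fin (N + 1)) ∧ 1 - t ≤ x k} := by
    rw [h1]
    exact ENNReal.ofReal_pos.mpr (by positivity)
  refine h2.trans_le (measure_mono ?_)
  rintro x ⟨hx, hxk⟩
  rw [Metric.mem_ball]
  refine lt_of_le_of_lt ((dist_pi_le_iff ht0.le).mpr fun l => ?_) hts
  rw [Real.dist_eq]
  by_cases hl : l = k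
  · subst hl
    rw [Pi.single_eq_same, abs_le]
    have h3 : x l ≤ 1 := by
      have h4 := Finset.single_le_sum (f := x) (fun i _ => hx.1 i) (Finset.mem_univ l)
      rw [hx.2] at h4
      exact h4
    constructor <;> linarith
  · rw [Pi.single_eq_of_ne hl, sub_zero, abs_of_nonneg (hx.1 l)]
    have h4 : x l + x k ≤ ∑ i, x i := by
      rw [← Finset.sum_pair hl]
      exact Finset.sum_le_sum_of_subset_of_nonneg (Finset.subset_univ _) fun i _ _ => hx.1 i
    rw [hx.2] at h4
    linarith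

theorem sig_ball_mid (N : ℕ) (hN : 0 < N) (j k : Fin (N + 1)) (s : ℝ) (hs : 0 < s) :
    0 < sig (N + 1) (Metric.ball ((1 / 2 : ℝ) • (Pi.single j (1 : ℝ) : Fin (N + 1) → ℝ) +
      (1 / 2 : ℝ) • (Pi.single k (1 : ℝ) : Fin (N + 1) → ℝ)) s) := by
  have h1 := sig_contract_apply N hN j (1 / 2) (by norm_num) (by norm_num)
    (Metric.ball ((1 / 2 : ℝ) • (Pi.single j (1 : ℝ) : Fin (N + 1) → ℝ) +
      (1 / 2 : ℝ) • (Pi.single k (1 : ℝ) : Fin (N + 1) → ℝ)) s) Metric.isOpen_ball.measurableSet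
  refine lt_of_lt_of_le ?_ h1
  refine ENNReal.mul_pos (ENNReal.ofReal_pos.mpr (by positivity)).ne' ?_
  refine (lt_of_lt_of_le (sig_ball_vertex N hN k s hs) (measure_mono ?_)).ne'
  intro z hz
  rw [Metric.mem_ball] at hz
  rw [mem_preimage, Metric.mem_ball, show (1 : ℝ) - 1 / 2 = 1 / 2 by norm_num, dist_add_left,
    dist_smul₀]
  have h3 : ‖(1 / 2 : ℝ)‖ = 1 / 2 := by norm_num
  rw [h3]
  have h4 := dist_nonneg (x := z) (y := (Pi.single k (1 : ℝ) : Fin (N + 1) → ℝ))
  linarith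

theorem opposite_signs (d : ℕ) (hd : 2 ≤ d) :
    0 < (Measure.pi fun _ : Fin d => sig (d + 1)) {Y : Fin d → Fin (d + 1) → ℝ |
      Matrix.det (Matrix.of (Fin.cons (Pi.single (⟨1, by omega⟩ : Fin (d + 1)) (1 : ℝ)) Y :
        Fin (d + 1) → Fin (d + 1) → ℝ)) *
      Matrix.det (Matrix.of (Fin.cons (Pi.single (⟨2, by omega⟩ : Fin (d + 1)) (1 : ℝ)) Y :
        Fin (d + 1) → Fin (d + 1) → ℝ)) < 0} := by
  obtain ⟨a, ha⟩ : ∃ a : Fin (d + 1), a = ⟨1, by omega⟩ := ⟨_, rfl⟩
  obtain ⟨b, hb⟩ : ∃ b : Fin (d + 1), b = ⟨2, by omega⟩ := ⟨_, rfl⟩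
  rw [← ha, ← hb]
  have h0a : (0 : Fin (d + 1)) ≠ a := by
    rw [ha]; intro h; have := congrArg Fin.val h; simp at this
  have hab : a ≠ b := by
    rw [ha, hb]; intro h; have := congrArg Fin.val h; simp at this
  have h0b : (0 : Fin (d + 1)) ≠ b := by
    rw [hb]; intro h; have := congrArg Fin.val h; simp at this
  -- the permutation 0 ↦ a, a ↦ b
  obtain ⟨σ, hσ0, hσa⟩ : ∃ σ : Equiv.Perm (Fin (d + 1)), σ 0 = a ∧ σ a = b := by
    refine ⟨Equiv.swap 0 a * Equiv.swap a b, ?_, ?_⟩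
    · rw [Equiv.Perm.mul_apply, Equiv.swap_apply_of_ne_of_ne h0a h0b, Equiv.swap_apply_left]
    · rw [Equiv.Perm.mul_apply, Equiv.swap_apply_left, Equiv.swap_apply_of_ne_of_ne h0b.symm
        hab.symm]
  let P : Matrix (Fin (d + 1)) (Fin (d + 1)) ℝ := fun r => Pi.single (σ r) (1 : ℝ)
  have hP : P.det ≠ 0 := by
    have h1 : P = (1 : Matrix (Fin (d + 1)) (Fin (d + 1)) ℝ).submatrix σ id := by
      ext r c
      simp only [P, Matrix.submatrix_apply, id, Matrix.one_apply, Pi.single_apply]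
      by_cases h : c = σ r
      · simp [h]
      · simp [h, Ne.symm h]
    rw [h1, Matrix.det_permute, Matrix.det_one, mul_one]
    rcases Int.units_eq_one_or (Equiv.Perm.sign σ) with h | h <;> rw [h] <;> simp
  let Ys : Fin d → Fin (d + 1) → ℝ := fun i =>
    if i.succ = a then (1 / 2 : ℝ) • P 0 + (1 / 2 : ℝ) • P a else P i.succ
  let W : (Fin (d + 1) → ℝ) → (Fin d → Fin (d + 1) → ℝ) → ℝ := fun x Y =>
    Matrix.det (Matrix.of (Fin.cons x Y : Fin (d + 1) → Fin (d + 1) → ℝ))
  have hWadd : ∀ (x y : Fin (d + 1) → ℝ) (Y : Fin d → Fin (d + 1) → ℝ),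
      W (x + y) Y = W x Y + W y Y := by
    intro x y Y
    have h1 : ∀ z : Fin (d + 1) → ℝ, (Matrix.of (Fin.cons z Y : Fin (d + 1) → Fin (d + 1) → ℝ)) =
        Matrix.updateRow (Matrix.of (Fin.cons 0 Y : Fin (d + 1) → Fin (d + 1) → ℝ)) 0 z := by
      intro z
      ext r c
      refine Fin.cases ?_ (fun i => ?_) r
      · simp
      · simp
    simp only [W]
    rw [h1 (x + y), h1 x, h1 y, Matrix.det_updateRow_add]
  have hWa : W (P 0) Ys ≠ 0 := by
    have h1 : (Matrix.of (Fin.cons (P 0) Ys : Fin (d + 1) → Fin (d + 1) → ℝ)) =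
        Matrix.updateRow P a ((1 / 2 : ℝ) • P 0 + (1 / 2 : ℝ) • P a) := by
      ext r c
      by_cases hr : r = a
      · subst hr
        rw [Matrix.updateRow_self]
        obtain ⟨i, hi⟩ := Fin.exists_succ_eq.mpr h0a.symm
        rw [← hi, Matrix.of_apply, Fin.cons_succ]
        simp only [Ys]
        rw [if_pos hi, hi]
      · rw [Matrix.updateRow_ne hr]
        revert hr
        refine Fin.cases (fun _ => ?_) (fun i hi => ?_) r
        · simp
        · rw [Matrix.of_apply, Fin.cons_succ]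
          simp only [Ys]
          rw [if_neg hi]
    simp only [W]
    rw [h1, Matrix.det_updateRow_add, Matrix.det_updateRow_smul, Matrix.det_updateRow_smul,
      Matrix.updateRow_eq_self, Matrix.det_zero_of_row_eq h0a (by
        rw [Matrix.updateRow_ne h0a, Matrix.updateRow_self])]
    simp only [mul_zero, zero_add]
    exact mul_ne_zero (by norm_num) hP
  have hWab : W (P 0) Ys + W (P a) Ys = 0 := by
    rw [← hWadd]
    obtain ⟨i, hi⟩ := Fin.exists_succ_eq.mpr h0a.symm
    have h1 : (Matrix.of (Fin.cons (P 0 + P a) Ys : Fin (d + 1) → Fin (d + 1) → ℝ)) 0 =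
        (2 : ℝ) • (Matrix.of (Fin.cons (P 0 + P a) Ys : Fin (d + 1) → Fin (d + 1) → ℝ)) a := by
      rw [← hi]
      funext c
      simp only [Matrix.of_apply, Fin.cons_zero, Pi.smul_apply, Fin.cons_succ, Ys]
      rw [if_pos hi]
      simp only [Pi.add_apply, Pi.smul_apply, smul_eq_mul, hi]
      ring
    simp only [W]
    set M := (Matrix.of (Fin.cons (P 0 + P a) Ys : Fin (d + 1) → Fin (d + 1) → ℝ)) with hM
    have h2 : M = Matrix.updateRow M 0 ((2 : ℝ) • M a) := by
      rw [← h1, Matrix.updateRow_eq_self]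
    rw [h2, Matrix.det_updateRow_smul, Matrix.det_zero_of_row_eq h0a (by
        rw [Matrix.updateRow_ne h0a.symm, Matrix.updateRow_self]), mul_zero]
  have hPa : P 0 = Pi.single a (1 : ℝ) := by simp only [P, hσ0]
  have hPb : P a = Pi.single b (1 : ℝ) := by simp only [P, hσa]
  have hneg : W (Pi.single a (1 : ℝ)) Ys * W (Pi.single b (1 : ℝ)) Ys < 0 := by
    rw [← hPa, ← hPb]
    have h1 : W (P a) Ys = -W (P 0) Ys := by linarith
    rw [h1]
    have h2 : 0 < W (P 0) Ys * W (P 0) Ys := mul_self_pos.mpr hWa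
    linarith
  have hcont : ∀ x : Fin (d + 1) → ℝ, Continuous (W x) := by
    intro x
    refine Continuous.matrix_det ?_
    refine continuous_pi fun r => continuous_pi fun c => ?_
    refine Fin.cases ?_ (fun i => ?_) r
    · simp only [Matrix.of_apply, Fin.cons_zero]
      exact continuous_const
    · simp only [Matrix.of_apply, Fin.cons_succ]
      exact (continuous_apply c).comp (continuous_apply i)
  have hopen : IsOpen {Y : Fin d → Fin (d + 1) → ℝ |
      W (Pi.single a (1 : ℝ)) Y * W (Pi.single b (1 : ℝ)) Y < 0} :=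
    isOpen_lt ((hcont _).mul (hcont _)) continuous_const
  obtain ⟨s, hs, hball⟩ := Metric.isOpen_iff.mp hopen Ys hneg
  refine lt_of_lt_of_le ?_ (measure_mono hball)
  rw [ball_pi _ hs, Measure.pi_pi]
  refine pos_iff_ne_zero.mpr (Finset.prod_ne_zero_iff.mpr fun i _ => ?_)
  have hN : 0 < d := by omega
  simp only [Ys]
  split_ifs with h
  · rw [hPa, hPb]
    exact (sig_ball_mid d hN a b s hs).ne'
  · exact (sig_ball_vertex d hN (σ i.succ) s hs).ne'

end Pool.Agent.Lib.MP_29b1bb_gt
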