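import Pool.Agent.Lib.MP_29b1bb_gt.Strict1
import Pool.Agent.Lib.MP_29b1bb_gt.Strict2

/-!
# LM-Strict: `fdet` is not constant on a facet

Suppose not: `∫ y, fdet d (emb 0 y) ∂sig d ≤ fdet d (emb 0 (bar d))`. By `strict_vertices`
`fdet d (emb 0 e_k) = fdet d (emb 0 (bar d))` for all `k : Fin d`. Write `w Y l = det (Fin.cons (Pi.single l 1) Y)`.
`emb 0 (Pi.single k 1) = Pi.single k.succ 1` and `emb 0 (bar d) = (1/d) ∑_k Pi.single k.succ 1`, so by
linearity of the determinant in the first row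
`fdet d (emb 0 e_k) = ∫ |w Y k.succ|` and `fdet d (emb 0 (bar d)) = ∫ |(1/d) ∑_k w Y k.succ|`. Hence
`∫ ((1/d) ∑_k |w Y k.succ| - |(1/d) ∑_k w Y k.succ|) = 0` with a nonnegative integrand, so for almost
all `Y` `|∑_k w Y k.succ| = ∑_k |w Y k.succ|`, which implies `0 ≤ w Y l * w Y l'` for
`l = ⟨1, _⟩ = (0 : Fin d).succ`, `l' = ⟨2, _⟩ = (1 : Fin d).succ` (if the two had opposite signs the
triangle inequality would be strict). This contradicts `opposite_signs`.
-/

set_option autoImplicit false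

open MeasureTheory Set

namespace Pool.Agent.Lib.MP_29b1bb_gt

private theorem strict_expand (d : ℕ) (y : Fin d → ℝ) (Y : Fin d → Fin (d + 1) → ℝ) :
    Matrix.det (Matrix.of (Fin.cons (emb 0 y) Y : Fin (d + 1) → Fin (d + 1) → ℝ)) =
      ∑ k : Fin d, y k * Matrix.det (Matrix.of (Fin.cons (Pi.single k.succ (1 : ℝ)) Y :
        Fin (d + 1) → Fin (d + 1) → ℝ)) := by
  have h1 : ∀ x : Fin (d + 1) → ℝ,
      Matrix.det (Matrix.of (Fin.cons x Y : Fin (d + 1) → Fin (d + 1) → ℝ)) =
      ∑ j : Fin (d + 1), (-1) ^ (j : ℕ) * x j *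
        (Matrix.of (fun (i : Fin d) (l : Fin d) => Y i (j.succAbove l))).det := by
    intro x
    rw [Matrix.det_succ_row_zero]
    refine Finset.sum_congr rfl fun j _ => ?_
    congr 1
  rw [h1, Fin.sum_univ_succ]
  have h2 : emb 0 y 0 = 0 := emb_apply_same 0 y
  have h3 : ∀ k : Fin d, emb 0 y k.succ = y k := by
    intro k
    have := emb_apply_succAbove 0 y k
    rwa [Fin.zero_succAbove] at this
  rw [h2, mul_zero, zero_mul, zero_add]
  refine Finset.sum_congr rfl fun k _ => ?_
  rw [h3, h1, Finset.sum_eq_single k.succ]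
  · rw [Pi.single_eq_same]; ring
  · intro l _ hl
    rw [Pi.single_eq_of_ne hl]; ring
  · intro h; exact absurd (Finset.mem_univ _) h

private theorem strict_integrable (d : ℕ) (x : Fin (d + 1) → ℝ)
    (hx : x ∈ stdSimplex ℝ (Fin (d + 1))) :
    Integrable (fun Y : Fin d → Fin (d + 1) → ℝ =>
      |Matrix.det (Matrix.of (Fin.cons x Y : Fin (d + 1) → Fin (d + 1) → ℝ))|)
      (Measure.pi fun _ => sig (d + 1)) := by
  have hc : Continuous (fun Y : Fin d → Fin (d + 1) → ℝ =>
      |Matrix.det (Matrix.of (Fin.cons x Y : Fin (d + 1) → Fin (d + 1) → ℝ))|) := by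
    have h1 : Continuous (fun Y : Fin d → Fin (d + 1) → ℝ =>
        (Fin.cons x Y : Fin (d + 1) → Fin (d + 1) → ℝ)) := by
      refine continuous_pi fun i => ?_
      refine Fin.cases ?_ (fun k => ?_) i
      · simp only [Fin.cons_zero]; exact continuous_const
      · simp only [Fin.cons_succ]; exact continuous_apply k
    exact (continuous_abs_det (d + 1)).comp h1
  refine Integrable.of_bound (C := 1) hc.aestronglyMeasurable ?_
  filter_upwards [ae_rows_mem d (d + 1) (by omega)] with Y hY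
  rw [Real.norm_eq_abs, abs_abs]
  refine abs_det_le_one fun i => ?_
  refine Fin.cases ?_ (fun k => ?_) i
  · simp only [Fin.cons_zero]; exact hx
  · simp only [Fin.cons_succ]; exact hY k

private theorem strict_signs {d : ℕ} (W : Fin d → ℝ) (h : |∑ k, W k| = ∑ k, |W k|) (i j : Fin d) :
    0 ≤ W i * W j := by
  rcases abs_choice (∑ k, W k) with h1 | h1
  · rw [h1] at h
    have h2 : ∑ k, (|W k| - W k) = 0 := by rw [Finset.sum_sub_distrib, ← h, sub_self]
    have h3 := (Finset.sum_eq_zero_iff_of_nonneg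
      (fun k _ => by linarith [le_abs_self (W k)])).1 h2
    have a := h3 i (Finset.mem_univ _)
    have b := h3 j (Finset.mem_univ _)
    have a' : 0 ≤ W i := by linarith [abs_nonneg (W i)]
    have b' : 0 ≤ W j := by linarith [abs_nonneg (W j)]
    exact mul_nonneg a' b'
  · rw [h1] at h
    have h2 : ∑ k, (|W k| + W k) = 0 := by rw [Finset.sum_add_distrib, ← h]; ring
    have h3 := (Finset.sum_eq_zero_iff_of_nonneg
      (fun k _ => by linarith [neg_abs_le (W k)])).1 h2
    have a := h3 i (Finset.mem_univ _)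
    have b := h3 j (Finset.mem_univ _)
    have a' : W i ≤ 0 := by linarith [abs_nonneg (W i)]
    have b' : W j ≤ 0 := by linarith [abs_nonneg (W j)]
    exact mul_nonneg_of_nonpos_of_nonpos a' b'

theorem facet_strict (d : ℕ) (hd : 2 ≤ d) :
    fdet d (emb 0 (bar d)) < ∫ y, fdet d (emb 0 y) ∂sig d := by
  by_contra hcon
  push Not at hcon
  have hvert := strict_vertices d hd hcon
  have hdR : (0 : ℝ) < d := by exact_mod_cast (by omega : 0 < d)
  obtain ⟨W, hW⟩ : ∃ W : Fin d → (Fin d → Fin (d + 1) → ℝ) → ℝ, W = fun k Y =>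
      Matrix.det (Matrix.of (Fin.cons (Pi.single k.succ (1 : ℝ)) Y :
        Fin (d + 1) → Fin (d + 1) → ℝ)) := ⟨_, rfl⟩
  have hWval : ∀ k Y, W k Y = Matrix.det (Matrix.of (Fin.cons (Pi.single k.succ (1 : ℝ)) Y :
        Fin (d + 1) → Fin (d + 1) → ℝ)) := fun k Y => by rw [hW]
  have hexp : ∀ (y : Fin d → ℝ) (Y : Fin d → Fin (d + 1) → ℝ),
      Matrix.det (Matrix.of (Fin.cons (emb 0 y) Y : Fin (d + 1) → Fin (d + 1) → ℝ)) =
      ∑ k, y k * W k Y := by
    intro y Y
    rw [strict_expand]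
    exact Finset.sum_congr rfl fun k _ => by rw [hWval]
  have hint : ∀ k, Integrable (fun Y => |W k Y|) (Measure.pi fun _ : Fin d => sig (d + 1)) := by
    intro k
    have := strict_integrable d (Pi.single k.succ (1 : ℝ)) (single_mem_stdSimplex ℝ k.succ)
    refine this.congr (Filter.Eventually.of_forall fun Y => ?_)
    simp only [hWval]
  have hintb : Integrable (fun Y => |∑ k, (bar d) k * W k Y|)
      (Measure.pi fun _ : Fin d => sig (d + 1)) := by
    have := strict_integrable d (emb 0 (bar d)) (emb_mem 0 (bar_mem (by omega)))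
    refine this.congr (Filter.Eventually.of_forall fun Y => ?_)
    simp only [hexp]
  have hfk : ∀ k, ∫ Y, |W k Y| ∂(Measure.pi fun _ : Fin d => sig (d + 1)) =
      fdet d (emb 0 (bar d)) := by
    intro k
    rw [← hvert k]
    unfold fdet
    refine integral_congr_ae (Filter.Eventually.of_forall fun Y => ?_)
    simp only [hexp]
    congr 1
    rw [Finset.sum_eq_single k]
    · rw [Pi.single_eq_same, one_mul]
    · intro l _ hl
      rw [Pi.single_eq_of_ne hl, zero_mul]
    · intro h; exact absurd (Finset.mem_univ _) h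
  have hfb : ∫ Y, |∑ k, (bar d) k * W k Y| ∂(Measure.pi fun _ : Fin d => sig (d + 1)) =
      fdet d (emb 0 (bar d)) := by
    unfold fdet
    refine integral_congr_ae (Filter.Eventually.of_forall fun Y => ?_)
    simp only [hexp]
  have hbar : ∀ Y, |∑ k, (bar d) k * W k Y| = (d : ℝ)⁻¹ * |∑ k, W k Y| := by
    intro Y
    unfold bar
    rw [← Finset.mul_sum, abs_mul, abs_of_pos (inv_pos.2 hdR)]
  have hintS : Integrable (fun Y => ∑ k, |W k Y|) (Measure.pi fun _ : Fin d => sig (d + 1)) :=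
    integrable_finsetSum _ fun k _ => hint k
  have hzero : ∫ Y, ((d : ℝ)⁻¹ * ∑ k, |W k Y| - |∑ k, (bar d) k * W k Y|)
      ∂(Measure.pi fun _ : Fin d => sig (d + 1)) = 0 := by
    rw [integral_sub (hintS.const_mul _) hintb, integral_const_mul,
      integral_finsetSum _ (fun k _ => hint k), hfb]
    simp only [hfk, Finset.sum_const, Finset.card_univ, Fintype.card_fin, nsmul_eq_mul]
    rw [← mul_assoc, inv_mul_cancel₀ hdR.ne', one_mul, sub_self]
  have hnn : ∀ Y, 0 ≤ (d : ℝ)⁻¹ * ∑ k, |W k Y| - |∑ k, (bar d) k * W k Y| := by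
    intro Y
    rw [hbar, ← mul_sub]
    exact mul_nonneg (inv_pos.2 hdR).le (sub_nonneg.2 (Finset.abs_sum_le_sum_abs _ _))
  have hae := (integral_eq_zero_iff_of_nonneg hnn ((hintS.const_mul _).sub hintb)).1 hzero
  have hopp := opposite_signs d hd
  refine hopp.ne' ?_
  rw [measure_eq_zero_iff_ae_notMem]
  filter_upwards [hae] with Y hY hmem
  have h1 : (d : ℝ)⁻¹ * ∑ k, |W k Y| - |∑ k, (bar d) k * W k Y| = 0 := hY
  rw [hbar, ← mul_sub] at h1
  have h2 : ∑ k, |W k Y| - |∑ k, W k Y| = 0 :=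
    (mul_eq_zero.1 h1).resolve_left (inv_pos.2 hdR).ne'
  have h3 := strict_signs (fun k => W k Y) (by linarith) ⟨0, by omega⟩ ⟨1, by omega⟩
  simp only [hWval] at h3
  have h4 : (⟨0, by omega⟩ : Fin d).succ = (⟨1, by omega⟩ : Fin (d + 1)) := rfl
  have h5 : (⟨1, by omega⟩ : Fin d).succ = (⟨2, by omega⟩ : Fin (d + 1)) := rfl
  rw [h4, h5] at h3
  exact absurd hmem (not_lt.2 h3)

end Pool.Agent.Lib.MP_29b1bb_gt
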