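import Pool.Agent.Lib.MP_29b1bb_gt.Rad2
import Pool.Agent.Lib.MP_29b1bb_gt.Inner
import Pool.Agent.Lib.MP_29b1bb_gt.Strict

/-!
# LM-Norm: the theorem in normal form
-/

set_option autoImplicit false

open MeasureTheory Set

namespace Pool.Agent.Lib.MP_29b1bb_gt

theorem norm_form (d : ℕ) (hd : 2 ≤ d) : ∃ δ c : ℝ, 0 < δ ∧ 0 < c ∧
    ∀ C : Set (Fin (d + 1) → ℝ), IsClosed C → Convex ℝ C → C ⊆ stdSimplex ℝ (Fin (d + 1)) →
      (∀ j, emb j (bar d) ∈ C) → (sig (d + 1)).real Cᶜ ≤ δ →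
      Gdet d C + c * (sig (d + 1)).real Cᶜ ≤
        ((sig (d + 1)).real C) ^ (d + 2) * Gdet d univ := by
  have hdR : (2 : ℝ) ≤ (d : ℝ) := by exact_mod_cast hd
  obtain ⟨c0, hc0⟩ : ∃ c0 : ℝ, c0 = (1 / ((d : ℝ) ^ 2 - 1)) *
      ((∫ y, fdet d (emb 0 y) ∂sig d) - fdet d (emb 0 (bar d))) := ⟨_, rfl⟩
  obtain ⟨fb, hfb⟩ : ∃ fb : ℝ, fb = (((d : ℝ) + 2) / ((d : ℝ) + 1)) * Gdet d univ := ⟨_, rfl⟩
  have hc0pos : 0 < c0 := by
    rw [hc0]
    have h1 := facet_strict d hd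
    have h2 : 0 < (d : ℝ) ^ 2 - 1 := by nlinarith
    exact mul_pos (by positivity) (by linarith)
  obtain ⟨η, hη⟩ : ∃ η : ℝ, η = min (1 / 2) (c0 / (2 * ((d : ℝ) + 5))) := ⟨_, rfl⟩
  have hηpos : 0 < η := by
    rw [hη]
    exact lt_min (by norm_num) (by positivity)
  have hη1 : η ≤ 1 / 2 := by rw [hη]; exact min_le_left _ _
  have hη2 : 2 * ((d : ℝ) + 5) * η ≤ c0 := by
    have : η ≤ c0 / (2 * ((d : ℝ) + 5)) := by rw [hη]; exact min_le_right _ _
    rw [le_div_iff₀ (by positivity)] at this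
    linarith
  refine ⟨min ((η ^ d / ((d : ℝ) + 1)) / 2) (c0 / (2 * (d : ℝ))), (((d : ℝ) + 1) / 2) * (c0 / 2),
    lt_min (by positivity) (by positivity), by positivity, ?_⟩
  intro C hcl hcv hsub hcen hε
  obtain ⟨ε, hεdef⟩ : ∃ ε : ℝ, ε = (sig (d + 1)).real Cᶜ := ⟨_, rfl⟩
  rw [← hεdef] at hε ⊢
  have hε0 : 0 ≤ ε := by rw [hεdef]; exact measureReal_nonneg
  have hεa : ε < η ^ d / ((d : ℝ) + 1) := by
    have h1 := le_trans hε (min_le_left _ _)
    have h2 : 0 < η ^ d / ((d : ℝ) + 1) := by positivity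
    linarith
  have hεb : ε ≤ c0 / (2 * (d : ℝ)) := le_trans hε (min_le_right _ _)
  have hεb' : 2 * (d : ℝ) * ε ≤ c0 := by
    rw [le_div_iff₀ (by positivity)] at hεb
    linarith
  have hgood : Good d C η :=
    { closed := hcl
      conv := hcv
      sub := hsub
      inner := inner_of_measure d (by omega) C hcl hcv η hηpos (by linarith) (by rw [← hεdef]; exact hεa)
      nonneg := hηpos.le
      le_half := hη1 }
  have hrad := radial_est d hd C η hgood hcen c0 fb hc0 hfb hη2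
  rw [← hεdef] at hrad
  have hint : IntegrableOn (fdet d) Cᶜ (sig (d + 1)) := by
    refine Integrable.integrableOn ?_
    refine integrable_sig (M := 1) (by omega) (fdet_continuous d).measurable ?_
    intro x hx
    rw [abs_of_nonneg (fdet_nonneg d x)]
    exact fdet_le_one d hx
  have hsplit : ∫ x in Cᶜ, (fdet d x - fb) ∂sig (d + 1) =
      (∫ x in Cᶜ, fdet d x ∂sig (d + 1)) - fb * ε := by
    rw [integral_sub hint (integrable_const _)]
    rw [setIntegral_const, hεdef, smul_eq_mul]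
    ring
  rw [hsplit] at hrad
  have hbonf := bonf_upper d C hcl.measurableSet
  rw [← hεdef] at hbonf
  have hG : 0 ≤ Gdet d univ := Gdet_nonneg d univ
  have hCε : (sig (d + 1)).real C = 1 - ε := by
    have h1 := probReal_add_probReal_compl (μ := sig (d + 1)) hcl.measurableSet
    rw [hεdef]; linarith
  have hε1 : ε ≤ 1 := by
    rw [hεdef]
    exact measureReal_le_one
  have hbern : 1 - ((d : ℝ) + 2) * ε ≤ (1 - ε) ^ (d + 2) := by
    have h1 := one_add_mul_le_pow (a := -ε) (by linarith) (d + 2)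
    push_cast at h1
    have h2 : (1 + -ε) ^ (d + 2) = (1 - ε) ^ (d + 2) := by ring
    rw [h2] at h1
    linarith
  have hmain : Gdet d C ≤ (1 - ((d : ℝ) + 2) * ε) * Gdet d univ -
      (((d : ℝ) + 1) / 2) * (ε * (c0 - d * ε)) := by
    have h1 : ((d : ℝ) + 1) * (fb * ε) = ((d : ℝ) + 2) * ε * Gdet d univ := by
      rw [hfb]
      field_simp
    nlinarith [hbonf, hrad, h1]
  have hpow : (1 - ((d : ℝ) + 2) * ε) * Gdet d univ ≤ (1 - ε) ^ (d + 2) * Gdet d univ :=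
    mul_le_mul_of_nonneg_right hbern hG
  rw [hCε]
  have h4 : c0 / 2 ≤ c0 - d * ε := by linarith
  have h5 : (((d : ℝ) + 1) / 2) * (ε * (c0 / 2)) ≤ (((d : ℝ) + 1) / 2) * (ε * (c0 - d * ε)) := by
    gcongr
  have h6 : (((d : ℝ) + 1) / 2) * (c0 / 2) * ε = (((d : ℝ) + 1) / 2) * (ε * (c0 / 2)) := by ring
  linarith

end Pool.Agent.Lib.MP_29b1bb_gt
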