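import Pool.Agent.Lib.MP_29b1bb_gt.Basic

/-!
# LM-Rad1: radial integrals

`τ = (bet d).real {g | 1 < g (1+κ)} = 1 - (1/(1+κ))^d` (`bet_Iic` at `1/(1+κ)`).
`τ ≤ d κ` (Bernoulli, `one_add_mul_le_pow` for `1/(1+κ) = 1 - κ/(1+κ)`), and
`(1/(1+κ))^d ≤ 1 - d κ + (d(d+1)/2) κ²` by induction on `d`:
`1 - d κ + (d(d+1)/2) κ² ≤ (1+κ) (1 - (d+1) κ + ((d+1)(d+2)/2) κ²)`, the difference is
`((d+1)(d+2)/2) κ³`. On `{g | 1 < g (1+κ)} ∩ (0,1]`: `1 - g < κ/(1+κ) ≤ κ`, so `F g ≥ a - 2 κ`, and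
`∫ ≥ (a - 2κ) τ ≥ d κ a - |a| (dκ - τ) - 2 κ τ ≥ d κ a - (d(d+1)/2) κ² - 2 d κ²`.
-/

set_option autoImplicit false

open MeasureTheory Set

namespace Pool.Agent.Lib.MP_29b1bb_gt

private theorem rad_set (κ : ℝ) (hκ : 0 ≤ κ) (g : ℝ) : 1 < g * (1 + κ) ↔ 1 / (1 + κ) < g := by
  rw [div_lt_iff₀ (by linarith)]

private theorem rad_tau (d : ℕ) (hd : 0 < d) (κ : ℝ) (hκ : 0 ≤ κ) :
    (bet d).real {g | 1 < g * (1 + κ)} = 1 - (1 / (1 + κ)) ^ d := by
  have := instProbBet d hd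
  have h1 : {g : ℝ | 1 < g * (1 + κ)} = (Iic (1 / (1 + κ)))ᶜ := by
    ext g
    simp only [Set.mem_ofPred_eq, Set.mem_compl_iff, mem_Iic, not_le]
    exact rad_set κ hκ g
  have h0 : (0 : ℝ) ≤ 1 / (1 + κ) := by positivity
  have h2 : 1 / (1 + κ) ≤ 1 := by
    rw [div_le_one (by linarith)]; linarith
  rw [h1, probReal_compl_eq_one_sub measurableSet_Iic, measureReal_def, bet_Iic d hd _ h0 h2,
    ENNReal.toReal_ofReal (by positivity)]

private theorem rad_integral_const (d : ℕ) (hd : 0 < d) (κ : ℝ) (hκ : 0 ≤ κ) (c : ℝ) :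
    ∫ g, (if 1 < g * (1 + κ) then c else 0) ∂bet d = c * (1 - (1 / (1 + κ)) ^ d) := by
  have := instProbBet d hd
  have hm : MeasurableSet {g : ℝ | 1 < g * (1 + κ)} :=
    measurableSet_lt measurable_const (by fun_prop)
  have h1 : (fun g : ℝ => if 1 < g * (1 + κ) then c else 0) =
      Set.indicator {g : ℝ | 1 < g * (1 + κ)} (fun _ => c) := by
    funext g
    simp only [Set.indicator_apply, Set.mem_ofPred_eq]
  rw [h1, integral_indicator hm, setIntegral_const, rad_tau d hd κ hκ, smul_eq_mul, mul_comm]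

private theorem rad_tau_le (d : ℕ) (κ : ℝ) (hκ : 0 ≤ κ) : 1 - (1 / (1 + κ)) ^ d ≤ d * κ := by
  have h0 : (0 : ℝ) < 1 / (1 + κ) := by positivity
  have h1 := one_add_mul_le_pow (a := 1 / (1 + κ) - 1) (by linarith) d
  have h2 : 1 + (1 / (1 + κ) - 1) = 1 / (1 + κ) := by ring
  rw [h2] at h1
  have h3 : 1 - 1 / (1 + κ) ≤ κ := by
    have : 1 - 1 / (1 + κ) = κ / (1 + κ) := by field_simp; ring
    rw [this, div_le_iff₀ (by linarith)]
    nlinarith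
  have h4 : (d : ℝ) * (1 - 1 / (1 + κ)) ≤ d * κ := by gcongr
  linarith

private theorem rad_tau_ge (d : ℕ) (κ : ℝ) (hκ : 0 ≤ κ) :
    (1 / (1 + κ)) ^ d ≤ 1 - d * κ + ((d : ℝ) * (d + 1) / 2) * κ ^ 2 := by
  induction d with
  | zero => simp
  | succ d ih =>
    rw [pow_succ, mul_one_div, div_le_iff₀ (by linarith)]
    refine ih.trans ?_
    push_cast
    have h1 : 0 ≤ (((d : ℝ) + 1) * (d + 2) / 2) * κ ^ 3 := by positivity
    nlinarith [h1]

theorem rad_upper (d : ℕ) (hd : 0 < d) (κ : ℝ) (hκ : 0 ≤ κ) :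
    ∫ g, (if 1 < g * (1 + κ) then (1 : ℝ) else 0) ∂bet d ≤ d * κ := by
  rw [rad_integral_const d hd κ hκ, one_mul]
  exact rad_tau_le d κ hκ

theorem rad_lower (d : ℕ) (hd : 0 < d) (κ : ℝ) (hκ : 0 ≤ κ) (a : ℝ) (ha : |a| ≤ 1) (F : ℝ → ℝ)
    (hF : Measurable F) (M : ℝ) (hFb : ∀ g ∈ Icc (0 : ℝ) 1, |F g| ≤ M)
    (hFl : ∀ g ∈ Icc (0 : ℝ) 1, a - 2 * (1 - g) ≤ F g) :
    (d : ℝ) * κ * a - ((d : ℝ) * (d + 1) / 2 + 2 * d) * κ ^ 2 ≤
      ∫ g, (if 1 < g * (1 + κ) then F g else 0) ∂bet d := by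
  have := instProbBet d hd
  have hm : MeasurableSet {g : ℝ | 1 < g * (1 + κ)} :=
    measurableSet_lt measurable_const (by fun_prop)
  have hmF : Measurable (fun g : ℝ => if 1 < g * (1 + κ) then F g else 0) :=
    Measurable.ite hm hF measurable_const
  have hM : 0 ≤ M := (abs_nonneg _).trans (hFb 0 ⟨le_rfl, zero_le_one⟩)
  have hi1 : Integrable (fun g : ℝ => if 1 < g * (1 + κ) then F g else 0) (bet d) := by
    refine Integrable.of_bound (C := M) hmF.aestronglyMeasurable ?_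
    filter_upwards [bet_ae_mem d] with g hg
    split_ifs
    · exact hFb g ⟨hg.1.le, hg.2⟩
    · simpa using hM
  have hi2 : Integrable (fun g : ℝ => if 1 < g * (1 + κ) then (a - 2 * κ) else 0) (bet d) := by
    refine Integrable.of_bound (C := |a - 2 * κ|)
      (Measurable.ite hm measurable_const measurable_const).aestronglyMeasurable ?_
    filter_upwards with g
    split_ifs
    · exact le_rfl
    · simp
  have hle : ∫ g, (if 1 < g * (1 + κ) then (a - 2 * κ) else 0) ∂bet d ≤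
      ∫ g, (if 1 < g * (1 + κ) then F g else 0) ∂bet d := by
    refine integral_mono_ae hi2 hi1 ?_
    filter_upwards [bet_ae_mem d] with g hg
    split_ifs with h
    · refine le_trans ?_ (hFl g ⟨hg.1.le, hg.2⟩)
      have h1 := (rad_set κ hκ g).1 h
      have h3 : 1 - 1 / (1 + κ) ≤ κ := by
        have : 1 - 1 / (1 + κ) = κ / (1 + κ) := by field_simp; ring
        rw [this, div_le_iff₀ (by linarith)]
        nlinarith
      linarith
    · exact le_rfl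
  refine le_trans ?_ hle
  rw [rad_integral_const d hd κ hκ]
  have h1 := rad_tau_le d κ hκ
  have h2 := rad_tau_ge d κ hκ
  obtain ⟨τ, hτ⟩ : ∃ τ : ℝ, τ = 1 - (1 / (1 + κ)) ^ d := ⟨_, rfl⟩
  rw [← hτ] at h1 ⊢
  have h3 : d * κ - ((d : ℝ) * (d + 1) / 2) * κ ^ 2 ≤ τ := by rw [hτ]; linarith
  obtain ⟨ha1, ha2⟩ := abs_le.1 ha
  have h4 : a * τ ≥ a * (d * κ) - ((d : ℝ) * (d + 1) / 2) * κ ^ 2 := by
    have h5 : 0 ≤ d * κ - τ := by linarith
    have h6 : d * κ - τ ≤ ((d : ℝ) * (d + 1) / 2) * κ ^ 2 := by linarith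
    nlinarith
  have h7 : 2 * κ * τ ≤ 2 * κ * (d * κ) := by gcongr
  nlinarith

end Pool.Agent.Lib.MP_29b1bb_gt
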