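import Pool.Agent.Lib.MP_29b1bb_gt.Kap
import Pool.Agent.Lib.MP_29b1bb_gt.Rad1
import Pool.Agent.Lib.MP_29b1bb_gt.AssocN
import Pool.Agent.Lib.MP_29b1bb_gt.FMean

/-!
# LM-Rad2: the main inequality

Let `f_j y = fdet d (emb j y)`, `κ_j = kap C j`, `E = ∫ f_0 = ∫ f_j` (`fdet_emb_eq`), `fb ≤ E` (`facet_mean`).
Apply `integral_cone` (`N = d`) to `φ x = if x ∈ Cᶜ then fdet d x - fb else 0`: for `y` in the simplex
and `0 ≤ g ≤ 1` the point `x = (1-g) • bar + g • emb j y` is in `Cᶜ` iff `1 < g (1 + κ_j y)`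
(`kap_mem`), and `fdet d x ≥ f_j y - 2 (1-g)` (`fdet_lipschitz`, `∑ |bar i - (emb j y) i| ≤ 2`). Swap
the order of integration (`integral_integral_swap`, bounded measurable functions; `g, y ↦ κ_j y`
measurable) and use `rad_lower` with `a = f_j y - fb` (`|a| ≤ 1`: `0 ≤ f_j ≤ 1`, `0 ≤ fb ≤ E ≤ 1`), for
`y` in the simplex: `∫ x in Cᶜ, (fdet d x - fb) ≥ (1/(d+1)) ∑_j ∫ y, (d κ_j a_j - (d(d+1)/2 + 2d) κ_j²)`.
Since `0 ≤ κ_j ≤ 2η`: `(d(d+1)/2 + 2d) κ_j² ≤ d (d+5) η κ_j`. `assoc_nonsym` (`f = f_j`, `κ = κ_j`,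
`κ_j (bar d) = 0` by `kap_bar`): `∫ κ_j f_j ≥ (∫ κ_j) E + c0 ∫ κ_j` so `∫ κ_j (f_j - fb) ≥ c0 ∫ κ_j`. Together
`∫ y, (…) ≥ d (c0 - (d+5) η) ∫ κ_j ≥ d (c0/2) ∫ κ_j`. In the same way, with `rad_upper` and
`φ = 1_{Cᶜ}`: `(sig (d+1)).real Cᶜ ≤ (1/(d+1)) ∑_j d ∫ κ_j`.
-/

set_option autoImplicit false

open MeasureTheory Set

namespace Pool.Agent.Lib.MP_29b1bb_gt

private theorem meas_pt_rad2 (d : ℕ) (i : Fin (d + 1)) :
    Measurable fun q : ℝ × (Fin d → ℝ) => (1 - q.1) • bar (d + 1) + q.1 • emb i q.2 :=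
  ((measurable_const.sub measurable_fst).smul measurable_const).add
    (measurable_fst.smul ((measurable_emb i).comp measurable_snd))

private theorem pt_mem_rad2 (d : ℕ) (i : Fin (d + 1)) {g : ℝ} (h0 : 0 ≤ g) (h1 : g ≤ 1)
    {y : Fin d → ℝ} (hy : y ∈ stdSimplex ℝ (Fin d)) :
    (1 - g) • bar (d + 1) + g • emb i y ∈ stdSimplex ℝ (Fin (d + 1)) :=
  comb_mem (bar_mem (Nat.succ_pos d)) (emb_mem i hy) h0 h1

private theorem integrable_rad2 (d : ℕ) (hd : 0 < d) {ψ : (Fin (d + 1) → ℝ) → ℝ}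
    (hψ : Measurable ψ) {M : ℝ} (hM : ∀ x ∈ stdSimplex ℝ (Fin (d + 1)), |ψ x| ≤ M)
    (i : Fin (d + 1)) :
    Integrable (fun q : ℝ × (Fin d → ℝ) => ψ ((1 - q.1) • bar (d + 1) + q.1 • emb i q.2))
      ((bet d).prod (sig d)) := by
  haveI := instProbBet d hd
  refine Integrable.of_bound (C := M) ((hψ.comp (meas_pt_rad2 d i)).aestronglyMeasurable) ?_
  have h1 : ∀ᵐ q ∂((bet d).prod (sig d)), q.1 ∈ Ioc (0 : ℝ) 1 :=
    Measure.quasiMeasurePreserving_fst.ae (bet_ae_mem d)
  have h2 : ∀ᵐ q ∂((bet d).prod (sig d)), q.2 ∈ stdSimplex ℝ (Fin d) :=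
    Measure.quasiMeasurePreserving_snd.ae (sig_ae_mem d hd)
  filter_upwards [h1, h2] with q hq1 hq2
  exact hM _ (pt_mem_rad2 d i hq1.1.le hq1.2 hq2)

private theorem cone_swap_rad2 (d : ℕ) (hd : 0 < d) {ψ : (Fin (d + 1) → ℝ) → ℝ}
    (hψ : Measurable ψ) {M : ℝ} (hM : ∀ x ∈ stdSimplex ℝ (Fin (d + 1)), |ψ x| ≤ M) :
    ∫ x, ψ x ∂sig (d + 1) = (1 / ((d : ℝ) + 1)) *
      ∑ i : Fin (d + 1), ∫ y, ∫ g, ψ ((1 - g) • bar (d + 1) + g • emb i y) ∂bet d ∂sig d := by
  haveI := instProbBet d hd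
  rw [integral_cone d hd ψ hψ M hM]
  congr 1
  refine Finset.sum_congr rfl fun i _ => ?_
  exact integral_integral_swap (integrable_rad2 d hd hψ hM i)

private theorem integrable_inner_rad2 (d : ℕ) (hd : 0 < d) {ψ : (Fin (d + 1) → ℝ) → ℝ}
    (hψ : Measurable ψ) {M : ℝ} (hM : ∀ x ∈ stdSimplex ℝ (Fin (d + 1)), |ψ x| ≤ M)
    (i : Fin (d + 1)) :
    Integrable (fun y => ∫ g, ψ ((1 - g) • bar (d + 1) + g • emb i y) ∂bet d) (sig d) := by
  haveI := instProbBet d hd
  exact (integrable_rad2 d hd hψ hM i).integral_prod_right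

private theorem lip_rad2 (d : ℕ) (i : Fin (d + 1)) {g : ℝ} (h1 : g ≤ 1)
    {y : Fin d → ℝ} (hy : y ∈ stdSimplex ℝ (Fin d)) :
    fdet d (emb i y) - 2 * (1 - g) ≤ fdet d ((1 - g) • bar (d + 1) + g • emb i y) := by
  have h2 := fdet_lipschitz d ((1 - g) • bar (d + 1) + g • emb i y) (emb i y)
  have h3 : ∑ k, |((1 - g) • bar (d + 1) + g • emb i y) k - (emb i y) k| ≤ 2 * (1 - g) := by
    have h4 : ∀ k, |((1 - g) • bar (d + 1) + g • emb i y) k - (emb i y) k| ≤
        (1 - g) * (bar (d + 1) k + emb i y k) := by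
      intro k
      have hb : 0 ≤ bar (d + 1) k := (bar_mem (Nat.succ_pos d)).1 k
      have he : 0 ≤ emb i y k := (emb_mem i hy).1 k
      have h5 : ((1 - g) • bar (d + 1) + g • emb i y) k - (emb i y) k =
          (1 - g) * (bar (d + 1) k - emb i y k) := by
        simp only [Pi.add_apply, Pi.smul_apply, smul_eq_mul]
        ring
      rw [h5, abs_mul, abs_of_nonneg (by linarith : 0 ≤ 1 - g)]
      refine mul_le_mul_of_nonneg_left ?_ (by linarith)
      rw [abs_le]
      constructor <;> linarith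
    refine (Finset.sum_le_sum fun k _ => h4 k).trans ?_
    rw [← Finset.mul_sum, Finset.sum_add_distrib, (bar_mem (Nat.succ_pos d)).2,
      (emb_mem i hy).2]
    linarith
  have h6 := (abs_le.mp (h2.trans h3)).1
  linarith

theorem radial_est (d : ℕ) (hd : 2 ≤ d) (C : Set (Fin (d + 1) → ℝ)) (η : ℝ) (hC : Good d C η)
    (hcen : ∀ j, emb j (bar d) ∈ C) (c0 fb : ℝ)
    (hc0 : c0 = (1 / ((d : ℝ) ^ 2 - 1)) *
      ((∫ y, fdet d (emb 0 y) ∂sig d) - fdet d (emb 0 (bar d))))
    (hfb : fb = (((d : ℝ) + 2) / ((d : ℝ) + 1)) * Gdet d univ)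
    (hη : 2 * ((d : ℝ) + 5) * η ≤ c0) :
    (c0 / 2) * (sig (d + 1)).real Cᶜ ≤ ∫ x in Cᶜ, (fdet d x - fb) ∂sig (d + 1) := by
  have hd0 : 0 < d := by omega
  haveI := instProbBet d hd0
  obtain ⟨E, hE⟩ : ∃ E, E = ∫ y, fdet d (emb 0 y) ∂sig d := ⟨_, rfl⟩
  have hEi : ∀ i : Fin (d + 1), ∫ y, fdet d (emb i y) ∂sig d = E := by
    intro i
    rw [hE]
    refine integral_congr_ae (Filter.Eventually.of_forall fun y => ?_)
    exact fdet_emb_eq d i 0 y
  have hfm : ∀ i : Fin (d + 1), Measurable fun y : Fin d → ℝ => fdet d (emb i y) := fun i =>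
    (fdet_continuous d).measurable.comp (measurable_emb i)
  have hfb' : ∀ i : Fin (d + 1), ∀ y ∈ stdSimplex ℝ (Fin d), |fdet d (emb i y)| ≤ 1 := by
    intro i y hy
    rw [abs_of_nonneg (fdet_nonneg d _)]
    exact fdet_le_one d (emb_mem i hy)
  have hG0 : 0 ≤ Gdet d univ := by
    unfold Gdet
    exact integral_nonneg fun Y => abs_nonneg _
  have hfb0 : 0 ≤ fb := by
    rw [hfb]
    positivity
  have hfbE : fb ≤ E := by
    rw [hfb, hE]
    exact facet_mean d hd0 0
  have hE1 : E ≤ 1 := by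
    rw [hE]
    calc ∫ y, fdet d (emb 0 y) ∂sig d ≤ ∫ _y, (1 : ℝ) ∂sig d := by
          refine integral_mono_ae (integrable_sig hd0 (hfm 0) (hfb' 0)) (integrable_const _) ?_
          filter_upwards [sig_ae_mem d hd0] with y hy
          exact fdet_le_one d (emb_mem 0 hy)
      _ = 1 := by simp
  have hη0 : 0 ≤ η := hC.nonneg
  have hc00 : 0 ≤ c0 := le_trans (by positivity) hη
  have hCm : MeasurableSet C := hC.closed.measurableSet
  have hκm : ∀ i, Measurable (kap C i) := fun i => kap_measurable hC i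
  have hκ0 : ∀ i y, 0 ≤ kap C i y := fun i y => kap_nonneg hC i y
  have hκ2 : ∀ i y, kap C i y ≤ 2 * η := fun i y => kap_le hC i y
  have hκb : ∀ i, ∀ y ∈ stdSimplex ℝ (Fin d), |kap C i y| ≤ 2 * η := by
    intro i y _
    rw [abs_of_nonneg (hκ0 i y)]
    exact hκ2 i y
  have hκint : ∀ i, Integrable (kap C i) (sig d) := fun i => integrable_sig hd0 (hκm i) (hκb i)
  have hfint : ∀ i : Fin (d + 1), Integrable (fun y => fdet d (emb i y)) (sig d) := fun i =>
    integrable_sig hd0 (hfm i) (hfb' i)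
  have hκfint : ∀ i : Fin (d + 1), Integrable (fun y => kap C i y * fdet d (emb i y)) (sig d) := by
    intro i
    refine integrable_sig hd0 ((hκm i).mul (hfm i)) (M := 2 * η * 1) ?_
    intro y hy
    rw [abs_mul]
    exact mul_le_mul (hκb i y hy) (hfb' i y hy) (abs_nonneg _) (by positivity)
  have hK0 : ∀ i, 0 ≤ ∫ y, kap C i y ∂sig d := fun i => integral_nonneg fun y => hκ0 i y
  -- the covariance inequality
  have hcov : ∀ i : Fin (d + 1), (∫ y, kap C i y ∂sig d) * E + c0 * ∫ y, kap C i y ∂sig d ≤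
      ∫ y, kap C i y * fdet d (emb i y) ∂sig d := by
    intro i
    have h1 := assoc_nonsym d hd0 (fun y => fdet d (emb i y)) (kap C i) (fdet_symConv d i) (hκm i)
      (kap_convex hC i) (2 * η) (hκb i)
    rw [hEi i, kap_bar hC i (hcen i), fdet_emb_eq d i 0 (bar d)] at h1
    rw [hc0, ← hE]
    linarith
  -- the lower bound for one cone
  have hlow : ∀ i : Fin (d + 1), (d : ℝ) * (c0 / 2) * ∫ y, kap C i y ∂sig d ≤
      ∫ y, ∫ g, (Cᶜ).indicator (fun x => fdet d x - fb)
        ((1 - g) • bar (d + 1) + g • emb i y) ∂bet d ∂sig d := by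
    intro i
    have hψ : Measurable ((Cᶜ).indicator (fun x => fdet d x - fb)) :=
      ((fdet_continuous d).measurable.sub_const fb).indicator hCm.compl
    have hψb : ∀ x ∈ stdSimplex ℝ (Fin (d + 1)), |(Cᶜ).indicator (fun x => fdet d x - fb) x| ≤ 1 := by
      intro x hx
      have h1 := fdet_nonneg d x
      have h2 := fdet_le_one d hx
      by_cases h : x ∈ Cᶜ
      · rw [Set.indicator_of_mem h, abs_le]
        constructor <;> linarith
      · rw [Set.indicator_of_notMem h, abs_zero]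
        exact zero_le_one
    have hI := integrable_inner_rad2 d hd0 hψ hψb i
    have hpt : ∀ y ∈ stdSimplex ℝ (Fin d),
        (d : ℝ) * (kap C i y * fdet d (emb i y)) - (d : ℝ) * fb * kap C i y -
          (d : ℝ) * ((d : ℝ) + 5) * η * kap C i y ≤
        ∫ g, (Cᶜ).indicator (fun x => fdet d x - fb)
          ((1 - g) • bar (d + 1) + g • emb i y) ∂bet d := by
      intro y hy
      obtain ⟨κ, hκ⟩ : ∃ κ, κ = kap C i y := ⟨_, rfl⟩
      obtain ⟨F, hF⟩ : ∃ F : ℝ → ℝ, F = fun g => fdet d ((1 - g) • bar (d + 1) + g • emb i y) - fb :=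
        ⟨_, rfl⟩
      have hFm : Measurable F := by
        rw [hF]
        refine ((fdet_continuous d).measurable.comp ?_).sub_const fb
        exact ((measurable_const.sub measurable_id).smul measurable_const).add
          (measurable_id.smul measurable_const)
      have hFb : ∀ g ∈ Icc (0 : ℝ) 1, |F g| ≤ 1 := by
        intro g hg
        have hm := pt_mem_rad2 d i hg.1 hg.2 hy
        have h1 := fdet_nonneg d ((1 - g) • bar (d + 1) + g • emb i y)
        have h2 := fdet_le_one d hm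
        rw [hF, abs_le]
        simp only
        constructor <;> linarith
      have ha : |fdet d (emb i y) - fb| ≤ 1 := by
        have h1 := fdet_nonneg d (emb i y)
        have h2 := fdet_le_one d (emb_mem i hy)
        rw [abs_le]
        constructor <;> linarith
      have hFl : ∀ g ∈ Icc (0 : ℝ) 1, fdet d (emb i y) - fb - 2 * (1 - g) ≤ F g := by
        intro g hg
        have h1 := lip_rad2 d i hg.2 hy
        rw [hF]
        simp only
        linarith
      have hr := rad_lower d hd0 κ (by rw [hκ]; exact hκ0 i y) _ ha F hFm 1 hFb hFl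
      have heq : ∫ g, (Cᶜ).indicator (fun x => fdet d x - fb)
          ((1 - g) • bar (d + 1) + g • emb i y) ∂bet d =
          ∫ g, (if 1 < g * (1 + κ) then F g else 0) ∂bet d := by
        refine integral_congr_ae ?_
        filter_upwards [bet_ae_mem d] with g hg
        have hmem := kap_mem hC i hy hg.1.le hg.2
        rw [← hκ] at hmem
        by_cases h : 1 < g * (1 + κ)
        · have h1 : (1 - g) • bar (d + 1) + g • emb i y ∈ Cᶜ := by
            rw [Set.mem_compl_iff, hmem]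
            exact not_le.mpr h
          rw [Set.indicator_of_mem h1, if_pos h, hF]
        · have h1 : (1 - g) • bar (d + 1) + g • emb i y ∉ Cᶜ := by
            rw [Set.mem_compl_iff, hmem, not_not]
            exact not_lt.mp h
          rw [Set.indicator_of_notMem h1, if_neg h]
      rw [heq]
      refine le_trans ?_ hr
      have h3 : κ ^ 2 ≤ 2 * η * κ := by
        rw [pow_two]
        refine mul_le_mul_of_nonneg_right ?_ (by rw [hκ]; exact hκ0 i y)
        rw [hκ]
        exact hκ2 i y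
      have h4 : ((d : ℝ) * (d + 1) / 2 + 2 * d) * κ ^ 2 ≤
          ((d : ℝ) * (d + 1) / 2 + 2 * d) * (2 * η * κ) :=
        mul_le_mul_of_nonneg_left h3 (by positivity)
      rw [← hκ]
      have h5 : ((d : ℝ) * (d + 1) / 2 + 2 * d) * (2 * η * κ) = (d : ℝ) * ((d : ℝ) + 5) * η * κ := by
        ring
      rw [h5] at h4
      have h6 : (d : ℝ) * (κ * fdet d (emb i y)) - (d : ℝ) * fb * κ =
          (d : ℝ) * κ * (fdet d (emb i y) - fb) := by ring
      rw [h6]
      linarith
    have hint : Integrable (fun y => (d : ℝ) * (kap C i y * fdet d (emb i y)) -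
        (d : ℝ) * fb * kap C i y - (d : ℝ) * ((d : ℝ) + 5) * η * kap C i y) (sig d) :=
      (((hκfint i).const_mul _).sub ((hκint i).const_mul _)).sub ((hκint i).const_mul _)
    have hmono : ∫ y, ((d : ℝ) * (kap C i y * fdet d (emb i y)) -
        (d : ℝ) * fb * kap C i y - (d : ℝ) * ((d : ℝ) + 5) * η * kap C i y) ∂sig d ≤
        ∫ y, ∫ g, (Cᶜ).indicator (fun x => fdet d x - fb)
          ((1 - g) • bar (d + 1) + g • emb i y) ∂bet d ∂sig d := by
      refine integral_mono_ae hint hI ?_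
      filter_upwards [sig_ae_mem d hd0] with y hy
      exact hpt y hy
    refine le_trans ?_ hmono
    have hs1 : ∫ y, ((d : ℝ) * (kap C i y * fdet d (emb i y)) -
        (d : ℝ) * fb * kap C i y - (d : ℝ) * ((d : ℝ) + 5) * η * kap C i y) ∂sig d =
        (∫ y, ((d : ℝ) * (kap C i y * fdet d (emb i y)) - (d : ℝ) * fb * kap C i y) ∂sig d) -
          ∫ y, (d : ℝ) * ((d : ℝ) + 5) * η * kap C i y ∂sig d :=
      integral_sub (((hκfint i).const_mul _).sub ((hκint i).const_mul _))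
        ((hκint i).const_mul _)
    have hs2 : ∫ y, ((d : ℝ) * (kap C i y * fdet d (emb i y)) - (d : ℝ) * fb * kap C i y) ∂sig d =
        (∫ y, (d : ℝ) * (kap C i y * fdet d (emb i y)) ∂sig d) -
          ∫ y, (d : ℝ) * fb * kap C i y ∂sig d :=
      integral_sub ((hκfint i).const_mul _) ((hκint i).const_mul _)
    rw [hs1, hs2, integral_const_mul, integral_const_mul, integral_const_mul]
    obtain ⟨K, hK⟩ : ∃ K, K = ∫ y, kap C i y ∂sig d := ⟨_, rfl⟩
    have hc := hcov i
    have hKi := hK0 i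
    rw [← hK] at hc hKi ⊢
    have h7 : (d : ℝ) * (K * E + c0 * K) ≤
        (d : ℝ) * ∫ y, kap C i y * fdet d (emb i y) ∂sig d :=
      mul_le_mul_of_nonneg_left hc (by positivity)
    have h8 : 0 ≤ (d : ℝ) * K * (E - fb) := mul_nonneg (by positivity) (by linarith)
    have h9 : 0 ≤ (d : ℝ) * K * (c0 - 2 * ((d : ℝ) + 5) * η) :=
      mul_nonneg (by positivity) (by linarith)
    nlinarith [h7, h8, h9]
  -- the upper bound for one cone
  have hup : ∀ i : Fin (d + 1), ∫ y, ∫ g, (Cᶜ).indicator (fun _ => (1 : ℝ))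
        ((1 - g) • bar (d + 1) + g • emb i y) ∂bet d ∂sig d ≤
      (d : ℝ) * ∫ y, kap C i y ∂sig d := by
    intro i
    have hψ : Measurable ((Cᶜ).indicator (fun _ : Fin (d + 1) → ℝ => (1 : ℝ))) :=
      measurable_const.indicator hCm.compl
    have hψb : ∀ x ∈ stdSimplex ℝ (Fin (d + 1)),
        |(Cᶜ).indicator (fun _ : Fin (d + 1) → ℝ => (1 : ℝ)) x| ≤ 1 := by
      intro x _
      by_cases h : x ∈ Cᶜ
      · rw [Set.indicator_of_mem h, abs_one]
      · rw [Set.indicator_of_notMem h, abs_zero]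
        exact zero_le_one
    have hI := integrable_inner_rad2 d hd0 hψ hψb i
    rw [← integral_const_mul]
    refine integral_mono_ae hI ((hκint i).const_mul _) ?_
    filter_upwards [sig_ae_mem d hd0] with y hy
    obtain ⟨κ, hκ⟩ : ∃ κ, κ = kap C i y := ⟨_, rfl⟩
    have heq : ∫ g, (Cᶜ).indicator (fun _ => (1 : ℝ))
        ((1 - g) • bar (d + 1) + g • emb i y) ∂bet d =
        ∫ g, (if 1 < g * (1 + κ) then (1 : ℝ) else 0) ∂bet d := by
      refine integral_congr_ae ?_
      filter_upwards [bet_ae_mem d] with g hg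
      have hmem := kap_mem hC i hy hg.1.le hg.2
      rw [← hκ] at hmem
      by_cases h : 1 < g * (1 + κ)
      · have h1 : (1 - g) • bar (d + 1) + g • emb i y ∈ Cᶜ := by
          rw [Set.mem_compl_iff, hmem]
          exact not_le.mpr h
        rw [Set.indicator_of_mem h1, if_pos h]
      · have h1 : (1 - g) • bar (d + 1) + g • emb i y ∉ Cᶜ := by
          rw [Set.mem_compl_iff, hmem, not_not]
          exact not_lt.mp h
        rw [Set.indicator_of_notMem h1, if_neg h]
    rw [heq, ← hκ]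
    exact rad_upper d hd0 κ (by rw [hκ]; exact hκ0 i y)
  -- conclusion
  have hψ : Measurable ((Cᶜ).indicator (fun x => fdet d x - fb)) :=
    ((fdet_continuous d).measurable.sub_const fb).indicator hCm.compl
  have hψb : ∀ x ∈ stdSimplex ℝ (Fin (d + 1)), |(Cᶜ).indicator (fun x => fdet d x - fb) x| ≤ 1 := by
    intro x hx
    have h1 := fdet_nonneg d x
    have h2 := fdet_le_one d hx
    by_cases h : x ∈ Cᶜ
    · rw [Set.indicator_of_mem h, abs_le]
      constructor <;> linarith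
    · rw [Set.indicator_of_notMem h, abs_zero]
      exact zero_le_one
  have hψ' : Measurable ((Cᶜ).indicator (fun _ : Fin (d + 1) → ℝ => (1 : ℝ))) :=
    measurable_const.indicator hCm.compl
  have hψb' : ∀ x ∈ stdSimplex ℝ (Fin (d + 1)),
      |(Cᶜ).indicator (fun _ : Fin (d + 1) → ℝ => (1 : ℝ)) x| ≤ 1 := by
    intro x _
    by_cases h : x ∈ Cᶜ
    · rw [Set.indicator_of_mem h, abs_one]
    · rw [Set.indicator_of_notMem h, abs_zero]
      exact zero_le_one
  have hreal : (sig (d + 1)).real Cᶜ =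
      ∫ x, (Cᶜ).indicator (fun _ : Fin (d + 1) → ℝ => (1 : ℝ)) x ∂sig (d + 1) := by
    rw [integral_indicator hCm.compl]
    simp [Measure.real]
  rw [hreal, ← integral_indicator hCm.compl, cone_swap_rad2 d hd0 hψ hψb,
    cone_swap_rad2 d hd0 hψ' hψb', ← mul_assoc, mul_comm (c0 / 2), mul_assoc]
  refine mul_le_mul_of_nonneg_left ?_ (by positivity)
  rw [Finset.mul_sum]
  refine Finset.sum_le_sum fun i _ => ?_
  refine le_trans (mul_le_mul_of_nonneg_left (hup i) (by positivity)) ?_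
  refine le_trans (le_of_eq ?_) (hlow i)
  ring

end Pool.Agent.Lib.MP_29b1bb_gt
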