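import Pool.Agent.Lib.MP_29b1bb_gt.Gam

/-!
# LM-SigV: the uniform law on a simplex as a cone over a facet with apex a vertex; permutations

`sig_vertex`: `gam (N+1)` is the image of `expo.prod (gam N)` under `(s, Y) ↦ i.insertNth s Y`
(`measurePreserving_piFinSuccAbove (fun _ => expo) i`, its symm), and for `s > 0`, `Y > 0`
`nrm (N+1) (i.insertNth s Y) = (1 - g) • Pi.single i 1 + g • emb i (nrm N Y)`,
`g = |Y| / (s + |Y|)` (check the coordinate `i` and the coordinates `i.succAbove k`,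
`Fin.sum_univ_succAbove`). Then use `law_pair` and `Measure.map_map`, `Measure.map_congr`.
`integral_vertex`: from `sig_vertex` by `integral_map` and `integral_prod`
(everything bounded, `emb_mem`, `comb_mem`, `sig_ae_mem`, `bet_ae_mem`).
`sig_perm`: `nrm m (x ∘ π) = nrm m x ∘ π` and `gam m` is invariant
(`MeasureTheory.measurePreserving_piCongrLeft` or `Measure.pi_eq` on boxes).
-/

set_option autoImplicit false

open MeasureTheory Set

namespace Pool.Agent.Lib.MP_29b1bb_gt

private theorem SigV_measG (N : ℕ) (i : Fin (N + 1)) :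
    Measurable (fun q : ℝ × (Fin N → ℝ) =>
      (1 - q.1) • (Pi.single i (1 : ℝ) : Fin (N + 1) → ℝ) + q.1 • emb i q.2) := by
  have h1 : Measurable fun q : ℝ × (Fin N → ℝ) => (1 : ℝ) - q.1 :=
    measurable_const.sub measurable_fst
  exact (h1.smul_const _).add (measurable_fst.smul ((measurable_emb i).comp measurable_snd))

private theorem SigV_measP (N : ℕ) :
    Measurable (fun q : ℝ × (Fin N → ℝ) => ((∑ k, q.2 k) / (q.1 + ∑ k, q.2 k), nrm N q.2)) := by
  have h1 : Measurable fun q : ℝ × (Fin N → ℝ) => ∑ k, q.2 k :=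
    Finset.measurable_sum _ fun k _ => (measurable_pi_apply k).comp measurable_snd
  exact (h1.div (measurable_fst.add h1)).prodMk ((measurable_nrm N).comp measurable_snd)

private theorem SigV_point (N : ℕ) (hN : 0 < N) (i : Fin (N + 1)) (s : ℝ) (hs : 0 < s)
    (Y : Fin N → ℝ) (hY : ∀ k, 0 < Y k) :
    nrm (N + 1) (i.insertNth s Y) =
      (1 - (∑ k, Y k) / (s + ∑ k, Y k)) • (Pi.single i (1 : ℝ) : Fin (N + 1) → ℝ) +
        ((∑ k, Y k) / (s + ∑ k, Y k)) • emb i (nrm N Y) := by
  have : Nonempty (Fin N) := ⟨⟨0, hN⟩⟩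
  have hS : 0 < ∑ k, Y k := Finset.sum_pos (fun k _ => hY k) Finset.univ_nonempty
  have hsum : ∑ k, (i.insertNth s Y : Fin (N + 1) → ℝ) k = s + ∑ k, Y k := by
    rw [Fin.sum_univ_succAbove _ i]
    simp
  have hT : 0 < s + ∑ k, Y k := by positivity
  funext k
  refine Fin.succAboveCases i ?_ (fun j => ?_) k
  · simp only [nrm, hsum, Pi.add_apply, Pi.smul_apply, Pi.single_eq_same, smul_eq_mul,
      emb_apply_same, Fin.insertNth_apply_same, mul_one, mul_zero, add_zero]
    field_simp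
    ring
  · have hne : i.succAbove j ≠ i := Fin.succAbove_ne i j
    simp only [nrm, hsum, Pi.add_apply, Pi.smul_apply, smul_eq_mul,
      emb_apply_succAbove, Fin.insertNth_apply_succAbove]
    rw [Pi.single_eq_of_ne hne, mul_zero, zero_add]
    field_simp

theorem sig_vertex (N : ℕ) (hN : 0 < N) (i : Fin (N + 1)) :
    sig (N + 1) = ((bet N).prod (sig N)).map (fun q : ℝ × (Fin N → ℝ) =>
      (1 - q.1) • (Pi.single i (1 : ℝ) : Fin (N + 1) → ℝ) + q.1 • emb i q.2) := by
  have hmp := (measurePreserving_piFinSuccAbove (fun _ : Fin (N + 1) => expo) i).symm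
  have hgam : gam (N + 1) = (expo.prod (gam N)).map
      (MeasurableEquiv.piFinSuccAbove (fun _ : Fin (N + 1) => ℝ) i).symm := by
    unfold gam
    exact hmp.map_eq.symm
  rw [← law_pair N hN, Measure.map_map (SigV_measG N i) (SigV_measP N)]
  have h0 : sig (N + 1) = (gam (N + 1)).map (nrm (N + 1)) := rfl
  rw [h0, hgam, Measure.map_map (measurable_nrm (N + 1)) (MeasurableEquiv.measurable _)]
  refine Measure.map_congr ?_
  have h1 : ∀ᵐ q ∂(expo.prod (gam N)), 0 < q.1 :=
    Measure.quasiMeasurePreserving_fst.ae expo_ae_pos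
  have h2 : ∀ᵐ q ∂(expo.prod (gam N)), ∀ k, 0 < q.2 k :=
    Measure.quasiMeasurePreserving_snd.ae (gam_ae_pos N)
  filter_upwards [h1, h2] with q hq1 hq2
  exact SigV_point N hN i q.1 hq1 q.2 hq2

theorem integral_vertex (N : ℕ) (hN : 0 < N) (i : Fin (N + 1)) (φ : (Fin (N + 1) → ℝ) → ℝ)
    (hφ : Measurable φ) (M : ℝ) (hM : ∀ x ∈ stdSimplex ℝ (Fin (N + 1)), |φ x| ≤ M) :
    ∫ x, φ x ∂sig (N + 1) =
      ∫ g, ∫ y, φ ((1 - g) • (Pi.single i (1 : ℝ) : Fin (N + 1) → ℝ) + g • emb i y) ∂sig N ∂bet N := by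
  have hP : IsProbabilityMeasure (bet N) := instProbBet N hN
  rw [sig_vertex N hN i, integral_map (SigV_measG N i).aemeasurable hφ.aestronglyMeasurable]
  rw [integral_prod]
  refine Integrable.of_bound (C := M) (hφ.comp (SigV_measG N i)).aestronglyMeasurable ?_
  have h1 : ∀ᵐ q ∂((bet N).prod (sig N)), q.1 ∈ Ioc (0 : ℝ) 1 :=
    Measure.quasiMeasurePreserving_fst.ae (bet_ae_mem N)
  have h2 : ∀ᵐ q ∂((bet N).prod (sig N)), q.2 ∈ stdSimplex ℝ (Fin N) :=
    Measure.quasiMeasurePreserving_snd.ae (sig_ae_mem N hN)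
  filter_upwards [h1, h2] with q hq1 hq2
  rw [Real.norm_eq_abs]
  exact hM _ (comb_mem (single_mem_stdSimplex ℝ i) (emb_mem i hq2) hq1.1.le hq1.2)

private theorem SigV_measPerm (m : ℕ) (π : Equiv.Perm (Fin m)) :
    Measurable (fun x : Fin m → ℝ => x ∘ π) :=
  measurable_pi_lambda _ fun k => measurable_pi_apply (π k)

private theorem SigV_gam_perm (m : ℕ) (π : Equiv.Perm (Fin m)) :
    (gam m).map (fun x : Fin m → ℝ => x ∘ π) = gam m := by
  unfold gam
  refine (Measure.pi_eq fun t ht => ?_).symm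
  rw [Measure.map_apply (SigV_measPerm m π) (MeasurableSet.univ_pi ht)]
  have h1 : (fun x : Fin m → ℝ => x ∘ π) ⁻¹' (Set.univ.pi t) =
      Set.univ.pi fun k => t (π.symm k) := by
    ext x
    simp only [mem_preimage, mem_pi, mem_univ, true_implies, Function.comp_apply]
    constructor
    · intro h k
      have := h (π.symm k)
      rwa [Equiv.apply_symm_apply] at this
    · intro h k
      have := h (π k)
      rwa [Equiv.symm_apply_apply] at this
  rw [h1, Measure.pi_pi]
  exact Equiv.prod_comp π.symm (fun k => expo (t k))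

theorem sig_perm (m : ℕ) (π : Equiv.Perm (Fin m)) :
    (sig m).map (fun x : Fin m → ℝ => x ∘ π) = sig m := by
  have h0 : sig m = (gam m).map (nrm m) := rfl
  have h1 : (fun x : Fin m → ℝ => x ∘ π) ∘ nrm m = nrm m ∘ (fun x : Fin m → ℝ => x ∘ π) := by
    funext x
    funext k
    simp only [Function.comp_apply, nrm]
    rw [Equiv.sum_comp π x]
  rw [h0, Measure.map_map (SigV_measPerm m π) (measurable_nrm m), h1,
    ← Measure.map_map (measurable_nrm m) (SigV_measPerm m π), SigV_gam_perm]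

theorem integral_sig_perm (m : ℕ) (π : Equiv.Perm (Fin m)) (φ : (Fin m → ℝ) → ℝ)
    (hφ : Measurable φ) : ∫ x, φ (x ∘ π) ∂sig m = ∫ x, φ x ∂sig m := by
  conv_rhs => rw [← sig_perm m π]
  rw [integral_map (SigV_measPerm m π).aemeasurable hφ.aestronglyMeasurable]

end Pool.Agent.Lib.MP_29b1bb_gt
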