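import Pool.Agent.Lib.MP_29b1bb_gt.FDet
import Pool.Agent.Lib.MP_29b1bb_gt.Contr

/-!
# LM-Strict1 (step (1) only): `fdet` is not constant on a facet

Write `f y = fdet d (emb 0 y)`, `b = bar d`, `d ≥ 2`. `SymConv d f` (`fdet_symConv`), so `f b ≤ f y` on the
simplex (`symConv_bar_le`) and `f b ≤ ∫ f`. Suppose `∫ f = f b`.
(1) Then `f y = f b` for almost all `y`. The set `{y ∈ Δ | 1 - t ≤ y k}` has positive measure
(`sig_vertex_nhds`, for `sig d`, `d = (d-1)+1`, `d - 1 > 0`), so it contains a `y` with `f y = f b`, and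
`|f (e_k) - f y| ≤ ∑ |…| ≤ 2 t` (`fdet_lipschitz`); `t → 0`: `f (e_k) = f b` for all `k`
(`e_k = Pi.single k 1`).
(2) For `Y : Fin d → (Fin (d+1) → ℝ)` let `w Y l = det (Fin.cons (Pi.single l 1) Y)`. Then
`f (e_k) = ∫ |w Y k.succ|`, `f b = ∫ |(1/d) ∑_k w Y k.succ|` (linearity of `det` in the first row), so
`∫ ((1/d) ∑_k |w Y k.succ| - |(1/d) ∑_k w Y k.succ|) = 0` and the integrand is `≥ 0`; so for almost
all `Y` `|∑_k w Y k.succ| = ∑_k |w Y k.succ|`, in particular `0 ≤ w Y 1 * w Y 2` (indices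
`1, 2 ∈ Fin (d+1)`, i.e. `k = 0, 1`; `d ≥ 2`).
(3) There is a set of positive measure of `Y` with `w Y 1 * w Y 2 < 0`: let `Y* i`, `i : Fin d`, be the
vertices `e_0, e_3, …, e_d` (in any order, `d - 1` of them) and, for the last index,
`(1/2) (e_1 + e_2)`. Then `w Y* 1 = -w Y* 2 = ± 1/2`. By continuity of the determinant there is
`s > 0` such that `w Y 1 * w Y 2 < 0` if `∑_l |Y i l - Y* i l| < s` for all `i`. The set of such `Y` in
the product has positive measure since each factor has: for a vertex by `sig_vertex_nhds`, and for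
`(1/2)(e_1 + e_2)` by `sig_contract_apply` (`i = 1`, `t = 1/2`) and `sig_vertex_nhds` (vertex `2`).
Contradiction with (2).
-/

set_option autoImplicit false

open MeasureTheory Set

namespace Pool.Agent.Lib.MP_29b1bb_gt

private theorem Strict1_dist {n : ℕ} (k : Fin n) (y : Fin n → ℝ) (hy : y ∈ stdSimplex ℝ (Fin n))
    (t : ℝ) (ht : 1 - t ≤ y k) :
    ∑ j, |(Pi.single k (1 : ℝ) : Fin n → ℝ) j - y j| ≤ 2 * t := by
  classical
  rw [← Finset.add_sum_erase Finset.univ _ (Finset.mem_univ k)]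
  have h1 : y k + ∑ j ∈ Finset.univ.erase k, y j = 1 := by
    rw [Finset.add_sum_erase Finset.univ y (Finset.mem_univ k)]
    exact hy.2
  have h2 : ∑ j ∈ Finset.univ.erase k, |(Pi.single k (1 : ℝ) : Fin n → ℝ) j - y j| =
      ∑ j ∈ Finset.univ.erase k, y j := by
    refine Finset.sum_congr rfl fun j hj => ?_
    rw [Pi.single_eq_of_ne (Finset.ne_of_mem_erase hj), zero_sub, abs_neg, abs_of_nonneg (hy.1 j)]
  have h3 : 0 ≤ ∑ j ∈ Finset.univ.erase k, y j := Finset.sum_nonneg fun j _ => hy.1 j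
  rw [h2, Pi.single_eq_same, abs_of_nonneg (by linarith)]
  linarith

private theorem Strict1_emb_dist {n : ℕ} (x y : Fin n → ℝ) :
    ∑ i, |emb 0 x i - emb 0 y i| = ∑ j, |x j - y j| := by
  rw [Fin.sum_univ_succAbove _ 0]
  simp only [emb_apply_same, emb_apply_succAbove, sub_self, abs_zero, zero_add]

private theorem Strict1_aux (N : ℕ) (hN : 0 < N)
    (h : ∫ y, fdet (N + 1) (emb 0 y) ∂sig (N + 1) ≤ fdet (N + 1) (emb 0 (bar (N + 1))))
    (k : Fin (N + 1)) :
    fdet (N + 1) (emb 0 (Pi.single k (1 : ℝ))) = fdet (N + 1) (emb 0 (bar (N + 1))) := by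
  have hsc := fdet_symConv (N + 1) 0
  have hle := symConv_bar_le (Nat.succ_pos N) hsc
  obtain ⟨M, hM⟩ := hsc.bdd
  set f : (Fin (N + 1) → ℝ) → ℝ := fun y => fdet (N + 1) (emb 0 y) with hf
  set c : ℝ := f (bar (N + 1)) with hc
  have hint : Integrable f (sig (N + 1)) := integrable_sig (Nat.succ_pos N) hsc.meas hM
  have hnn : 0 ≤ᵐ[sig (N + 1)] fun y => f y - c := by
    filter_upwards [sig_ae_mem (N + 1) (Nat.succ_pos N)] with y hy
    exact sub_nonneg.mpr (hle y hy)
  have hint2 : Integrable (fun y => f y - c) (sig (N + 1)) := hint.sub (integrable_const c)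
  have h0 : ∫ y, (f y - c) ∂sig (N + 1) = 0 := by
    refine le_antisymm ?_ (integral_nonneg_of_ae hnn)
    rw [integral_sub hint (integrable_const c)]
    simp only [integral_const, smul_eq_mul, probReal_univ, one_mul]
    linarith [h]
  have hae : (fun y => f y - c) =ᵐ[sig (N + 1)] 0 :=
    (integral_eq_zero_iff_of_nonneg_ae hnn hint2).mp h0
  have hkey : ∀ t : ℝ, 0 < t → t ≤ 1 → |f (Pi.single k (1 : ℝ)) - c| ≤ 2 * t := by
    intro t ht ht1
    have h1 : sig (N + 1) {x | x ∈ stdSimplex ℝ (Fin (N + 1)) ∧ 1 - t ≤ x k} ≠ 0 := by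
      rw [sig_vertex_nhds N hN k t ht ht1]
      have : 0 < t ^ N := by positivity
      exact (ENNReal.ofReal_pos.mpr this).ne'
    have h2 := frequently_ae_mem_iff.mpr h1
    obtain ⟨y, hy1, hy2⟩ := (h2.and_eventually hae).exists
    have hy3 : f y = c := sub_eq_zero.mp hy2
    rw [← hy3]
    refine (fdet_lipschitz (N + 1) _ _).trans ?_
    rw [Strict1_emb_dist]
    exact Strict1_dist k y hy1.1 t hy1.2
  have habs : |f (Pi.single k (1 : ℝ)) - c| ≤ 0 := by
    by_contra hcon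
    push Not at hcon
    set δ := |f (Pi.single k (1 : ℝ)) - c| with hδ
    have h1 := hkey (min 1 (δ / 4)) (lt_min one_pos (by positivity)) (min_le_left _ _)
    have h2 : min 1 (δ / 4) ≤ δ / 4 := min_le_right _ _
    linarith
  have h5 : f (Pi.single k (1 : ℝ)) - c = 0 := abs_eq_zero.mp (le_antisymm habs (abs_nonneg _))
  exact sub_eq_zero.mp h5

/-- step (1) -/
theorem strict_vertices (d : ℕ) (hd : 2 ≤ d)
    (h : ∫ y, fdet d (emb 0 y) ∂sig d ≤ fdet d (emb 0 (bar d))) (k : Fin d) :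
    fdet d (emb 0 (Pi.single k (1 : ℝ))) = fdet d (emb 0 (bar d)) := by
  obtain ⟨N, rfl⟩ : ∃ N, d = N + 1 := ⟨d - 1, by omega⟩
  exact Strict1_aux N (by omega) h k

end Pool.Agent.Lib.MP_29b1bb_gt
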