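import Pool.Agent.Lib.MP_29b1bb_gt.SigV

/-!
# LM-Sym: symmetric convex functions on the simplex

`symConv_bar_le`: `bar N = (1/N) ∑_k x ∘ (· + k)` for `x` in the simplex (cyclic shifts, write
`N = k + 1` and use the group `Fin (k+1)`), convexity (`ConvexOn.map_sum_le`) and symmetry.
`symConv_slice`: `y ↦ (1-g) • bar + g • emb i y` is affine and maps the simplex to the simplex;
for a permutation `π` of `Fin N` the vector `emb i (y ∘ π)` is `emb i y ∘ π'`, `π'` the permutation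
of `Fin (N+1)` which fixes `i` and acts as `π` on the others
(`Equiv.Perm.decomposeFin`-like; e.g. `π' = (finSuccEquiv' i).permCongr.symm (Equiv.optionCongr π)`),
and `bar` is invariant.
`symConv_slice_eq`: `emb i y = emb 0 y ∘ π'` for a permutation `π'` (`Fin.cycleRange`,
`Fin.succAbove_cycleRange`, or construct `π' = (finSuccEquiv' i).trans (finSuccEquiv' 0).symm`).
`symConv_radial`: convexity in `g` for fixed `y`, integrate; `symConv_bar_le`.
-/

set_option autoImplicit false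

open MeasureTheory Set

namespace Pool.Agent.Lib.MP_29b1bb_gt

/-- bounded measurable symmetric convex functions on the simplex -/
structure SymConv (N : ℕ) (f : (Fin N → ℝ) → ℝ) : Prop where
  meas : Measurable f
  conv : ConvexOn ℝ (stdSimplex ℝ (Fin N)) f
  symm : ∀ (π : Equiv.Perm (Fin N)), ∀ x ∈ stdSimplex ℝ (Fin N), f (x ∘ π) = f x
  bdd : ∃ M : ℝ, ∀ x ∈ stdSimplex ℝ (Fin N), |f x| ≤ M

theorem emb_perm {N : ℕ} (i j : Fin (N + 1)) :
    ∃ π : Equiv.Perm (Fin (N + 1)), ∀ y : Fin N → ℝ, emb i y = emb j y ∘ π := by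
  refine ⟨(finSuccEquiv' i).trans (finSuccEquiv' j).symm, fun y => ?_⟩
  funext k
  refine Fin.succAboveCases i ?_ (fun l => ?_) k
  · rw [Function.comp_apply, Equiv.trans_apply, finSuccEquiv'_at, finSuccEquiv'_symm_none,
      emb_apply_same, emb_apply_same]
  · rw [Function.comp_apply, Equiv.trans_apply, finSuccEquiv'_succAbove, finSuccEquiv'_symm_some,
      emb_apply_succAbove, emb_apply_succAbove]

theorem emb_comp_perm {N : ℕ} (i : Fin (N + 1)) (π : Equiv.Perm (Fin N)) :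
    ∃ π' : Equiv.Perm (Fin (N + 1)), ∀ y : Fin N → ℝ, emb i (y ∘ π) = emb i y ∘ π' := by
  refine ⟨(finSuccEquiv' i).trans ((Equiv.optionCongr π).trans (finSuccEquiv' i).symm),
    fun y => ?_⟩
  funext k
  refine Fin.succAboveCases i ?_ (fun l => ?_) k
  · rw [Function.comp_apply, Equiv.trans_apply, Equiv.trans_apply, finSuccEquiv'_at,
      Equiv.optionCongr_apply, Option.map_none, finSuccEquiv'_symm_none, emb_apply_same,
      emb_apply_same]
  · rw [Function.comp_apply, Equiv.trans_apply, Equiv.trans_apply, finSuccEquiv'_succAbove,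
      Equiv.optionCongr_apply, Option.map_some, finSuccEquiv'_symm_some, emb_apply_succAbove,
      emb_apply_succAbove, Function.comp_apply]

theorem symConv_bar_le {N : ℕ} (hN : 0 < N) {f : (Fin N → ℝ) → ℝ} (h : SymConv N f) :
    ∀ x ∈ stdSimplex ℝ (Fin N), f (bar N) ≤ f x := by
  intro x hx
  obtain ⟨n, rfl⟩ : ∃ n, N = n + 1 := ⟨N - 1, by omega⟩
  have hmem : ∀ k : Fin (n + 1), x ∘ (Equiv.addRight k) ∈ stdSimplex ℝ (Fin (n + 1)) := by
    intro k
    refine ⟨fun i => hx.1 _, ?_⟩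
    rw [← hx.2]
    exact Equiv.sum_comp (Equiv.addRight k) x
  have hbar : bar (n + 1) = ∑ k : Fin (n + 1), (((n + 1 : ℕ) : ℝ)⁻¹) • (x ∘ (Equiv.addRight k)) := by
    funext i
    rw [Finset.sum_apply]
    simp only [Pi.smul_apply, Function.comp_apply, Equiv.coe_addRight, smul_eq_mul, bar]
    rw [← Finset.mul_sum]
    have h1 : ∑ k : Fin (n + 1), x (i + k) = 1 := by
      rw [← hx.2]
      exact Equiv.sum_comp (Equiv.addLeft i) x
    rw [h1, mul_one]
  have hw : ∑ _k : Fin (n + 1), (((n + 1 : ℕ) : ℝ)⁻¹) = 1 := by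
    rw [Finset.sum_const, Finset.card_univ, Fintype.card_fin, nsmul_eq_mul]
    have : ((n + 1 : ℕ) : ℝ) ≠ 0 := by positivity
    field_simp
  have h1 := h.conv.map_sum_le (t := (Finset.univ : Finset (Fin (n + 1))))
    (w := fun _ => ((n + 1 : ℕ) : ℝ)⁻¹) (p := fun k => x ∘ (Equiv.addRight k))
    (fun _ _ => by positivity) hw (fun k _ => hmem k)
  rw [← hbar] at h1
  refine h1.trans (le_of_eq ?_)
  simp only [smul_eq_mul]
  have h2 : ∀ k : Fin (n + 1), f (x ∘ (Equiv.addRight k)) = f x := fun k =>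
    h.symm (Equiv.addRight k) x hx
  simp only [h2]
  rw [← Finset.sum_mul, hw, one_mul]

/-- the affine map of a slice -/
private theorem sm_affine {N : ℕ} (i : Fin (N + 1)) (g : ℝ) (x y : Fin N → ℝ) {a b : ℝ}
    (hab : a + b = 1) :
    (1 - g) • bar (N + 1) + g • emb i (a • x + b • y) =
      a • ((1 - g) • bar (N + 1) + g • emb i x) + b • ((1 - g) • bar (N + 1) + g • emb i y) := by
  rw [emb_add, emb_smul, emb_smul]
  funext k
  simp only [Pi.add_apply, Pi.smul_apply, smul_eq_mul]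
  have : b = 1 - a := by linarith
  rw [this]
  ring

theorem symConv_slice {N : ℕ} (hN : 0 < N) {f : (Fin (N + 1) → ℝ) → ℝ} (h : SymConv (N + 1) f)
    {g : ℝ} (hg : g ∈ Icc (0 : ℝ) 1) (i : Fin (N + 1)) :
    SymConv N (fun y => f ((1 - g) • bar (N + 1) + g • emb i y)) := by
  have hmem : ∀ y ∈ stdSimplex ℝ (Fin N), (1 - g) • bar (N + 1) + g • emb i y ∈
      stdSimplex ℝ (Fin (N + 1)) := fun y hy =>
    comb_mem (bar_mem (Nat.succ_pos N)) (emb_mem i hy) hg.1 hg.2
  refine ⟨?_, ⟨convex_stdSimplex ℝ (Fin N), ?_⟩, ?_, ?_⟩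
  · exact h.meas.comp (((measurable_emb i).const_smul g).const_add _)
  · intro x hx y hy a b ha hb hab
    beta_reduce
    rw [sm_affine i g x y hab]
    exact h.conv.2 (hmem x hx) (hmem y hy) ha hb hab
  · intro π x hx
    obtain ⟨π', hπ'⟩ := emb_comp_perm i π
    have h1 : (1 - g) • bar (N + 1) + g • emb i (x ∘ π) =
        ((1 - g) • bar (N + 1) + g • emb i x) ∘ π' := by
      rw [hπ']
      rfl
    rw [h1]
    exact h.symm π' _ (hmem x hx)
  · obtain ⟨M, hM⟩ := h.bdd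
    exact ⟨M, fun x hx => hM _ (hmem x hx)⟩

theorem symConv_slice_eq {N : ℕ} (hN : 0 < N) {f : (Fin (N + 1) → ℝ) → ℝ} (h : SymConv (N + 1) f)
    {g : ℝ} (hg : g ∈ Icc (0 : ℝ) 1) (i : Fin (N + 1)) {y : Fin N → ℝ}
    (hy : y ∈ stdSimplex ℝ (Fin N)) :
    f ((1 - g) • bar (N + 1) + g • emb i y) = f ((1 - g) • bar (N + 1) + g • emb 0 y) := by
  obtain ⟨π, hπ⟩ := emb_perm i 0
  have h1 : (1 - g) • bar (N + 1) + g • emb i y =
      ((1 - g) • bar (N + 1) + g • emb 0 y) ∘ π := by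
    rw [hπ]
    rfl
  rw [h1]
  exact h.symm π _ (comb_mem (bar_mem (Nat.succ_pos N)) (emb_mem 0 hy) hg.1 hg.2)

theorem symConv_radial {N : ℕ} (hN : 0 < N) {f : (Fin (N + 1) → ℝ) → ℝ}
    (h : SymConv (N + 1) f) :
    ConvexOn ℝ (Icc (0 : ℝ) 1) (fun g => ∫ y, f ((1 - g) • bar (N + 1) + g • emb 0 y) ∂sig N) ∧
      ∀ g ∈ Icc (0 : ℝ) 1, f (bar (N + 1)) ≤ ∫ y, f ((1 - g) • bar (N + 1) + g • emb 0 y) ∂sig N := by
  have hint : ∀ g ∈ Icc (0 : ℝ) 1, Integrable
      (fun y => f ((1 - g) • bar (N + 1) + g • emb 0 y)) (sig N) := by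
    intro g hg
    have hs := symConv_slice hN h hg 0
    obtain ⟨M, hM⟩ := hs.bdd
    exact integrable_sig hN hs.meas hM
  have hmem : ∀ g ∈ Icc (0 : ℝ) 1, ∀ y ∈ stdSimplex ℝ (Fin N),
      (1 - g) • bar (N + 1) + g • emb 0 y ∈ stdSimplex ℝ (Fin (N + 1)) := fun g hg y hy =>
    comb_mem (bar_mem (Nat.succ_pos N)) (emb_mem 0 hy) hg.1 hg.2
  refine ⟨⟨convex_Icc 0 1, ?_⟩, ?_⟩
  · intro g₁ hg₁ g₂ hg₂ a b ha hb hab
    have hg : a • g₁ + b • g₂ ∈ Icc (0 : ℝ) 1 := convex_Icc 0 1 hg₁ hg₂ ha hb hab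
    simp only [smul_eq_mul] at hg ⊢
    rw [← integral_const_mul, ← integral_const_mul, ← integral_add ((hint g₁ hg₁).const_mul a)
      ((hint g₂ hg₂).const_mul b)]
    refine integral_mono_ae (hint _ hg) (((hint g₁ hg₁).const_mul a).add
      ((hint g₂ hg₂).const_mul b)) ?_
    filter_upwards [sig_ae_mem N hN] with y hy
    have h1 : (1 - (a * g₁ + b * g₂)) • bar (N + 1) + (a * g₁ + b * g₂) • emb 0 y =
        a • ((1 - g₁) • bar (N + 1) + g₁ • emb 0 y) +
          b • ((1 - g₂) • bar (N + 1) + g₂ • emb 0 y) := by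
      funext k
      simp only [Pi.add_apply, Pi.smul_apply, smul_eq_mul]
      have : b = 1 - a := by linarith
      rw [this]
      ring
    rw [h1]
    exact h.conv.2 (hmem g₁ hg₁ y hy) (hmem g₂ hg₂ y hy) ha hb hab
  · intro g hg
    have h1 : f (bar (N + 1)) = ∫ _y, f (bar (N + 1)) ∂sig N := by
      rw [integral_const]
      simp
    rw [h1]
    refine integral_mono_ae (integrable_const _) (hint g hg) ?_
    filter_upwards [sig_ae_mem N hN] with y hy
    exact symConv_bar_le (Nat.succ_pos N) h _ (hmem g hg y hy)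

end Pool.Agent.Lib.MP_29b1bb_gt
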